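import Pool.Agent.P.MP_8f87b2_lc.PL.Moebius

/-!
# Terms, residues and the embedding of thin matrix products in digit strings
-/

namespace Pool.Agent.P.MP_8f87b2_lc.PL

open Finset

/-! ### Polynomials as lists of terms -/

/-- a term `h x ^ i y ^ j z ^ k` times a monomial in further variables with exponents `es` -/
structure Trm where
  i : ℕ
  j : ℕ
  k : ℕ
  h : ℤ
  es : List ℕ

/-- the monomial with exponent list `es` in the variables `w t, w (t + 1), …` -/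
def mon (w : ℕ → ℤ) : List ℕ → ℕ → ℤ
  | [], _ => 1
  | e :: es, t => w t ^ e * mon w es (t + 1)

/-- the coefficient of a term once the further variables are fixed -/
def Trm.co (w : ℕ → ℤ) (τ : Trm) : ℤ := τ.h * mon w τ.es 0

/-- the sum of `co τ * f τ` over the terms -/
def tsum (w : ℕ → ℤ) (T : List Trm) (f : Trm → ℤ) : ℤ := (T.map fun τ => τ.co w * f τ).sum

/-- the value of the polynomial -/
def Hv (w : ℕ → ℤ) (T : List Trm) (x y z : ℤ) : ℤ :=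
  tsum w T fun τ => x ^ τ.i * y ^ τ.j * z ^ τ.k

theorem tsum_nil (w : ℕ → ℤ) (f : Trm → ℤ) : tsum w [] f = 0 := rfl

theorem tsum_cons (w : ℕ → ℤ) (τ : Trm) (T : List Trm) (f : Trm → ℤ) :
    tsum w (τ :: T) f = τ.co w * f τ + tsum w T f := by simp [tsum]

theorem tsum_congr {w : ℕ → ℤ} {T : List Trm} {f g : Trm → ℤ} (h : ∀ τ ∈ T, f τ = g τ) :
    tsum w T f = tsum w T g := by
  unfold tsum
  rw [List.map_congr_left fun τ hτ => by rw [h τ hτ]]

theorem tsum_sum {ι : Type*} (w : ℕ → ℤ) (T : List Trm) (S : Finset ι) (f : ι → Trm → ℤ) :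
    tsum w T (fun τ => ∑ a ∈ S, f a τ) = ∑ a ∈ S, tsum w T (f a) := by
  induction T with
  | nil => simp [tsum_nil]
  | cons τ T ih => simp only [tsum_cons, ih, mul_sum, sum_add_distrib]

theorem Hv_modEq (w : ℕ → ℤ) (T : List Trm) {q x y z x' y' z' : ℤ} (hx : x ≡ x' [ZMOD q])
    (hy : y ≡ y' [ZMOD q]) (hz : z ≡ z' [ZMOD q]) :
    Hv w T x y z ≡ Hv w T x' y' z' [ZMOD q] := by
  unfold Hv
  induction T with
  | nil => rfl
  | cons τ T ih =>
    rw [tsum_cons, tsum_cons]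
    exact ((((hx.pow _).mul (hy.pow _)).mul (hz.pow _)).mul_left _).add ih

/-- the least nonnegative residue -/
def res (q : ℕ) (x : ℤ) : ℕ := (x % q).toNat

theorem res_cast {q : ℕ} (hq : 0 < q) (x : ℤ) : (res q x : ℤ) = x % q :=
  Int.toNat_of_nonneg (Int.emod_nonneg _ (by exact_mod_cast hq.ne'))

theorem res_lt {q : ℕ} (hq : 0 < q) (x : ℤ) : res q x < q := by
  have h := Int.emod_lt_of_pos x (show (0 : ℤ) < q by exact_mod_cast hq)
  rw [← res_cast hq] at h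
  exact_mod_cast h

theorem res_modEq {q : ℕ} (hq : 0 < q) (x : ℤ) : (res q x : ℤ) ≡ x [ZMOD q] := by
  rw [res_cast hq]; exact Int.mod_modEq _ _

theorem dvd_Hv_res (w : ℕ → ℤ) (T : List Trm) {q : ℕ} (hq : 0 < q) (x y z : ℤ) :
    (q : ℤ) ∣ Hv w T (res q x) (res q y) (res q z) ↔ (q : ℤ) ∣ Hv w T x y z :=
  (Hv_modEq w T (res_modEq hq x) (res_modEq hq y) (res_modEq hq z)).dvd_iff

/-- the pairs of residues at which the polynomial vanishes modulo `q` -/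
def roots (w : ℕ → ℤ) (T : List Trm) (q z : ℕ) : Finset (ℕ × ℕ) :=
  (range q ×ˢ range q).filter fun p => (q : ℤ) ∣ Hv w T p.1 p.2 z

/-! ### Strings -/

/-- number of digits that are neither blank nor a letter -/
def inv (l p : ℕ) : ℕ := ((range l).filter fun t => dig t p ≠ 0 ∧ dig t p < 32768).card

/-- digit number `t` in base `32768` -/
def ld (t x : ℕ) : ℕ := x / 32768 ^ t % 32768

/-- bit number `a` -/
def bit (a π : ℕ) : ℕ := π / 2 ^ a % 2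

theorem ld_lt (t x : ℕ) : ld t x < 32768 := Nat.mod_lt _ (by norm_num)

theorem bit_lt (a π : ℕ) : bit a π < 2 := Nat.mod_lt _ (by norm_num)

theorem ld_shift (t x : ℕ) : (x >>> (15 * t)) &&& 32767 = ld t x := by
  rw [Nat.shiftRight_eq_div_pow, show (32767 : ℕ) = 2 ^ 15 - 1 by norm_num,
    Nat.and_two_pow_sub_one_eq_mod, pow_mul]
  rfl

theorem bit_shift (a π : ℕ) : (π >>> a) &&& 1 = bit a π := by
  rw [Nat.shiftRight_eq_div_pow, Nat.and_one_is_mod, bit]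

/-- the digit in cell `t` of the string with letters from `L₀`, `L₁` and pattern `π` -/
def cell (m L₀ L₁ π t : ℕ) : ℕ :=
  if t < m then (if bit t π = 0 then 32768 + ld t L₀ else 0)
  else (if bit (t - m) π = 0 then 0 else 32768 + ld (t - m) L₁)

theorem cell_lt (m L₀ L₁ π t : ℕ) : cell m L₀ L₁ π t < 65536 := by
  have := ld_lt t L₀
  have := ld_lt (t - m) L₁
  unfold cell; split_ifs <;> omega

def wd (m L₀ L₁ π : ℕ) : ℕ := enc (2 * m) (cell m L₀ L₁ π)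

theorem wd_lt (m L₀ L₁ π : ℕ) : wd m L₀ L₁ π < 65536 ^ (2 * m) :=
  enc_lt fun _ _ => cell_lt _ _ _ _ _

theorem dig_wd {m t : ℕ} (ht : t < 2 * m) (L₀ L₁ π : ℕ) :
    dig t (wd m L₀ L₁ π) = cell m L₀ L₁ π t :=
  dig_enc (fun _ _ => cell_lt _ _ _ _ _) ht

/-- the pattern of block `(κ₁, κ₂)` and inner index `β`; the inner part has `μ` pairs of cells,
the outer part `30 μ` -/
def pat (μ κ₁ κ₂ β : ℕ) : ℕ := κ₁ + 32768 ^ μ * (κ₂ + 32768 ^ μ * β)

/-- the string of row `L`, block column `κ` and inner index `β` -/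
def uX (μ L κ β : ℕ) : ℕ :=
  wd (31 * μ) L (L % 32768 ^ (30 * μ) + 32768 ^ (30 * μ) * κ) (pat μ (L / 32768 ^ (30 * μ)) κ β)

/-- the string of column `L`, block row `κ` and inner index `β` -/
def vY (μ L κ β : ℕ) : ℕ :=
  wd (31 * μ) (L % 32768 ^ (30 * μ) + 32768 ^ (30 * μ) * κ) L
    (2 ^ (31 * μ) - 1 - pat μ κ (L / 32768 ^ (30 * μ)) β)

/-- the output string of row `L` and column `L'` -/
def eO (μ L L' : ℕ) : ℕ :=
  uX μ L (L' / 32768 ^ (30 * μ)) 0 + vY μ L' (L / 32768 ^ (30 * μ)) 0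

theorem uX_lt (μ L κ β : ℕ) : uX μ L κ β < 65536 ^ (62 * μ) := by
  rw [show 62 * μ = 2 * (31 * μ) by ring]; exact wd_lt _ _ _ _

theorem vY_lt (μ L κ β : ℕ) : vY μ L κ β < 65536 ^ (62 * μ) := by
  rw [show 62 * μ = 2 * (31 * μ) by ring]; exact wd_lt _ _ _ _

theorem pat_lt {μ κ₁ κ₂ β : ℕ} (h1 : κ₁ < 32768 ^ μ) (h2 : κ₂ < 32768 ^ μ) (h3 : β < 2 ^ μ) :
    pat μ κ₁ κ₂ β < 2 ^ (31 * μ) := by
  have e : 2 ^ (31 * μ) = 32768 ^ μ * (32768 ^ μ * 2 ^ μ) := by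
    rw [pow_mul, ← mul_pow, ← mul_pow]; norm_num
  have h4 : κ₂ + 32768 ^ μ * β + 1 ≤ 32768 ^ μ * 2 ^ μ := by nlinarith
  rw [e, pat]
  nlinarith

/-- The facts about the embedding that the algorithm uses. -/
def SEmb : Prop := ∀ μ : ℕ,
  (∀ L κ β, cnt (62 * μ) (uX μ L κ β) = 31 * μ) ∧
  (∀ L κ β, cnt (62 * μ) (vY μ L κ β) = 31 * μ) ∧
  ∀ L < 32768 ^ (31 * μ), ∀ L' < 32768 ^ (31 * μ),
    eO μ L L' < 65536 ^ (62 * μ) ∧ cnt (62 * μ) (eO μ L L') = 0 ∧ inv (62 * μ) (eO μ L L') = 0 ∧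
    ∀ L₁ < 32768 ^ (31 * μ), ∀ L₂ < 32768 ^ (31 * μ), ∀ κ₁ < 32768 ^ μ, ∀ κ₂ < 32768 ^ μ,
      ∀ β < 2 ^ μ, ∀ β' < 2 ^ μ,
        (((range (62 * μ)).powersetCard (31 * μ)).filter fun S =>
          msk (62 * μ) S (eO μ L L') = uX μ L₁ κ₂ β ∧
            msk (62 * μ) (range (62 * μ) \ S) (eO μ L L') = vY μ L₂ κ₁ β').card =
        if L₁ = L ∧ L₂ = L' ∧ κ₁ = L / 32768 ^ (30 * μ) ∧ κ₂ = L' / 32768 ^ (30 * μ) ∧ β = β'
          then 1 else 0

/-- A polynomial that is not zero modulo the prime `q` at some point has few roots. -/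
def SSZ : Prop := ∀ (w : ℕ → ℤ) (T : List Trm) (E q : ℕ), (∀ τ ∈ T, τ.i < E ∧ τ.j < E) →
  q.Prime → ∀ x y z : ℤ, ¬ (q : ℤ) ∣ Hv w T x y z → (roots w T q (res q z)).card ≤ 2 * E * q

end Pool.Agent.P.MP_8f87b2_lc.PL
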