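import Pool.Agent.P.MP_8f87b2_lc.PL.Spec

/-!
# A solution is found when the moduli are good
-/

namespace Pool.Agent.P.MP_8f87b2_lc.PL

open Finset

theorem sComplete (hSZ : SSZ) : SComplete := by
  intro c hN π hπ z i hi i' hi' i'' hi'' h0 hG
  obtain ⟨g1, g2, g3⟩ := hG
  have hT : ∀ τ ∈ c.T, τ.i < c.e ∧ τ.j < c.e := fun τ hτ => ⟨(hN.hT τ hτ).1, (hN.hT τ hτ).2.1⟩
  have len : ∀ q : ℕ, q.Prime → q < c.P → ¬ (q : ℤ) ∣ c.H z (c.ya 0) (c.yb 0) (c.yc i'') →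
      (c.rt z q (res q (c.yc i''))).card ≤ c.Z := fun q hq hl hd =>
    (hSZ _ _ _ _ hT hq _ _ _ hd).trans (Nat.mul_le_mul_left _ hl.le)
  have mem : ∀ q : ℕ, 0 < q →
      (res q (c.ya i), res q (c.yb i')) ∈ c.rt z q (res q (c.yc i'')) := fun q hq => by
    simp only [Cx.rt, roots, mem_filter, mem_product, mem_range]
    refine ⟨⟨res_lt hq _, res_lt hq _⟩, (dvd_Hv_res _ _ hq _ _ _).mpr ?_⟩
    change (q : ℤ) ∣ c.H z _ _ _
    rw [h0]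
    exact dvd_zero _
  refine ⟨len _ hπ.p1 hπ.l1 g1, len _ hπ.p2 hπ.l2 g2, _, mem _ hπ.p1.pos, _, mem _ hπ.p2.pos,
    ?_, ?_⟩
  · change c.Mom π z _ (c.cls π (c.ya i)) (c.cls π (c.yb i')) 0 0 ≠ 0
    have hc : c.Con π z (res π.p (c.yc i'')) (c.cls π (c.ya i)) (c.cls π (c.yb i')) i i' := by
      refine ⟨rfl, rfl, (dvd_Hv_res _ _ hπ.p3.pos _ _ _).mpr ?_⟩
      change (π.p : ℤ) ∣ c.H z _ _ _
      rw [h0]
      exact dvd_zero _
    refine ne_of_gt (sum_pos' (fun j _ => sum_nonneg fun j' _ => ?_) ⟨i, mem_range.mpr hi, ?_⟩)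
    · split_ifs <;> simp
    · refine sum_pos' (fun j' _ => ?_) ⟨i', mem_range.mpr hi', ?_⟩
      · split_ifs <;> simp
      · rw [if_pos hc]; simp
  · change c.Acc π z _ (c.cls π (c.ya i)) (c.cls π (c.yb i')) _ = 0
    rw [Cx.Acc_eq]
    refine sum_eq_zero fun j hj => sum_eq_zero fun j' hj' => ?_
    split_ifs with hc
    · exact g3 j (mem_range.mp hj) j' (mem_range.mp hj') hc.1 hc.2.1
        ((dvd_Hv_res _ _ hπ.p3.pos _ _ _).mp hc.2.2)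
    · rfl

end Pool.Agent.P.MP_8f87b2_lc.PL
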