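import Pool.Agent.P.MP_8f87b2_lc.PL.Defs
import Pool.Agent.P.MP_8f87b2_lc.PL.Complete

/-!
# From the specifications to the final statement
-/

namespace Pool.Agent.P.MP_8f87b2_lc.PL

open Finset MeasureTheory

open Classical in
theorem tape_one {k : ℕ} (G : ℕ → Prop) (h : 2 * 2 ^ k ≤ 3 * ((range (2 ^ k)).filter G).card) :
    2 / 3 ≤ tapeLaw {ω | G (bits ω 0 k)} := by
  refine tape_bound (M := 1) (k₁ := k) (k := 0) (nR := 0) rfl (fun r _ => G r) ?_
  rw [pow_zero, mul_one]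
  refine h.trans (Nat.mul_le_mul_left _ (le_of_eq ?_))
  rw [card_filter]
  refine sum_congr rfl fun r _ => ?_
  unfold num
  split_ifs with hr <;> simp [hr]

/-- the terms of the square of a polynomial -/
noncomputable def terms (F : MvPolynomial (Fin 3) ℤ) : List Trm :=
  (F ^ 2).support.toList.map fun m => ⟨m 0, m 1, m 2, (F ^ 2).coeff m, []⟩

theorem Hv_terms (F : MvPolynomial (Fin 3) ℤ) (w : ℕ → ℤ) (x y z : ℤ) :
    Hv w (terms F) x y z = (MvPolynomial.eval ![x, y, z] F) ^ 2 := by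
  rw [← map_pow, MvPolynomial.eval_eq', Hv, tsum, terms, List.map_map, sum_map_toList]
  refine sum_congr rfl fun m _ => ?_
  simp [Trm.co, mon, Fin.prod_univ_three]

theorem terms_deg (F : MvPolynomial (Fin 3) ℤ) : ∀ τ ∈ terms F,
    τ.i + τ.j + τ.k + τ.es.sum < (F ^ 2).totalDegree + 1 ∧ τ.es.length ≤ 0 := by
  intro τ hτ
  obtain ⟨m, hm, rfl⟩ := List.mem_map.mp hτ
  have h := MvPolynomial.le_totalDegree (mem_toList.mp hm)
  rw [Finsupp.sum_fintype _ _ (fun _ => rfl), Fin.sum_univ_three] at h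
  simp only [List.sum_nil, List.length_nil]
  omega

/-- entry number `d`, counted from one -/
def ent (xs : List ℤ) (d : ℕ) : ℤ := if d = 0 then 0 else xs.getD (d - 1) 0

theorem flat_eq (L : Fin 3 → List ℤ) : (List.ofFn L).flatten = L 0 ++ (L 1 ++ L 2) := by
  simp [List.ofFn_succ]

theorem exists_Sz (K : Kc) (n : ℕ) (y : ℕ → ℤ) :
    ∃ c : Cx, c.toKc = K ∧ c.n = n ∧ c.y = y ∧ Sz c := by
  classical
  have ex : ∃ s, K.s0 ≤ s ∧ n < 2 ^ (58032 * s) :=
    ⟨n + K.s0, by omega, lt_of_le_of_lt (by omega) Nat.lt_two_pow_self⟩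
  refine ⟨⟨K, Nat.find ex, n, y⟩, rfl, rfl, rfl, (Nat.find_spec ex).1, (Nat.find_spec ex).2,
    fun i h1 h2 => ?_⟩
  have := Nat.find_min ex h2
  simp only [not_and, not_lt] at this
  exact this h1

theorem mem_iff_getD {l : List ℤ} {n : ℕ} (hl : l.length = n) {x : ℤ} :
    x ∈ l ↔ ∃ i < n, l.getD i 0 = x := by
  subst hl
  constructor
  · intro h
    obtain ⟨i, hi, rfl⟩ := List.getElem_of_mem h
    exact ⟨i, hi, List.getD_eq_getElem _ _ hi⟩
  · rintro ⟨i, hi, rfl⟩
    rw [List.getD_eq_getElem _ _ hi]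
    exact List.getElem_mem hi

theorem decides_of (hMain : SMain) (hwf : ∀ K, (pMain K).wf = true) (hK : SK) (hNm : SNm)
    (hBnd : SBnd) (hTime : STime) (hGood : SGood) (hC : SComplete)
    (F : MvPolynomial (Fin 3) ℤ) (cc : ℕ) : DecidesP F cc (2 - 1 / 30000) := by
  obtain ⟨K, hd, hT, hOK⟩ := hK 0 _ cc (terms F) (Nat.succ_pos _) (terms_deg F)
    fun w x y z => by rw [Hv_terms]; positivity
  obtain ⟨C, hCt⟩ := hTime K cc hOK
  refine ⟨program (pMain K), 20 * K.a * K.s0, ⌈(pMain K).K * C + 4⌉₊, fun n L hv w hw => ?_⟩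
  set xs := (List.ofFn L).flatten with hxs
  have l0 := (hv 0).1
  have l1 := (hv 1).1
  have l2 := (hv 2).1
  have hlen : xs.length = 3 * n := by
    rw [hxs, flat_eq, List.length_append, List.length_append]; omega
  obtain ⟨c, rfl, hn, hy, hS⟩ := exists_Sz K n (ent xs)
  have hd' : c.d = 0 := hd
  have hT' : c.T = terms F := hT
  have hs0 := hOK.hs0
  have hsw : 20 * c.Ab ≤ w := by
    refine le_trans ?_ hw
    rw [Cx.Ab, mul_assoc, mul_assoc]
    refine Nat.mul_le_mul_left _ (Nat.mul_le_mul_left _ ?_)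
    rcases Nat.lt_or_ge c.s0 c.s with h | h
    · have h1 := hS.smin (c.s - 1) (by omega) (by omega)
      have h3 := Nat.le_log_of_pow_le (b := 2) (by norm_num) h1
      rw [hn] at h3
      exact le_trans (by omega) (Nat.le_mul_of_pos_left _ (by omega))
    · exact h.trans (Nat.le_mul_of_pos_right _ (by omega))
  have ea : ∀ i < n, c.ya i = (L 0).getD i 0 := fun i hi => by
    rw [Cx.ya, hy, ent, if_neg (by omega), hxs, flat_eq, Nat.add_sub_cancel,
      List.getD_append _ _ _ _ (by omega)]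
  have eb : ∀ i < n, c.yb i = (L 1).getD i 0 := fun i hi => by
    rw [Cx.yb, hy, ent, if_neg (by omega), hxs, flat_eq, Nat.add_sub_cancel,
      List.getD_append_right _ _ _ _ (by omega), List.getD_append _ _ _ _ (by omega)]
    congr 1; omega
  have ec : ∀ i < n, c.yc i = (L 2).getD i 0 := fun i hi => by
    rw [Cx.yc, hy, ent, if_neg (by omega), hxs, flat_eq, Nat.add_sub_cancel,
      List.getD_append_right _ _ _ _ (by omega), List.getD_append_right _ _ _ _ (by omega)]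
    congr 1; omega
  have eH : ∀ z x y u, c.H z x y u = (MvPolynomial.eval ![x, y, u] F) ^ 2 := fun z x y u => by
    rw [Cx.H, hT', Hv_terms]
  have hyes : c.Yes ↔ IsYesP F L := by
    constructor
    · rintro ⟨z, -, i, hi, i', hi', i'', hi'', h⟩
      rw [hn] at hi hi' hi''
      rw [eH, pow_eq_zero_iff (by norm_num)] at h
      refine ⟨_, fun j => ?_, h⟩
      fin_cases j
      · exact (mem_iff_getD l0).mpr ⟨i, hi, (ea i hi).symm⟩
      · exact (mem_iff_getD l1).mpr ⟨i', hi', (eb i' hi').symm⟩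
      · exact (mem_iff_getD l2).mpr ⟨i'', hi'', (ec i'' hi'').symm⟩
    · rintro ⟨x, hx, h⟩
      obtain ⟨i, hi, e1⟩ := (mem_iff_getD l0).mp (hx 0)
      obtain ⟨i', hi', e2⟩ := (mem_iff_getD l1).mp (hx 1)
      obtain ⟨i'', hi'', e3⟩ := (mem_iff_getD l2).mp (hx 2)
      refine ⟨0, c.NT_pos, i, hn ▸ hi, i', hn ▸ hi', i'', hn ▸ hi'', ?_⟩
      have : ![x 0, x 1, x 2] = x := by funext j; fin_cases j <;> rfl
      rw [eH, ea i hi, eb i' hi', ec i'' hi'', e1, e2, e3, this, h]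
      norm_num
  have hN : Nm c := hNm hOK hS fun d => by
    rw [hy, hn, ent]
    split_ifs
    · rw [abs_zero]; positivity
    · by_cases h : d - 1 < xs.length
      · have hm := List.getElem_mem h
        rw [← List.getD_eq_getElem _ 0 h] at hm
        obtain ⟨l, hl, hm⟩ := List.mem_flatten.mp hm
        obtain ⟨j, rfl⟩ := (List.mem_ofFn' _ _).mp hl
        exact (hv j).2 _ hm
      · rw [List.getD_eq_default _ _ (by omega), abs_zero]; positivity
  have hB : ∀ ω, Bnd c (envOf w (2 ^ (3 * c.Ab)) xs ω) := fun ω =>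
    hBnd hN rfl hsw rfl (by rw [hd', hn, zero_add, ← hlen]; rfl)
      fun d h1 _ => by simp [envOf, start, hy, ent, show d ≠ 0 by omega]
  have hB0 := hB fun _ => false
  have hbig : 200000 * 2 ^ (3 * c.Ab) < 2 ^ w := hB0.big
  have hln : (c.d + 10) * c.n + 1 ≤ 2 ^ (3 * c.Ab) := hB0.ln
  rw [hd', hn] at hln
  have hp : 0 < 2 ^ (3 * c.Ab) := by positivity
  set Q := pMain c.toKc with hQ
  have main : ∀ ω, (program Q).length ≤ (run w (program Q) ω xs (Q.K * c.tAll + 4)).pc ∧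
      c.Out 0 ((run w (program Q) ω xs (Q.K * c.tAll + 4)).reg 0) ∧
      (∀ z < c.NT, c.Hit (c.pr (bits ω 0 c.k1)) z →
        (run w (program Q) ω xs (Q.K * c.tAll + 4)).reg 0 = 1) := by
    intro ω
    obtain ⟨σ', t, hx', h1, h2, h3⟩ := hMain hS (hB ω) (by
      simp only [envOf, start, if_true]
      rw [hd', hn, hlen]
      exact Nat.mod_eq_of_lt (by omega))
    obtain ⟨p1, p2⟩ := program_ok (T := Q.K * c.tAll + 4) (hwf _)
      (by omega) (by omega) hx' (Nat.add_le_add_right (Nat.mul_le_mul_left _ (by omega)) _)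
    rw [p2]
    exact ⟨p1, h1, h2⟩
  refine ⟨Q.K * c.tAll + 4, ?_, fun ω => (main ω).1, ?_⟩
  · have h1 := hCt c rfl hS
    rw [hn, hd, show ((0 : ℕ) : ℚ) + 2 - 1 / 30000 = 2 - 1 / 30000 by norm_num] at h1
    have h2 : (0 : ℝ) ≤ (n : ℝ) ^ ((2 - 1 / 30000 : ℚ) : ℝ) := by positivity
    have h3 := mul_le_mul_of_nonneg_left h1 (Nat.cast_nonneg (α := ℝ) Q.K)
    refine le_trans ?_ (mul_le_mul_of_nonneg_right (Nat.le_ceil _) (by linarith))
    rw [Nat.cast_add, Nat.cast_mul, Nat.cast_ofNat]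
    linarith
  have full : ∀ S : Set (ℕ → Bool), (∀ ω, ω ∈ S) → 2 / 3 ≤ tapeLaw S := fun S hS' => by
    rw [Set.eq_univ_of_forall hS', measure_univ]
    exact ENNReal.div_le_of_le_mul (by norm_num)
  by_cases hy' : IsYesP F L
  · obtain ⟨z, hz, i, hi, i', hi', i'', hi'', h0⟩ := hyes.mpr hy'
    by_cases h1 : c.H z (c.ya 0) (c.yb 0) (c.yc i'') = 0
    · refine full _ fun ω => ?_
      simp [(main ω).2.2 z hz ⟨i'', hi'', Or.inl h1⟩, hy']
    · refine (tape_one (fun r => c.Good z i i' i'' (c.pr r))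
        (by convert hGood hN z i hi i' hi' i'' hi'' h1)).trans (measure_mono fun ω hω => ?_)
      have := hC hN (hN.pr_ok (bits_lt ω 0 c.k1)) z i hi i' hi' i'' hi'' h0 hω
      simp [(main ω).2.2 z hz ⟨i'', hi'', Or.inr this⟩, hy']
  · refine full _ fun ω => ?_
    rcases (main ω).2.1 with h2 | h2
    · simp [h2, hy']
    · exact absurd (hyes.mp h2.2) hy'

end Pool.Agent.P.MP_8f87b2_lc.PL
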