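import Pool.Agent.P.MP_8f87b2_lc.Defs

/-!
# Zeros of a polynomial on a product of integer lists, on the randomized word-RAM

Only the definitions used by the final statement live in this file. The machine (`Instr`, `run`,
`tapeLaw`) is the one of `Pool.Agent.P.MP_8f87b2_lc.Defs`.
-/

namespace Pool.Agent.P.MP_8f87b2_lc.PL

/-- A valid instance: `k` lists, each of `n` integers in `[-n ^ c, n ^ c]` (repetitions are
allowed). -/
def ValidP {k : ℕ} (c n : ℕ) (L : Fin k → List ℤ) : Prop :=
  ∀ i, (L i).length = n ∧ ∀ x ∈ L i, |x| ≤ (n : ℤ) ^ c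

/-- A yes-instance: the polynomial vanishes at some point of the product of the lists. -/
def IsYesP {k : ℕ} (F : MvPolynomial (Fin k) ℤ) (L : Fin k → List ℤ) : Prop :=
  ∃ x : Fin k → ℤ, (∀ i, x i ∈ L i) ∧ MvPolynomial.eval x F = 0

/-- Some randomized word-RAM program decides in time `O(n ^ γ)` whether `F` vanishes somewhere on
the product of `k` given lists of `n` integers in `[-n ^ c, n ^ c]`: there are a program `P` and
constants `K`, `C` such that for every valid instance (given as the concatenation of the lists)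
and every word size `w ≥ K (log₂ n + 1)` there is a step count `t ≤ C (n ^ γ + 1)` such that on
every tape the program has halted after `t` steps, and with probability at least `2 / 3` its
answer (yes iff register `0` is nonzero) is correct. -/
def DecidesP {k : ℕ} (F : MvPolynomial (Fin k) ℤ) (c : ℕ) (γ : ℚ) : Prop :=
  ∃ (P : List Instr) (K C : ℕ), ∀ (n : ℕ) (L : Fin k → List ℤ), ValidP c n L →
    ∀ w : ℕ, K * (Nat.log 2 n + 1) ≤ w →
      ∃ t : ℕ, (t : ℝ) ≤ C * ((n : ℝ) ^ (γ : ℝ) + 1) ∧
        (∀ ω, P.length ≤ (run w P ω (List.ofFn L).flatten t).pc) ∧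
        2 / 3 ≤ tapeLaw {ω | (run w P ω (List.ofFn L).flatten t).reg 0 ≠ 0 ↔ IsYesP F L}

end Pool.Agent.P.MP_8f87b2_lc.PL
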