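import Mathlib

/-!
# Strings of base-65536 digits, coded as natural numbers

The digit `0` plays the role of a blank (a star).
-/

namespace Pool.Agent.P.MP_8f87b2_lc.PL

open Finset

def dig (t p : ℕ) : ℕ := p / 65536 ^ t % 65536

def clr (t p : ℕ) : ℕ := p - dig t p * 65536 ^ t

def enc (l : ℕ) (f : ℕ → ℕ) : ℕ := ∑ t ∈ range l, f t * 65536 ^ t

/-- blank out the digits at the positions in `T` -/
def msk (l : ℕ) (T : Finset ℕ) (p : ℕ) : ℕ := enc l fun t => if t ∈ T then 0 else dig t p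

/-- number of blanks -/
def cnt (l p : ℕ) : ℕ := ((range l).filter fun t => dig t p = 0).card

theorem dig_lt (t p : ℕ) : dig t p < 65536 := Nat.mod_lt _ (by norm_num)

theorem dig_add_mul {t l : ℕ} (h : t < l) (x y : ℕ) : dig t (x + y * 65536 ^ l) = dig t x := by
  obtain ⟨k, rfl⟩ : ∃ k, l = t + 1 + k := ⟨l - t - 1, by omega⟩
  unfold dig
  have : y * 65536 ^ (t + 1 + k) = (y * 65536 ^ k * 65536) * 65536 ^ t := by ring
  rw [this, Nat.add_mul_div_right _ _ (by positivity), Nat.add_mul_mod_self_right]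

theorem dig_top {l x y : ℕ} (hx : x < 65536 ^ l) (hy : y < 65536) :
    dig l (x + y * 65536 ^ l) = y := by
  unfold dig
  rw [Nat.add_mul_div_right _ _ (by positivity), Nat.div_eq_of_lt hx, Nat.zero_add,
    Nat.mod_eq_of_lt hy]

theorem enc_succ (l : ℕ) (f : ℕ → ℕ) : enc (l + 1) f = enc l f + f l * 65536 ^ l := by
  simp [enc, sum_range_succ]

theorem enc_lt {l : ℕ} {f : ℕ → ℕ} (hf : ∀ t < l, f t < 65536) : enc l f < 65536 ^ l := by
  induction l with
  | zero => simp [enc]
  | succ l ih =>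
    have h1 := ih fun t ht => hf t (by omega)
    have h2 := hf l (by omega)
    rw [enc_succ, pow_succ]
    nlinarith

theorem dig_enc {l : ℕ} {f : ℕ → ℕ} (hf : ∀ t < l, f t < 65536) {t : ℕ} (ht : t < l) :
    dig t (enc l f) = f t := by
  induction l with
  | zero => omega
  | succ l ih =>
    rw [enc_succ]
    rcases Nat.lt_succ_iff_lt_or_eq.mp ht with h | h
    · rw [dig_add_mul h, ih (fun t ht => hf t (by omega)) h]
    · subst h
      exact dig_top (enc_lt fun t ht => hf t (by omega)) (hf t (by omega))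

theorem enc_dig_mod (l p : ℕ) : enc l (fun t => dig t p) = p % 65536 ^ l := by
  induction l with
  | zero => simp [enc, Nat.mod_one]
  | succ l ih =>
    rw [enc_succ, ih, pow_succ, Nat.mod_mul, dig, mul_comm]

theorem enc_dig {l p : ℕ} (hp : p < 65536 ^ l) : enc l (fun t => dig t p) = p := by
  rw [enc_dig_mod, Nat.mod_eq_of_lt hp]

theorem enc_congr {l : ℕ} {f g : ℕ → ℕ} (h : ∀ t < l, f t = g t) : enc l f = enc l g :=
  sum_congr rfl fun t ht => by rw [h t (mem_range.mp ht)]

theorem dig_ext {l p p' : ℕ} (hp : p < 65536 ^ l) (hp' : p' < 65536 ^ l)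
    (h : ∀ t < l, dig t p = dig t p') : p = p' := by
  rw [← enc_dig hp, ← enc_dig hp', enc_congr h]

theorem msk_lt (l : ℕ) (T : Finset ℕ) (p : ℕ) : msk l T p < 65536 ^ l :=
  enc_lt fun t _ => by split_ifs; exacts [by norm_num, dig_lt _ _]

theorem dig_msk {l t : ℕ} (ht : t < l) (T : Finset ℕ) (p : ℕ) :
    dig t (msk l T p) = if t ∈ T then 0 else dig t p :=
  dig_enc (f := fun t => if t ∈ T then 0 else dig t p)
    (fun t _ => by split_ifs; exacts [by norm_num, dig_lt _ _]) ht

theorem msk_msk (l : ℕ) (T T' : Finset ℕ) (p : ℕ) :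
    msk l T (msk l T' p) = msk l (T ∪ T') p :=
  enc_congr fun t ht => by
    rw [dig_msk ht]; by_cases h1 : t ∈ T <;> by_cases h2 : t ∈ T' <;> simp [h1, h2]

theorem msk_empty {l p : ℕ} (hp : p < 65536 ^ l) : msk l ∅ p = p := by
  simpa [msk] using enc_dig hp

theorem dig_mul_le (t p : ℕ) : dig t p * 65536 ^ t ≤ p :=
  le_trans (Nat.mul_le_mul_right _ (Nat.mod_le _ _)) (Nat.div_mul_le_self _ _)

theorem clr_eq_msk {l t p : ℕ} (ht : t < l) (hp : p < 65536 ^ l) : clr t p = msk l {t} p := by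
  have h : msk l {t} p + dig t p * 65536 ^ t = p := by
    conv_rhs => rw [← enc_dig hp]
    unfold msk enc
    rw [← add_sum_erase _ _ (mem_range.mpr ht), ← add_sum_erase _ _ (mem_range.mpr ht)]
    simp only [mem_singleton, if_true, zero_mul, zero_add]
    rw [add_comm]
    congr 1
    exact sum_congr rfl fun x hx => by rw [if_neg (ne_of_mem_erase hx)]
  unfold clr; omega

theorem clr_lt {t p : ℕ} (h : dig t p ≠ 0) : clr t p < p := by
  have h1 := dig_mul_le t p
  have h2 : 0 < dig t p * 65536 ^ t := by positivity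
  unfold clr; omega

theorem dig_clr {l t p : ℕ} (ht : t < l) (hp : p < 65536 ^ l) {u : ℕ} (hu : u < l) :
    dig u (clr t p) = if u = t then 0 else dig u p := by
  rw [clr_eq_msk ht hp, dig_msk hu]; simp

theorem dig_shift (t p : ℕ) : (p >>> (16 * t)) &&& 65535 = dig t p := by
  rw [Nat.shiftRight_eq_div_pow, show (65535 : ℕ) = 2 ^ 16 - 1 by norm_num,
    Nat.and_two_pow_sub_one_eq_mod, pow_mul]
  rfl

theorem dig_and (t x y : ℕ) : dig t (x &&& y) = dig t x &&& dig t y := by
  unfold dig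
  rw [show (65536 : ℕ) ^ t = 2 ^ (16 * t) by rw [pow_mul]; norm_num, Nat.and_div_two_pow,
    show (65536 : ℕ) = 2 ^ 16 by norm_num, Nat.and_mod_two_pow]

theorem dig_ones {l t : ℕ} (ht : t < l) : dig t (65536 ^ l - 1) = 65535 := by
  have h : enc l (fun _ => 65535) = 65536 ^ l - 1 := by
    clear ht
    induction l with
    | zero => simp [enc]
    | succ l ih =>
      have : 0 < 65536 ^ l := by positivity
      rw [enc_succ, ih, pow_succ]; omega
  rw [← h, dig_enc (fun _ _ => by norm_num) ht]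

theorem and_msk {l p : ℕ} (hp : p < 65536 ^ l) (T : Finset ℕ) :
    p &&& msk l T (65536 ^ l - 1) = msk l T p := by
  refine dig_ext (lt_of_le_of_lt Nat.and_le_left hp) (msk_lt _ _ _) fun t ht => ?_
  rw [dig_and, dig_msk ht, dig_msk ht, dig_ones ht]
  split_ifs
  · simp
  · rw [show (65535 : ℕ) = 2 ^ 16 - 1 by norm_num, Nat.and_two_pow_sub_one_eq_mod]
    exact Nat.mod_eq_of_lt (dig_lt _ _)

theorem sum_range_mul' {R : Type*} [AddCommMonoid R] (g : ℕ → R) (m n : ℕ) :
    ∑ p ∈ range (m * n), g p = ∑ d ∈ range n, ∑ x ∈ range m, g (x + d * m) := by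
  induction n with
  | zero => simp
  | succ n ih =>
    rw [Nat.mul_succ, sum_range_add, ih, sum_range_succ]
    congr 1
    exact sum_congr rfl fun x _ => by rw [mul_comm, add_comm]

theorem sum_prod_dig {R : Type*} [CommSemiring R] (f : ℕ → ℕ → R) (l : ℕ) :
    ∑ p ∈ range (65536 ^ l), ∏ t ∈ range l, f t (dig t p) =
      ∏ t ∈ range l, ∑ d ∈ range 65536, f t d := by
  induction l with
  | zero => simp
  | succ l ih =>
    rw [pow_succ, sum_range_mul', prod_range_succ, ← ih, mul_sum]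
    refine sum_congr rfl fun d hd => ?_
    rw [sum_mul]
    refine sum_congr rfl fun x hx => ?_
    rw [prod_range_succ, dig_top (mem_range.mp hx) (mem_range.mp hd)]
    congr 1
    exact prod_congr rfl fun t ht => by rw [dig_add_mul (mem_range.mp ht)]

theorem cnt_le (l p : ℕ) : cnt l p ≤ l := by
  simpa [cnt] using card_filter_le (range l) fun t => dig t p = 0

theorem cnt_eq_zero {l p : ℕ} : cnt l p = 0 ↔ ∀ t < l, dig t p ≠ 0 := by
  simp [cnt, filter_eq_empty_iff]

theorem cnt_msk {l j : ℕ} (hj : cnt l j = 0) {T : Finset ℕ} (hT : T ⊆ range l) :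
    cnt l (msk l T j) = T.card := by
  rw [cnt_eq_zero] at hj
  unfold cnt
  congr 1
  ext t
  simp only [mem_filter, mem_range]
  constructor
  · rintro ⟨h1, h2⟩
    rw [dig_msk h1] at h2
    by_contra h
    exact hj t h1 (by simpa [h] using h2)
  · intro h
    have h1 := mem_range.mp (hT h)
    exact ⟨h1, by rw [dig_msk h1, if_pos h]⟩

theorem cnt_clr {l t p : ℕ} (ht : t < l) (hp : p < 65536 ^ l) : cnt l p ≤ cnt l (clr t p) := by
  unfold cnt
  refine card_le_card fun u hu => ?_
  simp only [mem_filter, mem_range] at hu ⊢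
  refine ⟨hu.1, ?_⟩
  rw [dig_clr ht hp hu.1]; simp [hu.2]

end Pool.Agent.P.MP_8f87b2_lc.PL
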