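import Pool.Agent.P.MP_8f87b2_lc.PL.Base

/-!
# The embedding of thin matrix products in digit strings
-/

namespace Pool.Agent.P.MP_8f87b2_lc.PL

open Finset

namespace EmbP

theorem gext (b n : ℕ) : ∀ x y : ℕ, x < b ^ n → y < b ^ n →
    (∀ a < n, x / b ^ a % b = y / b ^ a % b) → x = y := by
  induction n with
  | zero => intro x y hx hy _; simp at hx hy; omega
  | succ n ih =>
    intro x y hx hy h
    have h0 := h 0 (by omega)
    simp only [pow_zero, Nat.div_one] at h0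
    have h1 : x / b = y / b := ih _ _ (Nat.div_lt_of_lt_mul (by rwa [← pow_succ']))
      (Nat.div_lt_of_lt_mul (by rwa [← pow_succ'])) fun a ha => by
        have := h (a + 1) (by omega)
        rwa [pow_succ', ← Nat.div_div_eq_div_mul, ← Nat.div_div_eq_div_mul] at this
    rw [← Nat.div_add_mod x b, ← Nat.div_add_mod y b, h0, h1]

theorem glow {b r a : ℕ} (hb : 0 < b) (h : a < r) (x k : ℕ) :
    (x + b ^ r * k) / b ^ a % b = x / b ^ a % b := by
  obtain ⟨j, rfl⟩ : ∃ j, r = a + 1 + j := ⟨r - a - 1, by omega⟩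
  have : b ^ (a + 1 + j) * k = (k * b ^ j * b) * b ^ a := by ring
  rw [this, Nat.add_mul_div_right _ _ (by positivity), Nat.add_mul_mod_self_right]

theorem ld_low {r a : ℕ} (h : a < r) (x k : ℕ) :
    ld a (x % 32768 ^ r + 32768 ^ r * k) = ld a x := by
  unfold ld
  rw [glow (by norm_num) h]
  conv_rhs => rw [← Nat.mod_add_div x (32768 ^ r), glow (by norm_num) h]

theorem ld_div {r a : ℕ} (h : r ≤ a) (x : ℕ) : ld a x = ld (a - r) (x / 32768 ^ r) := by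
  unfold ld
  rw [Nat.div_div_eq_div_mul, ← pow_add, Nat.add_sub_cancel' h]

theorem ld_high {r a : ℕ} (h : r ≤ a) (x y : ℕ) :
    ld a (x % 32768 ^ r + 32768 ^ r * (y / 32768 ^ r)) = ld a y := by
  have h0 : 0 < 32768 ^ r := by positivity
  rw [ld_div h, ld_div h y, Nat.add_mul_div_left _ _ h0, Nat.div_eq_of_lt (Nat.mod_lt _ h0),
    Nat.zero_add]

theorem bit_compl {m a π : ℕ} (hπ : π < 2 ^ m) (ha : a < m) :
    bit a (2 ^ m - 1 - π) = 0 ↔ bit a π ≠ 0 := by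
  have h := Nat.testBit_two_pow_sub_succ hπ a
  rw [Nat.testBit_eq_decide_div_mod_eq, Nat.testBit_eq_decide_div_mod_eq] at h
  have h1 := bit_lt a π
  have h2 := bit_lt a (2 ^ m - 1 - π)
  rw [show 2 ^ m - (π + 1) = 2 ^ m - 1 - π by omega] at h
  unfold bit at *
  by_cases h3 : π / 2 ^ a % 2 = 1 <;> simp [h3, ha] at h <;> omega

theorem bit_pat {μ a : ℕ} (h : a < 30 * μ) (κ₁ κ₂ β : ℕ) :
    bit a (pat μ κ₁ κ₂ β) = bit a (pat μ κ₁ κ₂ 0) := by
  have e : pat μ κ₁ κ₂ β = pat μ κ₁ κ₂ 0 + 2 ^ (30 * μ) * β := by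
    have : 2 ^ (30 * μ) = 32768 ^ μ * 32768 ^ μ := by rw [pow_mul, ← mul_pow]; norm_num
    unfold pat
    rw [this]; ring
  unfold bit
  rw [e, glow (by norm_num) h]

theorem pat_inj {μ κ₁ κ₂ β κ₁' κ₂' β' : ℕ} (h1 : κ₁ < 32768 ^ μ) (h2 : κ₂ < 32768 ^ μ)
    (h1' : κ₁' < 32768 ^ μ) (h2' : κ₂' < 32768 ^ μ) (h : pat μ κ₁ κ₂ β = pat μ κ₁' κ₂' β') :
    κ₁ = κ₁' ∧ κ₂ = κ₂' ∧ β = β' := by
  have key : ∀ {a b a' b' : ℕ}, a < 32768 ^ μ → a' < 32768 ^ μ →
      a + 32768 ^ μ * b = a' + 32768 ^ μ * b' → a = a' ∧ b = b' := by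
    intro a b a' b' ha ha' e
    have e1 := congrArg (· % 32768 ^ μ) e
    simp only [Nat.add_mul_mod_self_left, Nat.mod_eq_of_lt ha, Nat.mod_eq_of_lt ha'] at e1
    subst e1
    exact ⟨rfl, Nat.eq_of_mul_eq_mul_left (by positivity) (Nat.add_left_cancel e)⟩
  obtain ⟨a1, a2⟩ := key h1 h1' h
  exact ⟨a1, key h2 h2' a2⟩

theorem div_lt {μ L : ℕ} (h : L < 32768 ^ (31 * μ)) : L / 32768 ^ (30 * μ) < 32768 ^ μ :=
  Nat.div_lt_of_lt_mul (by rwa [← pow_add, show 30 * μ + μ = 31 * μ by ring])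

theorem cell_lo {m t : ℕ} (h : t < m) (A B π : ℕ) : cell m A B π t = 0 ↔ bit t π ≠ 0 := by
  unfold cell; rw [if_pos h]; split_ifs <;> omega

theorem cell_hi {m t : ℕ} (h : ¬ t < m) (A B π : ℕ) : cell m A B π t = 0 ↔ bit (t - m) π = 0 := by
  unfold cell; rw [if_neg h]; split_ifs <;> omega

theorem cnt_wd (m A B π : ℕ) : cnt (2 * m) (wd m A B π) = m := by
  unfold cnt
  rw [filter_congr (q := fun t => cell m A B π t = 0) fun t ht => by rw [dig_wd (mem_range.1 ht)],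
    card_filter, two_mul, sum_range_add, ← sum_add_distrib]
  refine (sum_congr rfl fun t ht => ?_).trans (by rw [← card_eq_sum_ones, card_range])
  have h := mem_range.1 ht
  simp only [cell_lo h, cell_hi (show ¬ m + t < m by omega), Nat.add_sub_cancel_left]
  split_ifs <;> simp_all

/-- In each cell exactly one of two complementary strings is blank. -/
theorem cell_xor {m t π : ℕ} (ht : t < 2 * m) (hπ : π < 2 ^ m) (A B A' B' : ℕ) :
    cell m A' B' (2 ^ m - 1 - π) t = 0 ↔ cell m A B π t ≠ 0 := by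
  by_cases h : t < m
  · rw [Ne, cell_lo h, cell_lo h, Ne, bit_compl hπ h]
  · rw [Ne, cell_hi h, cell_hi h, bit_compl hπ (by omega)]

/-- the letters of the output string -/
def oc (μ L L' t : ℕ) : ℕ :=
  if t < 31 * μ then
    (if t < 30 * μ ∧ bit t (pat μ (L / 32768 ^ (30 * μ)) (L' / 32768 ^ (30 * μ)) 0) ≠ 0
      then ld t L' else ld t L)
  else
    (if t - 31 * μ < 30 * μ ∧
        bit (t - 31 * μ) (pat μ (L / 32768 ^ (30 * μ)) (L' / 32768 ^ (30 * μ)) 0) ≠ 0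
      then ld (t - 31 * μ) L else ld (t - 31 * μ) L')

theorem oc_lt (μ L L' t : ℕ) : oc μ L L' t < 32768 := by
  unfold oc; split_ifs <;> exact ld_lt _ _

variable {μ L L' β t : ℕ}

theorem dig_sum (hL : L < 32768 ^ (31 * μ)) (hL' : L' < 32768 ^ (31 * μ)) (hβ : β < 2 ^ μ)
    (ht : t < 2 * (31 * μ)) :
    dig t (uX μ L (L' / 32768 ^ (30 * μ)) β) + dig t (vY μ L' (L / 32768 ^ (30 * μ)) β) =
      32768 + oc μ L L' t := by
  have hπ := pat_lt (div_lt hL) (div_lt hL') hβ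
  unfold uX vY
  rw [dig_wd ht, dig_wd ht]
  unfold cell oc
  by_cases h : t < 31 * μ
  · simp only [if_pos h, bit_compl hπ h]
    by_cases h1 : t < 30 * μ
    · rw [bit_pat h1, ld_low h1]
      split_ifs <;> simp_all
    · rw [ld_high (not_lt.1 h1)]
      split_ifs <;> simp_all
  · simp only [if_neg h, bit_compl hπ (show t - 31 * μ < 31 * μ by omega)]
    by_cases h1 : t - 31 * μ < 30 * μ
    · rw [bit_pat h1, ld_low h1]
      split_ifs <;> simp_all
    · rw [ld_high (not_lt.1 h1)]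
      split_ifs <;> simp_all

theorem eO_eq (hL : L < 32768 ^ (31 * μ)) (hL' : L' < 32768 ^ (31 * μ)) :
    eO μ L L' = enc (2 * (31 * μ)) fun t => 32768 + oc μ L L' t := by
  rw [← enc_congr fun t ht => dig_sum hL hL' (β := 0) (by positivity) ht]
  unfold eO
  conv_lhs => rw [← enc_dig (l := 2 * (31 * μ)) (p := uX _ _ _ _) (wd_lt _ _ _ _),
    ← enc_dig (l := 2 * (31 * μ)) (p := vY _ _ _ _) (wd_lt _ _ _ _)]
  unfold enc
  rw [← sum_add_distrib]
  exact sum_congr rfl fun t _ => by rw [add_mul]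

theorem dig_eO (hL : L < 32768 ^ (31 * μ)) (hL' : L' < 32768 ^ (31 * μ))
    (ht : t < 2 * (31 * μ)) : dig t (eO μ L L') = 32768 + oc μ L L' t := by
  rw [eO_eq hL hL']
  exact dig_enc (f := fun t => 32768 + oc μ L L' t)
    (fun t _ => by have := oc_lt μ L L' t; omega) ht

theorem oc_inj {L₁ L₂ : ℕ} (hL : L < 32768 ^ (31 * μ)) (hL' : L' < 32768 ^ (31 * μ))
    (h1 : L₁ < 32768 ^ (31 * μ)) (h2 : L₂ < 32768 ^ (31 * μ))
    (h : ∀ t < 2 * (31 * μ), oc μ L₁ L₂ t = oc μ L L' t) : L₁ = L ∧ L₂ = L' := by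
  have hi : ∀ a < 31 * μ, ¬ a < 30 * μ → ld a L₁ = ld a L ∧ ld a L₂ = ld a L' := by
    intro a ha hb
    have a1 := h a (by omega)
    have a2 := h (31 * μ + a) (by omega)
    unfold oc at a1 a2
    simp only [ha, hb, show ¬ 31 * μ + a < 31 * μ by omega, Nat.add_sub_cancel_left, if_true,
      if_false, false_and] at a1 a2
    exact ⟨a1, a2⟩
  have d : ∀ {x y : ℕ}, x < 32768 ^ (31 * μ) → y < 32768 ^ (31 * μ) →
      (∀ a < 31 * μ, ¬ a < 30 * μ → ld a x = ld a y) →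
      x / 32768 ^ (30 * μ) = y / 32768 ^ (30 * μ) := by
    intro x y hx hy hh
    refine gext 32768 μ _ _ (div_lt hx) (div_lt hy) fun a ha => ?_
    have := hh (30 * μ + a) (by omega) (by omega)
    rwa [ld_div (r := 30 * μ) (by omega), ld_div (r := 30 * μ) (by omega) y,
      Nat.add_sub_cancel_left] at this
  have d1 := d h1 hL fun a ha hb => (hi a ha hb).1
  have d2 := d h2 hL' fun a ha hb => (hi a ha hb).2
  have al : ∀ a < 31 * μ, ld a L₁ = ld a L ∧ ld a L₂ = ld a L' := by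
    intro a ha
    by_cases hb : a < 30 * μ
    · have a1 := h a (by omega)
      have a2 := h (31 * μ + a) (by omega)
      unfold oc at a1 a2
      simp only [ha, hb, show ¬ 31 * μ + a < 31 * μ by omega, Nat.add_sub_cancel_left, if_true,
        if_false, true_and, d1, d2] at a1 a2
      split_ifs at a1 a2
      exacts [⟨a2, a1⟩, ⟨a1, a2⟩]
    · exact hi a ha hb
  exact ⟨gext _ _ _ _ h1 hL fun a ha => (al a ha).1, gext _ _ _ _ h2 hL' fun a ha => (al a ha).2⟩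

theorem forced {l e u : ℕ} {S : Finset ℕ} (he : ∀ t < l, dig t e ≠ 0) (hS : S ⊆ range l)
    (h : msk l S e = u) : S = (range l).filter fun t => dig t u = 0 := by
  ext t
  rw [mem_filter, ← h]
  refine ⟨fun ht => ⟨hS ht, by rw [dig_msk (mem_range.1 (hS ht)), if_pos ht]⟩, fun ⟨a, b⟩ => ?_⟩
  rw [dig_msk (mem_range.1 a)] at b
  by_contra hn
  rw [if_neg hn] at b
  exact he t (mem_range.1 a) b

theorem only {L₁ L₂ κ₁ κ₂ β' : ℕ} {S : Finset ℕ} (hL : L < 32768 ^ (31 * μ))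
    (hL' : L' < 32768 ^ (31 * μ)) (h1 : L₁ < 32768 ^ (31 * μ)) (h2 : L₂ < 32768 ^ (31 * μ))
    (k1 : κ₁ < 32768 ^ μ) (k2 : κ₂ < 32768 ^ μ) (hβ : β < 2 ^ μ) (hβ' : β' < 2 ^ μ)
    (a : msk (2 * (31 * μ)) S (eO μ L L') = uX μ L₁ κ₂ β)
    (b : msk (2 * (31 * μ)) (range (2 * (31 * μ)) \ S) (eO μ L L') = vY μ L₂ κ₁ β') :
    L₁ = L ∧ L₂ = L' ∧ κ₁ = L / 32768 ^ (30 * μ) ∧ κ₂ = L' / 32768 ^ (30 * μ) ∧ β = β' := by
  have s : ∀ t < 2 * (31 * μ), dig t (uX μ L₁ κ₂ β) + dig t (vY μ L₂ κ₁ β') = 32768 + oc μ L L' t ∧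
      (dig t (vY μ L₂ κ₁ β') = 0 ↔ dig t (uX μ L₁ κ₂ β) ≠ 0) := by
    intro t ht
    rw [← a, ← b, dig_msk ht, dig_msk ht, dig_eO hL hL' ht]
    by_cases h : t ∈ S <;> simp [h, ht]
  have p1 := pat_lt (div_lt h1) k2 hβ
  have p2 := pat_lt k1 (div_lt h2) hβ'
  have e : pat μ (L₁ / 32768 ^ (30 * μ)) κ₂ β = pat μ κ₁ (L₂ / 32768 ^ (30 * μ)) β' := by
    refine gext 2 _ _ _ p1 p2 fun t ht => ?_
    have := (s t (by omega)).2
    unfold uX vY at this
    rw [dig_wd (by omega), dig_wd (by omega), Ne, cell_lo ht, cell_lo ht, Ne, bit_compl p2 ht]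
      at this
    have b1 := bit_lt t (pat μ (L₁ / 32768 ^ (30 * μ)) κ₂ β)
    have b2 := bit_lt t (pat μ κ₁ (L₂ / 32768 ^ (30 * μ)) β')
    change bit t _ = bit t _
    omega
  obtain ⟨rfl, rfl, rfl⟩ := pat_inj (div_lt h1) k2 k1 (div_lt h2) e
  obtain ⟨rfl, rfl⟩ := oc_inj hL hL' h1 h2 fun t ht =>
    Nat.add_left_cancel ((dig_sum h1 h2 hβ ht).symm.trans (s t ht).1)
  exact ⟨rfl, rfl, rfl, rfl, rfl⟩

end EmbP

open EmbP in
theorem sEmb : SEmb := by
  intro μ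
  rw [show 62 * μ = 2 * (31 * μ) by ring]
  refine ⟨fun L κ β => cnt_wd _ _ _ _, fun L κ β => cnt_wd _ _ _ _, fun L hL L' hL' => ?_⟩
  have he : ∀ t < 2 * (31 * μ), dig t (eO μ L L') ≠ 0 := fun t ht => by
    rw [dig_eO hL hL' ht]; omega
  refine ⟨?_, cnt_eq_zero.2 he, ?_, fun L₁ h1 L₂ h2 κ₁ k1 κ₂ k2 β hβ β' hβ' => ?_⟩
  · rw [eO_eq hL hL']
    exact enc_lt fun t _ => by have := oc_lt μ L L' t; omega
  · unfold inv
    rw [card_eq_zero, filter_eq_empty_iff]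
    intro t ht
    rw [dig_eO hL hL' (mem_range.1 ht)]
    omega
  split_ifs with h
  · obtain ⟨rfl, rfl, rfl, rfl, rfl⟩ := h
    have x : ∀ t < 2 * (31 * μ), dig t (vY μ L₂ (L₁ / 32768 ^ (30 * μ)) β) = 0 ↔
        dig t (uX μ L₁ (L₂ / 32768 ^ (30 * μ)) β) ≠ 0 := fun t ht => by
      unfold uX vY
      rw [dig_wd ht, dig_wd ht]
      exact cell_xor ht (pat_lt k1 k2 hβ) _ _ _ _
    refine card_eq_one.2 ⟨(range (2 * (31 * μ))).filter
      fun t => dig t (uX μ L₁ (L₂ / 32768 ^ (30 * μ)) β) = 0, eq_singleton_iff_unique_mem.2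
      ⟨mem_filter.2 ⟨mem_powersetCard.2 ⟨filter_subset _ _, cnt_wd _ _ _ _⟩, ?_, ?_⟩,
        fun S hS => forced he (mem_powersetCard.1 (mem_filter.1 hS).1).1 (mem_filter.1 hS).2.1⟩⟩
    · refine dig_ext (msk_lt _ _ _) (wd_lt _ _ _ _) fun t ht => ?_
      rw [dig_msk ht, dig_eO hL hL' ht, ← dig_sum hL hL' hβ ht]
      have := x t ht
      simp only [mem_filter, mem_range, ht, true_and]
      split_ifs <;> omega
    · refine dig_ext (msk_lt _ _ _) (wd_lt _ _ _ _) fun t ht => ?_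
      rw [dig_msk ht, dig_eO hL hL' ht, ← dig_sum hL hL' hβ ht]
      have := x t ht
      simp only [mem_sdiff, mem_filter, mem_range, ht, true_and]
      split_ifs <;> omega
  · rw [card_eq_zero, filter_eq_empty_iff]
    exact fun S _ hS => h (only hL hL' h1 h2 k1 k2 hβ hβ' hS.1 hS.2)

end Pool.Agent.P.MP_8f87b2_lc.PL
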