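import Pool.Agent.P.MP_8f87b2_lc.PL.Spec

/-!
# The expressions that depend on the polynomial
-/

namespace Pool.Agent.P.MP_8f87b2_lc.PL

open Finset

namespace ExpP

variable {E : Env} {σ : St}

/-- the expression is safe and its value represents the integer `x` -/
def Ev (E : Env) (σ : St) (e : Expr) (x : ℤ) : Prop :=
  e.safe E σ ∧ ((e.eval E σ : ℕ) : ZMod E.W) = (x : ℤ)

theorem ev_c {n : ℕ} (h : n < E.W) : Ev E σ (.c n) n := ⟨h, by simp [Expr.eval]⟩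

theorem ev_v {x : ℕ} {a : ℤ} (h : (σ.var x : ZMod E.W) = a) : Ev E σ (.v x) a := ⟨trivial, h⟩

theorem ev_rmul {a b : Expr} {x y : ℤ} (ha : Ev E σ a x) (hb : Ev E σ b y) :
    Ev E σ (rmul a b) (x * y) := by
  refine ⟨⟨ha.1, hb.1, trivial⟩, ?_⟩
  simp only [Expr.eval, BOp.eval]
  rw [cast_rmul, ha.2, hb.2]; push_cast; rfl

theorem ev_radd {a b : Expr} {x y : ℤ} (ha : Ev E σ a x) (hb : Ev E σ b y) :
    Ev E σ (radd a b) (x + y) := by
  refine ⟨⟨ha.1, hb.1, trivial⟩, ?_⟩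
  simp only [Expr.eval, BOp.eval]
  rw [cast_radd, ha.2, hb.2]; push_cast; rfl

theorem ev_rsub (hW : 0 < E.W) {a b : Expr} {x y : ℤ} (ha : Ev E σ a x) (hb : Ev E σ b y) :
    Ev E σ (rsub a b) (x - y) := by
  refine ⟨⟨ha.1, hb.1, trivial⟩, ?_⟩
  simp only [Expr.eval, BOp.eval]
  rw [cast_rsub hW, ha.2, hb.2]; push_cast; rfl

theorem ev_epow (hW : 1 < E.W) {a : Expr} {x : ℤ} (ha : Ev E σ a x) :
    ∀ e : ℕ, Ev E σ (epow a e) (x ^ e)
  | 0 => by simpa [epow] using (ev_c (σ := σ) hW)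
  | e + 1 => by
    rw [pow_succ]
    exact ev_rmul (ev_epow hW ha e) ha

theorem ev_emon (hW : 1 < E.W) {d : ℕ} {w : ℕ → ℤ} (hd : d ≤ E.Lim) (hL : E.Lim < E.W)
    (h6 : ∀ t < d, (σ.bank 6 t : ZMod E.W) = (w t : ℤ)) :
    ∀ (es : List ℕ) (t : ℕ), t + es.length ≤ d → Ev E σ (emon es t) (mon w es t)
  | [], _, _ => by simpa [emon, mon] using (ev_c (σ := σ) hW)
  | e :: es, t, h => by
    rw [List.length_cons] at h
    refine ev_rmul (ev_epow hW (a := .ld 6 (.c t)) (x := w t) ⟨⟨?_, ?_⟩, ?_⟩ e)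
      (ev_emon hW hd hL h6 es (t + 1) (by omega))
    · show t < E.W
      omega
    · show t < E.Lim
      omega
    · exact h6 t (by omega)

theorem ev_ecoef (hW : 1 < E.W) {d : ℕ} {w : ℕ → ℤ} (hd : d ≤ E.Lim) (hL : E.Lim < E.W)
    (h6 : ∀ t < d, (σ.bank 6 t : ZMod E.W) = (w t : ℤ)) {τ : Trm} (h1 : τ.es.length ≤ d)
    (h2 : τ.h.natAbs < E.W) : Ev E σ (ecoef τ) (τ.co w) := by
  have e : τ.h = (τ.h.toNat : ℤ) - ((-τ.h).toNat : ℤ) := by omega
  unfold ecoef Trm.co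
  refine ev_rmul ?_ (ev_emon hW hd hL h6 τ.es 0 (by omega))
  have := ev_rsub (σ := σ) (by omega : 0 < E.W) (ev_c (n := τ.h.toNat) (by omega))
    (ev_c (n := (-τ.h).toNat) (by omega))
  rwa [← e] at this

theorem ev_esum (hW : 1 < E.W) {d : ℕ} {w : ℕ → ℤ} (hd : d ≤ E.Lim) (hL : E.Lim < E.W)
    (h6 : ∀ t < d, (σ.bank 6 t : ZMod E.W) = (w t : ℤ)) {f : Trm → Expr} {g : Trm → ℤ} :
    ∀ T : List Trm, (∀ τ ∈ T, τ.es.length ≤ d ∧ τ.h.natAbs < E.W ∧ Ev E σ (f τ) (g τ)) →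
      Ev E σ (esum f T) (tsum w T g)
  | [], _ => by simpa [esum, tsum_nil] using (ev_c (σ := σ) (n := 0) (by omega))
  | τ :: T, h => by
    obtain ⟨h1, h2, h3⟩ := h τ List.mem_cons_self
    rw [tsum_cons]
    exact ev_radd (ev_rmul (ev_ecoef hW hd hL h6 h1 h2) h3)
      (ev_esum hW hd hL h6 T fun τ' hτ' => h τ' (List.mem_cons_of_mem _ hτ'))

theorem esum_lt (hW : 0 < E.W) (f : Trm → Expr) : ∀ T : List Trm, (esum f T).eval E σ < E.W
  | [] => hW
  | _ :: _ => Nat.mod_lt _ hW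

theorem epow_wf {a : Expr} (ha : a.wf = true) : ∀ e : ℕ, (epow a e).wf = true
  | 0 => rfl
  | e + 1 => by simp [epow, Expr.wf, epow_wf ha e, ha]

theorem emon_wf : ∀ (es : List ℕ) (t : ℕ), (emon es t).wf = true
  | [], _ => rfl
  | e :: es, t => by
    have h : (Expr.ld 6 (.c t)).wf = true := rfl
    simp [emon, Expr.wf, epow_wf h e, emon_wf es (t + 1)]

theorem esum_wf {f : Trm → Expr} (hf : ∀ τ, (f τ).wf = true) :
    ∀ T : List Trm, (esum f T).wf = true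
  | [] => rfl
  | τ :: T => by simp [esum, ecoef, Expr.wf, emon_wf, hf τ, esum_wf hf T]

/-- a natural number below `W` that represents an integer in `[0, W)` equals it -/
theorem eq_of_cast {W a : ℕ} {x : ℤ} (ha : a < W) (h0 : 0 ≤ x) (h1 : x < W)
    (h : (a : ZMod W) = (x : ℤ)) : (a : ℤ) = x := by
  rw [← Int.cast_natCast, ZMod.intCast_eq_intCast_iff] at h
  have h2 : (a : ℤ) % W = x % W := h
  rwa [Int.emod_eq_of_lt (by positivity) (by exact_mod_cast ha), Int.emod_eq_of_lt h0 h1] at h2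

theorem sizes {c : Cx} (hB : Bnd c E) : 1 < E.W ∧ c.d ≤ E.Lim ∧ E.Lim < E.W ∧
    100 * c.Ab ≤ E.Lim ∧ 2 ^ c.Ab ≤ E.Lim := by
  have h1 := hB.big
  have h2 := hB.lAb
  have h3 := hB.lT
  have h4 := hB.nm.dA
  have h5 : 0 < 2 ^ c.Ab := by positivity
  omega

end ExpP

open ExpP

theorem eH_wf (T : List Trm) : (eH T).wf = true :=
  esum_wf (fun τ => by
    have h : ∀ x, (Expr.v x).wf = true := fun _ => rfl
    simp [Expr.wf, epow_wf (h _)]) T

theorem eAcc_wf (T : List Trm) : (eAcc T).wf = true :=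
  esum_wf (fun τ => by
    have h : ∀ x, (Expr.v x).wf = true := fun _ => rfl
    simp [Expr.wf, epow_wf (h _)]) T

theorem sH : SH := by
  intro E c hB σ t π z hT x y u hx hy hu bx by' bu
  obtain ⟨hW, hd, hL, hA, h2⟩ := sizes hB
  have hev : ExpP.Ev E σ (eH c.T) (c.H z x y u) := by
    refine ev_esum hW hd hL hT.b6 c.T fun τ hτ => ?_
    obtain ⟨-, -, h3, h4⟩ := hB.nm.hT τ hτ
    exact ⟨h3, by omega, ev_rmul (ev_rmul (ev_epow hW (ev_v hx) _) (ev_epow hW (ev_v hy) _))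
      (ev_epow hW (ev_v hu) _)⟩
  obtain ⟨p0, p1⟩ := hB.nm.hH z x y u bx by' bu
  unfold pH
  rw [wp_set]
  refine ⟨hev.1, ?_, le_rfl⟩
  rw [St.setv_var, if_pos rfl]
  refine eq_of_cast (esum_lt (by omega) _ _) p0 (p1.trans_le ?_) hev.2
  exact_mod_cast (h2.trans hL.le)

theorem sDiv (h : SMod) : SDiv := by
  intro E c hB σ t π z hT x y u q hx hy hu hq bx by' bu q0 qP
  have hPV := hB.nm.PV
  have ab : ∀ a : ℕ, a ≤ c.P → |(a : ℤ)| ≤ c.V := fun a ha => by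
    rw [abs_of_nonneg (by positivity)]
    exact_mod_cast ha.trans hPV
  obtain ⟨p0, p1⟩ := hB.nm.hH z x y u (ab x bx) (ab y by') (ab u bu)
  unfold pDiv
  rw [wp_blk_cons]
  refine (sH hB hT (x := x) (y := y) (u := u) (by simp [hx]) (by simp [hy]) (by simp [hu])
    (ab x bx) (ab y by') (ab u bu)).call [60] [] false
    (by decide : (pH []).Within [60] [] false) ?_
  rintro σ₁ t₁ hF₁ ⟨h60, ht₁⟩
  have hlt : σ₁.var 60 < 2 ^ c.Ab := by
    rw [← h60] at p1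
    exact_mod_cast p1
  rw [wp_blk_cons]
  refine (h hB (hT.pre.par.frame hF₁ (by decide)) rfl ((hF₁.var 61 (by decide)).trans hq) hlt q0
    qP).mono ?_
  rintro σ₂ t₂ ⟨h62, ht₂⟩
  rw [wp_blk_nil, h62, ← h60, Int.natCast_dvd_natCast, Nat.dvd_iff_mod_eq_zero]
  refine ⟨Iff.rfl, ?_⟩
  unfold Cx.tDiv
  omega

theorem sAccE : SAccE := by
  intro E c hB σ π z hT u M hu hM
  obtain ⟨hW, hd, hL, hA, h2⟩ := sizes hB
  have hev : ExpP.Ev E σ (eAcc c.T) (tsum (c.wz z) c.T fun τ => u ^ τ.k * M τ.i τ.j) := by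
    refine ev_esum hW hd hL hT.b6 c.T fun τ hτ => ?_
    obtain ⟨h1, h2, h3, h4⟩ := hB.nm.hT τ hτ
    have h5 := mul_add_lt h1 h2
    have h6 := hB.nm.eA
    refine ⟨h3, by omega, ev_rmul (ev_epow hW (ev_v hu) _) ⟨?_, ?_⟩⟩
    · simp only [Expr.safe, Expr.eval, BOp.safe, BOp.eval, hT.pre.par.e, true_and]
      omega
    · simp only [Expr.eval, BOp.eval, hT.pre.par.e]
      exact hM _ h1 _ h2
  exact ⟨hev.1, esum_lt (by omega) _ _, hev.2⟩

theorem sPre : SPre := by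
  intro E c hB σ t π z hT
  obtain ⟨hW, hd, hL, hA, h2⟩ := sizes hB
  have hn := hT.pre.n0
  have hP := hT.pre.par
  have hn1 := hB.n1
  have hln := hB.ln
  have e1 : (c.d + 3) * c.n = c.d * c.n + 3 * c.n := by ring
  have e2 : (c.d + 10) * c.n = c.d * c.n + 10 * c.n := by ring
  have hin : ∀ a, 1 ≤ a → a ≤ 3 * c.n → ((E.inp a : ℕ) : ZMod E.W) = (c.y a : ℤ) :=
    fun a h1 h2 => by rw [hB.inp a h1 (by omega), cast_inp (by omega)]
  unfold pPre
  simp only [wp_blk_cons, wp_set, Expr.safe, Expr.eval, BOp.safe, BOp.eval, St.setv_var, hP.n,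
    Nat.reduceEqDiff, if_false, true_and]
  refine ⟨by omega, by omega, ?_⟩
  set σ₁ := (σ.setv 64 (E.inp 1)).setv 65 (E.inp (c.n + 1)) with hσ₁
  have hF₁ : Frame [64, 65] [] false σ σ₁ :=
    ((Frame.refl _ _ _ σ₁).of_setv (by decide)).of_setv (by decide)
  have hT₁ := hT.frame hF₁ (by decide) (by decide)
  have h0 : σ₁.var 0 = σ.var 0 := hF₁.var 0 (by decide)
  refine wp_for (i := 33) (n := 1) c.n 4 (fun k σ' => c.Out (σ.var 0) (σ'.var 0) ∧
      ∀ i < k, c.H z (c.ya 0) (c.yb 0) (c.yc i) = 0 → σ'.var 0 = 1) [66, 60, 0] [] false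
    ?_ (by decide) (by decide) (by decide) hT₁.pre.par.n (by omega) hW
    ⟨by simp [h0, Cx.Out.refl], fun i hi => absurd hi (Nat.not_lt_zero _)⟩ ?_ ?_
  · exact (by decide : (blk [.set 66 (.inp (eadd (eadd (edbl 1) (.v 33)) (.c 1))), pH [],
      .ite (.v 60) .skip (.set 0 (.c 1))]).Within [66, 60, 0] [] false)
  · rintro k σ₂ t₂ hk hF₂ h33 ⟨hO, hI⟩
    have hT₂ := hT₁.frame hF₂ (by decide) (by decide)
    have h64 : σ₂.var 64 = E.inp 1 := by rw [hF₂.var 64 (by decide)]; simp [hσ₁]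
    have h65 : σ₂.var 65 = E.inp (c.n + 1) := by rw [hF₂.var 65 (by decide)]; simp [hσ₁]
    rw [wp_blk_cons, wp_set]
    simp only [Expr.safe, Expr.eval, BOp.safe, BOp.eval, hT₂.pre.par.n, h33, true_and]
    refine ⟨by omega, ?_⟩
    rw [wp_blk_cons]
    have hF₃ := frame_setv σ₂ 66 (E.inp (c.n + c.n + k + 1))
    refine (sH hB (hT₂.frame hF₃ (by decide) (by decide)) (x := c.ya 0) (y := c.yb 0)
      (u := c.yc k) ?_ ?_ ?_ (hB.nm.yV _) (hB.nm.yV _) (hB.nm.yV _)).call [60] [] false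
      (by decide : (pH []).Within [60] [] false) ?_
    · rw [hF₃.var 64 (by decide), h64]; exact hin 1 le_rfl (by omega)
    · rw [hF₃.var 65 (by decide), h65]; exact hin (c.n + 1) (by omega) (by omega)
    · rw [St.setv_var, if_pos rfl]; exact hin _ (by omega) (by omega)
    rintro σ₄ t₄ hF₄ ⟨h60, ht₄⟩
    have e0 : σ₄.var 0 = σ₂.var 0 := (hF₄.var 0 (by decide)).trans (hF₃.var 0 (by decide))
    simp only [wp_blk_cons, wp_blk_nil, wp_ite, wp_skip, wp_set, Expr.safe, Expr.eval,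
      St.setv_var, Nat.reduceEqDiff, if_false, if_true, true_and, e0]
    refine ⟨fun h => ⟨⟨hO, fun i hi hz => ?_⟩, by omega⟩, fun h => ⟨hW, ⟨Or.inr ⟨rfl, ?_⟩,
      fun _ _ _ => trivial⟩, by omega⟩⟩
    · rcases Nat.lt_succ_iff_lt_or_eq.mp hi with hi | rfl
      · exact hI i hi hz
      · rw [hz] at h60
        exact absurd (by exact_mod_cast h60) h
    · refine ⟨z, hT.hz, 0, hn, 0, hn, k, hk, ?_⟩
      rw [← h60, h]; rfl
  · rintro σ₂ t₂ - ⟨hO, hI⟩ ht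
    rw [wp_blk_nil]
    exact ⟨hO, hI, by omega⟩

end Pool.Agent.P.MP_8f87b2_lc.PL
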