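import Pool.Agent.P.MP_8f87b2_lc.PL.Spec

/-!
# Filling the tables
-/

namespace Pool.Agent.P.MP_8f87b2_lc.PL

open Finset

namespace FillP

variable {E : Env} {c : Cx}

/-- the tables hold `B` -/
def Hold (E : Env) (c : Cx) (B : ℕ → ℤ) (σ : St) : Prop :=
  ∀ a < 2 * c.GE * c.A, (σ.bank 13 a : ZMod E.W) = (B a : ℤ)

theorem K1_le (c : Cx) : c.K1 ≤ c.NG := by
  rw [c.NG_mul]; exact Nat.le_mul_of_pos_left _ c.N1_pos

theorem N1_le (c : Cx) : c.N1 ≤ c.NG := by
  rw [c.NG_mul]; exact Nat.le_mul_of_pos_right _ c.K1_pos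

theorem loopK (h : SPut) (hB : Bnd c E) {σ : St} {t a : ℕ} {e1 e2 : Expr} (hP : Par c σ)
    (ha : a = 70 ∨ a = 71) {g : ℕ} {x : ℤ} {B : ℕ → ℤ} {u : ℕ → ℕ} (h45 : σ.var 45 = g)
    (hg : g + c.e ≤ 2 * c.GE) (h46 : (σ.var 46 : ZMod E.W) = x) (hb : Hold E c B σ)
    (he : ∀ κ < c.K1, ∀ σ', Frame [51, a, 72, 73, 44, 37, 47, 48, 49] [13] false σ σ' →
      σ'.var 51 = κ → e1.safe E σ' ∧ e2.safe E (σ'.setv a (e1.eval E σ')) ∧
        wd c.m ((σ'.setv a (e1.eval E σ')).var 70) ((σ'.setv a (e1.eval E σ')).var 71)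
          (e2.eval E (σ'.setv a (e1.eval E σ'))) = u κ) :
    WP E (forL 51 18 (blk [.set a e1, .set 72 e2, pPut])) (fun σ' t' =>
      Hold E c (fun ad => B ad + ∑ κ ∈ range c.K1, c.put g (u κ) x ad) σ' ∧
        t' ≤ t + (c.K1 * (c.tPut + 4) + 2)) σ t := by
  have hbig := hB.big
  have h1 := hB.lNG
  have h2 := K1_le c
  have h3 := c.K1_pos
  refine wp_for c.K1 (c.tPut + 2)
    (fun k σ' => Hold E c (fun ad => B ad + ∑ κ ∈ range k, c.put g (u κ) x ad) σ')
    [a, 72, 73, 44, 37, 47, 48, 49] [13] false ?_ (by rcases ha with rfl | rfl <;> decide)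
    (by rcases ha with rfl | rfl <;> decide) (by decide) hP.K1 (by omega) (by omega)
    (by simpa [Hold] using hb) ?_ fun σ' t' _ hI ht => ⟨hI, ht⟩
  · rcases ha with rfl | rfl
    · change (blk [.set 70 (.c 0), .set 72 (.c 0), pPut]).Within _ _ _
      decide
    · change (blk [.set 71 (.c 0), .set 72 (.c 0), pPut]).Within _ _ _
      decide
  intro κ σ₁ t₁ hκ hF h51 hI
  obtain ⟨s1, s2, s3⟩ := he κ hκ σ₁ hF h51
  simp only [wp_blk_cons, wp_set, wp_blk_nil]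
  refine ⟨s1, s2, ?_⟩
  have hF₂ : Frame [51, a, 72, 73, 44, 37, 47, 48, 49] [13] false σ
      ((σ₁.setv a (e1.eval E σ₁)).setv 72 (e2.eval E (σ₁.setv a (e1.eval E σ₁)))) :=
    hF.trans (((Frame.refl _ _ _ _).of_setv (by simp)).of_setv (by simp))
  refine (h hB (hP.frame hF₂ (by rcases ha with rfl | rfl <;> decide)) (g := g) (u := u κ) (x := x)
    ((hF₂.var 45 (by rcases ha with rfl | rfl <;> decide)).trans h45) hg
    (by rw [hF₂.var 46 (by rcases ha with rfl | rfl <;> decide)]; exact h46)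
    (by rw [← s3]; simp) hI).mono fun σ' t' ⟨q1, q2⟩ => ⟨fun ad had => ?_, by omega⟩
  simp only [St.setv_bank, q1 ad had, sum_range_succ, add_assoc]

theorem grp_le {π : Pr} (h : π.OK c) (x : ℤ) :
    c.cls π x / c.NG * c.e + c.e ≤ c.GE := by
  rw [← Nat.succ_mul]
  exact Nat.mul_le_mul_right _ (c.div_NG_lt (h.cls_lt x))

theorem GE_le (hB : Bnd c E) : 2 * c.GE ≤ E.Lim :=
  (Nat.le_mul_of_pos_right _ c.A_pos).trans hB.lGA

theorem PP_le (hB : Bnd c E) : c.P * c.P ≤ E.Lim :=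
  (Nat.le_mul_of_pos_left _ (Nat.mul_pos two_pos c.P_pos)).trans hB.lP

theorem n_le (hB : Bnd c E) :
    10 * c.n + 1 ≤ E.Lim ∧ 3 * c.n + 1 ≤ E.n1 ∧ 3 * c.n ≤ (c.d + 3) * c.n := by
  have := hB.ln
  rw [hB.n1]
  refine ⟨?_, ?_, ?_⟩ <;> nlinarith [Nat.zero_le (c.d * c.n)]

theorem pat_bd {a b β : ℕ} (ha : a < c.K1) (hb : b < c.K1) (hβ : β < c.D) :
    a + c.K1 * (b + c.K1 * β) < 2 ^ c.m ∧ b + c.K1 * β ≤ c.K1 * (b + c.K1 * β) :=
  ⟨pat_lt ha hb hβ, Nat.le_mul_of_pos_left _ c.K1_pos⟩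

theorem lo_bd (L : ℕ) {κ : ℕ} (hκ : κ < c.K1) : L % c.N1 + c.N1 * κ < c.NG := by
  have := mul_add_lt hκ (Nat.mod_lt L c.N1_pos)
  rw [c.NG_mul]
  linarith

end FillP

open FillP

theorem sFillY (h : SPut) : SFillY := by
  intro E c hB σ t π hP B hb
  have hbig := hB.big
  have h1 := hB.lNG
  have h2 := hB.lm
  have h3 := n_le hB
  have h4 := GE_le hB
  have h5 := PP_le hB
  have h6 := N1_le c
  unfold pFillY
  refine wp_for c.n (c.K1 * (c.tPut + 4) + 7)
    (fun k σ' => Hold E c (fun ad => B ad + ∑ i ∈ range k, c.TY π i ad) σ')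
    [46, 50, 45, 71, 65, 51, 70, 72, 73, 44, 37, 47, 48, 49] [13] false (by decide) (by decide)
    (by decide) (by decide) hP.par.n (by omega) (by omega) (by simpa [Hold] using hb) ?_
    fun σ' t' _ hI ht => ⟨hI, ht⟩
  intro i σ₁ t₁ hi hF h33 hI
  have hP₁ := hP.frame hF (by decide) (by decide)
  have hQ := hP₁.par
  obtain ⟨b1, b2, b3⟩ := hP₁.b7 (c.n + i) (by omega)
  have c1 := hP.ok.cls_lt (c.yb i)
  have c2 := grp_le hP.ok (c.yb i)
  have c3 : res π.q1 (c.y (c.n + i + 1)) + c.P * res π.q2 (c.y (c.n + i + 1)) =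
    c.cls π (c.yb i) := rfl
  have c4 : res π.p (c.yb i) < c.D := (res_lt hP.ok.p3.pos _).trans hP.ok.l3
  have c5 := c.div_N1_lt (Nat.mod_lt (c.cls π (c.yb i)) c.NG_pos)
  simp only [wp_blk_cons, wp_set, wp_blk_nil]
  simp only [Expr.safe, Expr.eval, BOp.safe, BOp.eval, St.setv_var, St.setv_bank, Nat.reduceEqDiff,
    if_true, if_false, h33, hQ.n, hQ.n3, hQ.P, hQ.GE, hQ.sG, hQ.e, hQ.NG, b1, b2, b3, c3, c.shr_NG,
    c.and_NG, hB.inp (c.n + i + 1) (by omega) (by omega), true_and]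
  refine ⟨by omega, by omega, by omega, by omega, ?_⟩
  generalize hσ : St.setv (St.setv (St.setv (St.setv (St.setv σ₁ 46 _) 50 _) 45 _) 71 _) 65 _ = σ₂
  have hF₂ : Frame [46, 50, 45, 71, 65] [] false σ₁ σ₂ := by
    rw [← hσ]
    iterate 5 refine Frame.trans ?_ ((Frame.refl _ _ _ _).of_setv (by decide))
    exact Frame.refl _ _ _ _
  have hQ₂ := hQ.frame hF₂ (by decide)
  have v46 : (σ₂.var 46 : ZMod E.W) = c.yb i := by
    rw [← hσ]; simpa [Cx.yb] using cast_inp (by omega) _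
  have v45 : σ₂.var 45 = c.GE + c.cls π (c.yb i) / c.NG * c.e := by simp [← hσ]
  have v71 : σ₂.var 71 = c.cls π (c.yb i) % c.NG := by simp [← hσ]
  have v65 : σ₂.var 65 = res π.p (c.yb i) := by simp [← hσ, Cx.yb]
  have hI₂ := hI
  unfold Hold at hI₂
  rw [← hF₂.bank 13 (by decide)] at hI₂
  refine (loopK h hB hQ₂ (.inl rfl)
    (u := fun κ => vY c.μ (c.cls π (c.yb i) % c.NG) κ (res π.p (c.yb i))) v45 (by omega) v46 hI₂
    fun κ hκ σ₃ hF₃ h51 => ?_).mono fun σ' t' ⟨q1, q2⟩ => ⟨fun ad had => ?_, by omega⟩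
  · have d1 := pat_bd hκ c5 c4
    have d2 := lo_bd (c.cls π (c.yb i) % c.NG) hκ
    simp only [Expr.safe, Expr.eval, BOp.safe, BOp.eval, St.setv_var, Nat.reduceEqDiff, if_true,
      if_false, h51, hF₃.var 71 (by decide), hF₃.var 16 (by decide), hF₃.var 26 (by decide),
      hF₃.var 18 (by decide), hF₃.var 76 (by decide), hF₃.var 65 (by decide), hQ₂.N1, hQ₂.pm, hQ₂.K1,
      hQ₂.sN, v71, v65, c.and_N1, c.shr_N1, c.N1_succ, true_and]
    refine ⟨by omega, ?_, rfl⟩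
    generalize _ / c.N1 = w at d1 ⊢
    omega
  · simp only [St.setv_bank, q1 ad had, sum_range_succ, add_assoc]
    rfl

theorem sFillX (hD : SDiv) (h : SPut) : SFillX := by
  intro E c hB σ t π z r hI0 hb
  have hbig := hB.big
  have h1 := hB.lNG
  have h2 := hB.lm
  have h3 := n_le hB
  have h4 := GE_le hB
  have h5 := PP_le hB
  have h6 := N1_le c
  have h7 := hB.nm.DP
  have ok := hI0.tup.pre.ok
  have h8 := ok.l3
  have h9 := hI0.hr'
  have h10 : c.P ≤ c.P * c.P := Nat.le_mul_self _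
  unfold pFillX
  simp only [wp_blk_cons, wp_set, wp_blk_nil]
  simp only [Expr.safe, Expr.eval, St.setv_var, Nat.reduceEqDiff, if_false, hI0.hr, true_and,
    hI0.tup.pre.p]
  have hT₀ : Tup c E π z ((σ.setv 61 π.p).setv 66 r) :=
    (hI0.tup.frame (frame_setv _ _ _) (by decide) (by decide)).frame (frame_setv _ _ _) (by decide)
      (by decide)
  have h61 : ((σ.setv 61 π.p).setv 66 r).var 61 = π.p := by simp
  have h66 : ((σ.setv 61 π.p).setv 66 r).var 66 = r := by simp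
  have hb₀ : ∀ a < 2 * c.GE * c.A, ((σ.setv 61 π.p).setv 66 r).bank 13 a = 0 := hb
  generalize (σ.setv 61 π.p).setv 66 r = σ₀ at hT₀ h61 h66 hb₀ ⊢
  refine wp_for c.n (c.D * (c.tDiv + c.K1 * (c.tPut + 4) + 5) + 7)
    (fun k σ' => Hold E c (fun ad => ∑ i ∈ range k, c.TX π z r i ad) σ')
    [46, 50, 45, 70, 64, 65, 60, 62, 63, 51, 71, 72, 73, 44, 37, 47, 48, 49] [13] false
    (by
      change (blk [.set 46 (.c 0), .set 50 (.c 0), .set 45 (.c 0), .set 70 (.c 0),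
        .set 64 (.c 0), forL 65 82 (blk [pDiv [], .ite (.c 0) .skip (forL 51 18 (blk
          [.set 71 (.c 0), .set 72 (.c 0), pPut]))])]).Within _ _ _
      decide) (by decide)
    (by decide) (by decide) hT₀.pre.par.n (by omega) (by omega)
    (fun a ha => by simp [hb₀ a ha]) ?_
    fun σ' t' _ hI ht => ⟨hI, by
      simp only [Cx.tFillX, Nat.add_assoc, Nat.reduceAdd] at ht ⊢; omega⟩
  intro i σ₁ t₁ hi hF h33 hI
  have hT₁ := hT₀.frame hF (by decide) (by decide)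
  have hQ := hT₁.pre.par
  obtain ⟨b1, b2, b3⟩ := hT₁.pre.b7 i (by omega)
  have c1 := ok.cls_lt (c.ya i)
  have c2 := grp_le ok (c.ya i)
  have c3 : res π.q1 (c.y (i + 1)) + c.P * res π.q2 (c.y (i + 1)) = c.cls π (c.ya i) := rfl
  have c4 : res π.p (c.ya i) < π.p := res_lt ok.p3.pos _
  have c5 := c.div_N1_lt (Nat.mod_lt (c.cls π (c.ya i)) c.NG_pos)
  simp only [wp_blk_cons, wp_set, wp_blk_nil]
  simp only [Expr.safe, Expr.eval, BOp.safe, BOp.eval, St.setv_var, St.setv_bank, Nat.reduceEqDiff,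
    if_true, if_false, h33, hQ.n3, hQ.P, hQ.sG, hQ.e, hQ.NG, b1, b2, b3, c3, c.shr_NG,
    c.and_NG, hB.inp (i + 1) (by omega) (by omega), true_and]
  refine ⟨by omega, by omega, by omega, by omega, ?_⟩
  generalize hσ : St.setv (St.setv (St.setv (St.setv (St.setv σ₁ 46 _) 50 _) 45 _) 70 _) 64 _ = σ₂
  have hF₂ : Frame [46, 50, 45, 70, 64] [] false σ₁ σ₂ := by
    rw [← hσ]
    iterate 5 refine Frame.trans ?_ ((Frame.refl _ _ _ _).of_setv (by decide))
    exact Frame.refl _ _ _ _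
  have hT₂ := hT₁.frame hF₂ (by decide) (by decide)
  have v46 : (σ₂.var 46 : ZMod E.W) = c.ya i := by
    rw [← hσ]; simpa [Cx.ya] using cast_inp (by omega) _
  have v45 : σ₂.var 45 = c.cls π (c.ya i) / c.NG * c.e := by simp [← hσ]
  have v70 : σ₂.var 70 = c.cls π (c.ya i) % c.NG := by simp [← hσ]
  have v64 : σ₂.var 64 = res π.p (c.ya i) := by simp [← hσ, Cx.ya]
  have v61 : σ₂.var 61 = π.p := by rw [hF₂.var 61 (by decide), hF.var 61 (by decide), h61]
  have v66 : σ₂.var 66 = r := by rw [hF₂.var 66 (by decide), hF.var 66 (by decide), h66]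
  refine wp_for π.p (c.tDiv + c.K1 * (c.tPut + 4) + 3)
    (fun k σ' => Hold E c (fun ad => ∑ i ∈ range i, c.TX π z r i ad +
      ∑ β ∈ range k, if (π.p : ℤ) ∣ c.H z (res π.p (c.ya i)) β r then
        ∑ κ ∈ range c.K1, c.put (c.cls π (c.ya i) / c.NG * c.e)
          (uX c.μ (c.cls π (c.ya i) % c.NG) κ β) (c.ya i) ad else 0) σ')
    [60, 62, 63, 51, 71, 72, 73, 44, 37, 47, 48, 49] [13] false
    (by
      change (blk [pDiv [], .ite (.c 0) .skip (forL 51 18 (blk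
        [.set 71 (.c 0), .set 72 (.c 0), pPut]))]).Within _ _ _
      decide) (by decide)
    (by decide) (by decide) hT₂.pre.p (by omega) (by omega)
    (fun a ha => by simpa [hF₂.bank 13 (by decide)] using hI a ha) ?_
    fun σ' t' _ hJ ht => ⟨fun ad had => ?_, ?_⟩
  · intro β σ₃ t₃ hβ hF₃ h65 hJ
    have hT₃ := hT₂.frame hF₃ (by decide) (by decide)
    simp only [wp_blk_cons, wp_blk_nil]
    refine (hD hB hT₃ ((hF₃.var 64 (by decide)).trans v64) h65 ((hF₃.var 66 (by decide)).trans v66)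
      ((hF₃.var 61 (by decide)).trans v61) (by omega) (by omega) (by omega) ok.p3.pos
      (by omega)).call [60, 62, 63] [] false (by decide : (pDiv []).Within [60, 62, 63] [] false)
      fun σ₄ t₄ hF₄ ⟨q1, q2⟩ => ?_
    have hJ₄ := hJ
    unfold Hold at hJ₄
    rw [← hF₄.bank 13 (by decide)] at hJ₄
    refine wp_ite.2 ⟨trivial, fun hc => wp_skip.2 ⟨fun ad had => ?_, by omega⟩, fun hc => ?_⟩
    · simp only [St.setv_bank, hJ₄ ad had, sum_range_succ, if_neg fun e => hc (q1.2 e), add_zero]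
    have hQ₄ := hT₃.pre.par.frame hF₄ (by decide)
    have w : ∀ x, x ∉ [65, 60, 62, 63, 51, 71, 72, 73, 44, 37, 47, 48, 49] →
        σ₄.var x = σ₂.var x := fun x hx =>
      (hF₃.trans (hF₄.weaken (by decide) (by decide) id)).var x hx
    refine (loopK h hB hQ₄ (.inr rfl) (x := c.ya i)
      (u := fun κ => uX c.μ (c.cls π (c.ya i) % c.NG) κ β) ((w 45 (by decide)).trans v45) (by omega)
      (by rw [w 46 (by decide), v46]) hJ₄ fun κ hκ σ₅ hF₅ h51 => ?_).mono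
      fun σ' t' ⟨q3, q4⟩ => ⟨fun ad had => ?_, by omega⟩
    · have d1 := pat_bd c5 hκ (hβ.trans h8)
      have d2 := lo_bd (c.cls π (c.ya i) % c.NG) hκ
      simp only [Expr.safe, Expr.eval, BOp.safe, BOp.eval, St.setv_var, Nat.reduceEqDiff, if_true,
        if_false, h51, hF₅.var 70 (by decide), hF₅.var 16 (by decide), hF₅.var 18 (by decide),
        hF₅.var 76 (by decide), hF₅.var 65 (by decide), hF₄.var 65 (by decide), h65,
        w 70 (by decide), v70, hQ₄.N1, hQ₄.K1, hQ₄.sN, c.and_N1, c.shr_N1, c.N1_succ, true_and]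
      refine ⟨by omega, ?_, rfl⟩
      generalize _ / c.N1 = w at d1 ⊢
      omega
    · simp only [St.setv_bank, q3 ad had, sum_range_succ, if_pos (q1.1 hc), add_assoc]
  · simp only [St.setv_bank, hJ ad had, sum_range_succ]
    rfl
  · have := Nat.mul_le_mul_right (c.tDiv + c.K1 * (c.tPut + 4) + 5) h8.le
    simp only [Nat.add_assoc, Nat.reduceAdd] at *
    omega

end Pool.Agent.P.MP_8f87b2_lc.PL
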