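import Pool.Agent.P.MP_8f87b2_lc.PL.Spec

/-!
# One output, one entry of the third list, all entries of a residue class
-/

namespace Pool.Agent.P.MP_8f87b2_lc.PL

open Finset

namespace OneP

variable {E : Env} {c : Cx}

theorem eeq_val (a b : ℕ) :
    ((if a < b + 1 then 1 else 0) &&& if b < a + 1 then 1 else 0 : ℕ) = if a = b then 1 else 0 := by
  split_ifs <;> first | rfl | omega

theorem both_val (a b z : ℕ) :
    ((if a < z + 1 then 1 else 0) &&& if b < z + 1 then 1 else 0 : ℕ) =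
      if a ≤ z ∧ b ≤ z then 1 else 0 := by
  split_ifs <;> first | rfl | omega

theorem val_eq {W a : ℕ} {m : ℤ} (ha : a < W) (h : (a : ZMod W) = m) (h0 : 0 ≤ m)
    (h1 : m < W) : (a : ℤ) = m := by
  have := cast_mod_eq h (dvd_refl W)
  rwa [Nat.mod_eq_of_lt ha, Int.emod_eq_of_lt h0 h1] at this

theorem dsum_bd {n : ℕ} {f : ℕ → ℕ → ℤ} {B : ℤ} (h : ∀ i j, 0 ≤ f i j ∧ f i j ≤ B) :
    0 ≤ ∑ i ∈ range n, ∑ j ∈ range n, f i j ∧
      ∑ i ∈ range n, ∑ j ∈ range n, f i j ≤ n * n * B := by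
  refine ⟨sum_nonneg fun i _ => sum_nonneg fun j _ => (h i j).1, ?_⟩
  calc ∑ i ∈ range n, ∑ j ∈ range n, f i j ≤ ∑ _i ∈ range n, ∑ _j ∈ range n, B :=
        sum_le_sum fun i _ => sum_le_sum fun j _ => (h i j).2
    _ = n * n * B := by simp [mul_assoc]

theorem hH (hB : Bnd c E) (z i i' i'' : ℕ) : 0 ≤ c.H z (c.ya i) (c.yb i') (c.yc i'') ∧
    c.H z (c.ya i) (c.yb i') (c.yc i'') < 2 ^ c.Ab :=
  hB.nm.hH z _ _ _ (hB.nm.yV _) (hB.nm.yV _) (hB.nm.yV _)

theorem fin' (hB : Bnd c E) : (c.n : ℤ) * c.n * 2 ^ c.Ab < E.W := by exact_mod_cast hB.fin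

theorem mom_bd (hB : Bnd c E) (π : Pr) (z r x y : ℕ) :
    0 ≤ c.Mom π z r x y 0 0 ∧ c.Mom π z r x y 0 0 < E.W := by
  have h := dsum_bd (n := c.n) (B := 2 ^ c.Ab)
    (f := fun i i' => if c.Con π z r x y i i' then c.ya i ^ 0 * c.yb i' ^ 0 else 0) fun i j => by
      have : (1 : ℤ) ≤ 2 ^ c.Ab := one_le_pow₀ (by norm_num)
      split_ifs
      · simpa using this
      · exact ⟨le_rfl, by linarith⟩
  exact ⟨h.1, h.2.trans_lt (fin' hB)⟩

theorem acc_bd (hB : Bnd c E) (π : Pr) (z r x y i : ℕ) :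
    0 ≤ c.Acc π z r x y (c.yc i) ∧ c.Acc π z r x y (c.yc i) < E.W := by
  rw [c.Acc_eq]
  have h := dsum_bd (n := c.n) (B := 2 ^ c.Ab)
    (f := fun j j' => if c.Con π z r x y j j' then c.H z (c.ya j) (c.yb j') (c.yc i) else 0)
    fun j j' => by
      split_ifs
      · exact ⟨(hH hB z j j' i).1, (hH hB z j j' i).2.le⟩
      · exact ⟨le_rfl, by positivity⟩
  exact ⟨h.1, h.2.trans_lt (fin' hB)⟩

theorem yes (hB : Bnd c E) {π : Pr} {z r x y i : ℕ} (hz : z < c.NT) (hi : i < c.n)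
    (h : c.test π z r x y i) : c.Yes := by
  obtain ⟨j, hj, h1⟩ := exists_ne_zero_of_sum_ne_zero h.1
  obtain ⟨j', hj', h2⟩ := exists_ne_zero_of_sum_ne_zero h1
  have hc : c.Con π z r x y j j' := by
    by_contra hn
    exact h2 (if_neg hn)
  have nn : ∀ j j', 0 ≤ if c.Con π z r x y j j' then c.H z (c.ya j) (c.yb j') (c.yc i) else 0 :=
    fun j j' => by
      split_ifs
      · exact (hH hB z j j' i).1
      · exact le_rfl
  have h3 := h.2
  rw [c.Acc_eq] at h3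
  have h4 := (sum_eq_zero_iff_of_nonneg fun j _ => sum_nonneg fun j' _ => nn j j').1 h3 j hj
  have h5 := (sum_eq_zero_iff_of_nonneg fun j' _ => nn j j').1 h4 j' hj'
  rw [if_pos hc] at h5
  exact ⟨z, hz, j, mem_range.1 hj, j', mem_range.1 hj', i, hi, h5⟩

theorem rt_card (z : ℕ) {q : ℕ} (u : ℕ) (hq : q < c.P) : (c.rt z q u).card ≤ c.P * c.P := by
  refine (card_filter_le _ _).trans ?_
  rw [card_product, card_range]
  exact Nat.mul_le_mul hq.le hq.le

theorem pair_lt {P a b : ℕ} (ha : a < P) (hb : b < P) : a + P * b < P * P := by nlinarith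

end OneP

open OneP

theorem sOne (h1 : SMom) (h2 : SAccE) : SOne := by
  intro E c hB σ t π z r hT x y i hx hy hi h52 h53 h66
  have hbig := hB.big
  have hL : 0 < E.Lim := lt_of_lt_of_le (by positivity) hB.lT
  have he := hB.nm.e1
  unfold pOne
  rw [wp_blk_cons]
  refine (h1 hB hT hx hy h52 h53).call
    [54, 55, 70, 71, 72, 73, 44, 37, 34, 56, 57, 38, 39, 41, 42, 43, 47, 48, 49, 50, 51] [9] false
    (by decide) ?_
  rintro σ₁ t₁ hF ⟨hM, ht⟩
  have hT₁ := hT.frame hF (by decide) (by decide)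
  have e0 : σ₁.var 0 = σ.var 0 := hF.var 0 (by decide)
  obtain ⟨a1, a2, a3⟩ := h2 hB hT₁.ins.tup (u := c.yc i) (M := c.Mom π z r x y)
    (by rw [hF.var 66 (by decide), h66]) fun i hi j hj => (hM i hi j hj).2
  have b1 := hM 0 he 0 he
  rw [zero_mul, zero_add] at b1
  have v1 := val_eq b1.1 b1.2 (mom_bd hB π z r x y).1 (mom_bd hB π z r x y).2
  have v2 := val_eq (m := c.Acc π z r x y (c.yc i)) a2 a3 (acc_bd hB π z r x y i).1
    (acc_bd hB π z r x y i).2
  have hte : c.test π z r x y i ↔ σ₁.bank 9 0 ≠ 0 ∧ (eAcc c.T).eval E σ₁ = 0 := by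
    rw [Cx.test, ← v1, ← v2]; simp
  have hO : c.tOne = c.tMom + 4 := rfl
  rw [wp_blk_cons, wp_set]
  refine ⟨a1, ?_⟩
  generalize (eAcc c.T).eval E σ₁ = w at hte
  simp only [wp_blk_cons, wp_blk_nil, wp_ite, wp_set, wp_skip, Expr.safe, Expr.eval, St.setv_var,
    St.setv_bank, e0, Nat.reduceEqDiff, if_true, if_false, true_and]
  refine ⟨by omega, fun g1 => ⟨fun g2 => ⟨Cx.Out.refl _, fun h => absurd (hte.1 h).2 g2, by omega⟩,
    fun g2 => ⟨by omega, Or.inr ⟨rfl, yes hB hT.ins.tup.hz hi (hte.2 ⟨g1, g2⟩)⟩,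
      fun _ => trivial, by omega⟩⟩,
    fun g1 => ⟨Cx.Out.refl _, fun h => absurd g1 (hte.1 h).1, by omega⟩⟩

theorem sItem (h : SOne) : SItem := by
  intro E c hB σ t π z r hT i hi h33 hr
  have hbig := hB.big
  have hP := hT.ins.tup.pre.par
  have ok := hT.ins.tup.pre.ok
  have hln : 10 * c.n < E.Lim := by have := hB.ln; nlinarith
  have hn1 : 3 * c.n < E.n1 := by have := hB.n1; nlinarith
  have hn2 : 3 * c.n ≤ (c.d + 3) * c.n := Nat.mul_le_mul_right _ (by omega)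
  have hlZ := hB.lZ
  have hlP := hB.lP
  have hP0 := c.P_pos
  have hPP : c.P ≤ c.P * c.P := Nat.le_mul_of_pos_left _ hP0
  have hP3 : 2 * (c.P * c.P) ≤ 2 * c.P * (c.P * c.P) :=
    Nat.mul_le_mul_right _ (by omega)
  obtain ⟨-, b1, b2⟩ := hT.ins.tup.pre.b7 (c.n + c.n + i) (by omega)
  have u1 : res π.q1 (c.yc i) < π.q1 := res_lt ok.p1.pos _
  have u2 : res π.q2 (c.yc i) < π.q2 := res_lt ok.p2.pos _
  obtain ⟨k1, l1, m1⟩ := hT.ins.r1 _ u1
  obtain ⟨k2, l2, m2⟩ := hT.ins.r2 _ u2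
  have c1 := rt_card z (res π.q1 (c.yc i)) ok.l1
  have c2 := rt_card z (res π.q2 (c.yc i)) ok.l2
  have q1 := ok.l1
  have q2 := ok.l2
  have hin : ((E.inp (c.n + c.n + i + 1) : ℕ) : ZMod E.W) = (c.yc i : ℤ) := by
    rw [hB.inp _ (by omega) (by omega), cast_inp (by omega)]; rfl
  have hI : c.tItem = c.Z * (c.Z * (c.tOne + 4) + 4) + 8 := rfl
  have hhit : c.HitI π z i ↔ (c.rt z π.q1 (res π.q1 (c.yc i))).card ≤ c.Z ∧
      (c.rt z π.q2 (res π.q2 (c.yc i))).card ≤ c.Z ∧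
      ∃ p₁ ∈ c.rt z π.q1 (res π.q1 (c.yc i)), ∃ p₂ ∈ c.rt z π.q2 (res π.q2 (c.yc i)),
        c.test π z r (p₁.1 + c.P * p₂.1) (p₁.2 + c.P * p₂.2) i := by rw [← hr]; rfl
  rw [show c.y (c.n + c.n + i + 1) = c.yc i from rfl] at b1 b2
  rw [hhit]
  generalize res π.q1 (c.yc i) = a₁ at *
  generalize res π.q2 (c.yc i) = a₂ at *
  generalize c.rt z π.q1 a₁ = S₁ at *
  generalize c.rt z π.q2 a₂ = S₂ at *
  unfold pItem
  simp only [wp_blk_cons, wp_set, Expr.safe, Expr.eval, BOp.safe, BOp.eval, St.setv_var,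
    St.setv_bank, h33, hP.n, hP.n3, hP.P, b1, b2, k1, k2, Nat.reduceEqDiff, if_true, if_false,
    true_and]
  refine ⟨by omega, by omega, by omega, by omega, by omega, ?_⟩
  set σ₁ := ((((σ.setv 58 a₁).setv 59 (c.P + a₂)).setv 67 S₁.card).setv 68 S₂.card).setv 66
    (E.inp (c.n + c.n + i + 1)) with hσ₁
  have hF₁ : Frame [58, 59, 67, 68, 66] [] false σ σ₁ :=
    (((((Frame.refl _ _ _ σ₁).of_setv (by decide)).of_setv (by decide)).of_setv
      (by decide)).of_setv (by decide)).of_setv (by decide)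
  have hT₁ := hT.frame hF₁ (by decide) (by decide)
  have e0 : σ₁.var 0 = σ.var 0 := hF₁.var 0 (by decide)
  have e58 : σ₁.var 58 = a₁ := by simp [hσ₁]
  have e59 : σ₁.var 59 = c.P + a₂ := by simp [hσ₁]
  have e67 : σ₁.var 67 = S₁.card := by simp [hσ₁]
  have e68 : σ₁.var 68 = S₂.card := by simp [hσ₁]
  have e66 : σ₁.var 66 = E.inp (c.n + c.n + i + 1) := by simp [hσ₁]
  have eb : σ₁.bank = σ.bank := rfl
  clear_value σ₁
  rw [wp_ite]
  simp only [wp_skip, wp_blk_nil, Expr.safe, Expr.eval, BOp.safe, BOp.eval, e67, e68,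
    hT₁.ins.tup.pre.par.Z, both_val, true_and, and_true]
  refine ⟨by omega, fun g => ?_, fun g => ⟨e0 ▸ Cx.Out.refl _, fun hh => ?_, by omega⟩⟩
  swap
  · rw [if_pos ⟨hh.1, hh.2.1⟩] at g
    exact absurd g one_ne_zero
  have g' : S₁.card ≤ c.Z ∧ S₂.card ≤ c.Z := by
    by_contra hn
    exact g (if_neg hn)
  set X : ℕ → ℕ → ℕ := fun a b => σ.bank 10 (a₁ * (c.P * c.P) + a) +
    c.P * σ.bank 10 ((c.P + a₂) * (c.P * c.P) + b) with hX
  set Y : ℕ → ℕ → ℕ := fun a b => σ.bank 11 (a₁ * (c.P * c.P) + a) +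
    c.P * σ.bank 11 ((c.P + a₂) * (c.P * c.P) + b) with hY
  refine wp_for S₁.card (S₂.card * (c.tOne + 2 + 2) + 2)
    (fun k σ' => c.Out (σ.var 0) (σ'.var 0) ∧
      ∀ a < k, ∀ b < S₂.card, c.test π z r (X a b) (Y a b) i → σ'.var 0 = 1)
    [74, 52, 53, 60, 0, 54, 55, 70, 71, 72, 73, 44, 37, 34, 56, 57, 38, 39, 41, 42, 43, 47, 48, 49,
      50, 51] [9] false ?_ (by decide) (by decide) (by decide) e67 (by omega) (by omega)
    ⟨by simpa [e0] using Cx.Out.refl _, by simp⟩ ?_ ?_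
  · exact (by decide : (forL 74 68 (blk [.set 52 (.c 0), .set 53 (.c 0), pOne []])).Within
      [74, 52, 53, 60, 0, 54, 55, 70, 71, 72, 73, 44, 37, 34, 56, 57, 38, 39, 41, 42, 43, 47, 48,
        49, 50, 51] [9] false)
  · intro a σ₂ t₂ ha hF₂ h69 ⟨hO₂, hA₂⟩
    refine wp_for S₂.card (c.tOne + 2)
      (fun k σ' => c.Out (σ₂.var 0) (σ'.var 0) ∧
        ∀ b < k, c.test π z r (X a b) (Y a b) i → σ'.var 0 = 1)
      [52, 53, 60, 0, 54, 55, 70, 71, 72, 73, 44, 37, 34, 56, 57, 38, 39, 41, 42, 43, 47, 48, 49,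
        50, 51] [9] false ?_ (by decide) (by decide) (by decide)
      ((hF₂.var 68 (by decide)).trans e68) (by omega) (by omega)
      ⟨by simpa using Cx.Out.refl _, by simp⟩ ?_ ?_
    · exact (by decide : (blk [.set 52 (.c 0), .set 53 (.c 0), pOne []]).Within
        [52, 53, 60, 0, 54, 55, 70, 71, 72, 73, 44, 37, 34, 56, 57, 38, 39, 41, 42, 43, 47, 48,
          49, 50, 51] [9] false)
    · intro b σ₃ t₃ hb hF₃ h74 ⟨hO₃, hA₃⟩
      have hT₃ := (hT₁.frame hF₂ (by decide) (by decide)).frame hF₃ (by decide) (by decide)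
      have f58 : σ₃.var 58 = a₁ := by rw [hF₃.var 58 (by decide), hF₂.var 58 (by decide), e58]
      have f59 : σ₃.var 59 = c.P + a₂ := by
        rw [hF₃.var 59 (by decide), hF₂.var 59 (by decide), e59]
      have f66 : σ₃.var 66 = E.inp (c.n + c.n + i + 1) := by
        rw [hF₃.var 66 (by decide), hF₂.var 66 (by decide), e66]
      have f69 : σ₃.var 69 = a := by rw [hF₃.var 69 (by decide), h69]
      have f10 : σ₃.bank 10 = σ.bank 10 := by
        rw [hF₃.bank 10 (by decide), hF₂.bank 10 (by decide), eb]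
      have f11 : σ₃.bank 11 = σ.bank 11 := by
        rw [hF₃.bank 11 (by decide), hF₂.bank 11 (by decide), eb]
      have hP₃ := hT₃.ins.tup.pre.par
      have d1 : a₁ * (c.P * c.P) + a < 2 * c.P * (c.P * c.P) := mul_add_lt (by omega) (by omega)
      have d2 : (c.P + a₂) * (c.P * c.P) + b < 2 * c.P * (c.P * c.P) :=
        mul_add_lt (by omega) (by omega)
      have x1 : X a b < c.P * c.P := pair_lt ((l1 a ha).1.trans q1) ((l2 b hb).1.trans q2)
      have y1 : Y a b < c.P * c.P := pair_lt ((l1 a ha).2.trans q1) ((l2 b hb).2.trans q2)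
      have x2 := x1
      have y2 := y1
      simp only [hX, hY] at x2 y2
      simp only [wp_blk_cons, wp_set, Expr.safe, Expr.eval, BOp.safe, BOp.eval, St.setv_var,
        St.setv_bank, f58, f59, f69, h74, f10, f11, hP₃.P, hP₃.PP, Nat.reduceEqDiff,
        if_false, true_and]
      refine ⟨by omega, by omega, ?_⟩
      have hF₄ : Frame [52, 53] [] false σ₃ ((σ₃.setv 52 (X a b)).setv 53 (Y a b)) :=
        ((Frame.refl _ _ _ _).of_setv (by decide)).of_setv (by decide)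
      refine (h hB (hT₃.frame hF₄ (by decide) (by decide)) x1 y1 hi (by simp) (by simp)
        (by simpa [f66] using hin)).mono ?_
      rintro σ₅ t₅ ⟨o1, o2, o3⟩
      rw [hF₄.var 0 (by decide)] at o1
      simp only [wp_blk_nil]
      refine ⟨⟨hO₃.trans o1, fun b' hb' ht => ?_⟩, by omega⟩
      rcases Nat.lt_succ_iff_lt_or_eq.1 hb' with hb' | rfl
      · exact o1.one (hA₃ b' hb' ht)
      · exact o2 ht
    · rintro σ₃ t₃ - ⟨hO₃, hA₃⟩ ht
      simp only [St.setv_var, Nat.reduceEqDiff, if_false]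
      refine ⟨⟨hO₂.trans hO₃, fun a' ha' b hb ht => ?_⟩, ht⟩
      rcases Nat.lt_succ_iff_lt_or_eq.1 ha' with ha' | rfl
      · exact hO₃.one (hA₂ a' ha' b hb ht)
      · exact hA₃ b hb ht
  · rintro σ₂ t₂ - ⟨hO₂, hA₂⟩ ht
    refine ⟨hO₂, ?_, ?_⟩
    · rintro ⟨-, -, p₁, hp₁, p₂, hp₂, hte⟩
      obtain ⟨a, ha, s1, s2⟩ := m1 p₁ hp₁
      obtain ⟨b, hb, s3, s4⟩ := m2 p₂ hp₂
      refine hA₂ a ha b hb ?_
      simp only [hX, hY, s1, s2, s3, s4]
      exact hte
    · have : S₁.card * (S₂.card * (c.tOne + 2 + 2) + 2 + 2) ≤ c.Z * (c.Z * (c.tOne + 4) + 4) :=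
        Nat.mul_le_mul g'.1 (Nat.add_le_add_right (Nat.mul_le_mul_right _ g'.2) 4)
      omega

theorem sQuery (h : SItem) : SQuery := by
  intro E c hB σ t π z r hT
  have hbig := hB.big
  have hln : 10 * c.n < E.Lim := by have := hB.ln; nlinarith
  have hlP := hB.lP
  have hP0 := c.P_pos
  have hPP : c.P ≤ c.P * c.P := Nat.le_mul_of_pos_left _ hP0
  have hP3 : 2 * (c.P * c.P) ≤ 2 * c.P * (c.P * c.P) :=
    Nat.mul_le_mul_right _ (by omega)
  have ok := hT.ins.tup.pre.ok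
  have hp := ok.l3
  have hD := hB.nm.DP
  have hr := hT.ins.hr'
  refine wp_forT c.n
    (fun k σ' t' => c.Out (σ.var 0) (σ'.var 0) ∧
      (∀ i < k, res π.p (c.yc i) = r → c.HitI π z i → σ'.var 0 = 1) ∧
      t' ≤ t + 1 + k * 3 + ((range k).filter fun i => res π.p (c.yc i) = r).card * c.tItem)
    [58, 59, 67, 68, 66, 69, 74, 52, 53, 60, 0, 54, 55, 70, 71, 72, 73, 44, 37, 34, 56, 57, 38, 39,
      41, 42, 43, 47, 48, 49, 50, 51] [9] false ?_ (by decide) (by decide) (by decide)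
    hT.ins.tup.pre.par.n (by omega) (by omega) ⟨by simpa using Cx.Out.refl _, by simp, by simp⟩
    ?_ ?_
  · exact (by decide : (Stmt.ite (.c 0) (pItem []) .skip).Within
      [58, 59, 67, 68, 66, 69, 74, 52, 53, 60, 0, 54, 55, 70, 71, 72, 73, 44, 37, 34, 56, 57, 38,
        39, 41, 42, 43, 47, 48, 49, 50, 51] [9] false)
  · rintro k σ₁ t₁ hk hF h33 ⟨hO, hA, ht⟩
    have hT₁ := hT.frame hF (by decide) (by decide)
    have b1 := (hT₁.ins.tup.pre.b7 (c.n + c.n + k) (by omega)).1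
    rw [show c.y (c.n + c.n + k + 1) = c.yc k from rfl] at b1
    have u1 : res π.p (c.yc k) < π.p := res_lt ok.p3.pos _
    rw [wp_ite]
    simp only [wp_skip, Expr.safe, Expr.eval, BOp.safe, BOp.eval, h33, hT₁.ins.tup.pre.par.n,
      hT₁.ins.hr, b1, eeq_val, St.setv_var, Nat.reduceEqDiff, if_false, true_and, and_true,
      range_add_one, filter_insert]
    refine ⟨by omega, fun g => ?_, fun g => ?_⟩
    · have g' : res π.p (c.yc k) = r := by
        by_contra hn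
        exact g (if_neg hn)
      refine (h hB hT₁ hk h33 g').mono ?_
      rintro σ₂ t₂ ⟨o1, o2, o3⟩
      refine ⟨hO.trans o1, fun i hi h1 h2 => ?_, ?_⟩
      · rcases Nat.lt_succ_iff_lt_or_eq.1 hi with hi | rfl
        · exact o1.one (hA i hi h1 h2)
        · exact o2 h2
      · rw [if_pos g', card_insert_of_notMem (by simp), Nat.add_mul _ 1 c.tItem]
        omega
    · have g' : ¬res π.p (c.yc k) = r := fun hn => by
        rw [if_pos hn] at g
        exact absurd g one_ne_zero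
      refine ⟨hO, fun i hi h1 h2 => ?_, ?_⟩
      · rcases Nat.lt_succ_iff_lt_or_eq.1 hi with hi | rfl
        · exact hA i hi h1 h2
        · exact absurd h1 g'
      · rw [if_neg g']
        omega
  · rintro σ₁ t₁ - - ⟨hO, hA, ht⟩
    refine ⟨hO, hA, ?_⟩
    unfold Cx.ncr
    omega

end Pool.Agent.P.MP_8f87b2_lc.PL
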