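import Pool.Agent.P.MP_8f87b2_lc.PL.Spec

/-!
# The table of primes
-/

namespace Pool.Agent.P.MP_8f87b2_lc.PL

open Finset

namespace PrimeP

/-- the number `x` has been marked before the pair `(a, b)` is treated -/
def Mk (P a b x : ℕ) : Prop :=
  ∃ i j, 1 < i ∧ 1 < j ∧ i * j < P ∧ x = i * j ∧ (i < a ∨ (i = a ∧ j < b))

variable {P a b x : ℕ}

theorem mk_init : ¬ Mk P 0 0 x := by
  rintro ⟨i, j, -, -, -, -, h⟩
  omega

theorem mk_row : Mk P (a + 1) 0 x ↔ Mk P a P x := by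
  constructor <;> rintro ⟨i, j, h1, h2, h3, h4, h5⟩ <;> refine ⟨i, j, h1, h2, h3, h4, ?_⟩
  · have : j < P := by nlinarith
    omega
  · omega

theorem mk_succ : Mk P a (b + 1) x ↔ Mk P a b x ∨ (1 < a ∧ 1 < b ∧ a * b < P ∧ x = a * b) := by
  constructor
  · rintro ⟨i, j, h1, h2, h3, h4, h5⟩
    by_cases h : i = a ∧ j = b
    · obtain ⟨rfl, rfl⟩ := h
      exact Or.inr ⟨h1, h2, h3, h4⟩
    · exact Or.inl ⟨i, j, h1, h2, h3, h4, by omega⟩
  · rintro (⟨i, j, h1, h2, h3, h4, h5⟩ | ⟨h1, h2, h3, h4⟩)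
    · exact ⟨i, j, h1, h2, h3, h4, by omega⟩
    · exact ⟨a, b, h1, h2, h3, h4, by omega⟩

theorem mk_end (hx : x < P) (h1 : 1 < x) : Mk P P 0 x ↔ ¬ x.Prime := by
  constructor
  · rintro ⟨i, j, h2, h3, -, rfl, -⟩
    exact Nat.not_prime_mul (by omega) (by omega)
  · intro h
    obtain ⟨i, ⟨j, rfl⟩, h2, h3⟩ := Nat.exists_dvd_of_not_prime2 h1 h
    refine ⟨i, j, h2, ?_, hx, rfl, Or.inl (by omega)⟩
    by_contra h4
    have : i * j ≤ i * 1 := Nat.mul_le_mul_left _ (by omega)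
    omega

theorem lim {E : Env} {c : Cx} (hB : Bnd c E) : c.P * c.P ≤ E.Lim ∧ c.P ≤ E.Lim := by
  have h1 := hB.lP
  have h2 := c.P_pos
  have h3 : c.P ≤ c.P * c.P := Nat.le_mul_of_pos_left _ h2
  have h4 : c.P * c.P ≤ 2 * c.P * (c.P * c.P) := Nat.le_mul_of_pos_left _ (by omega)
  omega

end PrimeP

open PrimeP

theorem sSieve : SSieve := by
  intro E c hB σ t hP h0
  have hbig := hB.big
  have hpos := c.P_pos
  obtain ⟨hl1, hl2⟩ := lim hB
  refine wp_for c.P (c.P * 4 + 2) (fun a σ' => ∀ x, σ'.bank 0 x ≠ 0 ↔ Mk c.P a 0 x) [34] [0] false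
    (by decide) (by decide) (by decide) (by decide) hP.P (by omega) (by omega)
    (by simp [h0, mk_init]) ?_ fun σ' t' _ hI ht =>
      ⟨fun x hx h1 => by rw [← not_iff_not, ← mk_end hx h1]; exact hI x, ht⟩
  intro a σ' t' ha hF hi hI
  have hP' := hP.frame hF (by decide)
  refine wp_for c.P 2 (fun b σ₂ => ∀ x, σ₂.bank 0 x ≠ 0 ↔ Mk c.P a b x) [] [0] false
    (by decide) (by decide) (by decide) (by decide) hP'.P (by omega) (by omega) hI ?_
    fun σ₂ t₂ _ hI₂ ht₂ => ⟨fun x => (hI₂ x).trans mk_row.symm, by omega⟩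
  intro b σ₂ t₂ hb hF₂ hj hI₂
  have h33 : σ₂.var 33 = a := (hF₂.var 33 (by decide)).trans hi
  have h5 : σ₂.var 5 = c.P := (hF₂.var 5 (by decide)).trans hP'.P
  have hab : a * b < c.P * c.P := Nat.mul_lt_mul'' ha hb
  simp only [wp_ite, wp_st, wp_skip, Expr.safe, Expr.eval, BOp.safe, BOp.eval, h33, h5, hj,
    St.setv_bank, St.setm_bank, if_true, mk_succ, true_and, and_true]
  refine ⟨by omega, fun h => ?_, fun h => ⟨fun x => ?_, by omega⟩⟩
  · have h1 : 1 < a ∧ 1 < b ∧ a * b < c.P := by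
      split_ifs at h <;> simp_all
    refine ⟨by omega, by omega, by omega, fun x => ?_, by omega⟩
    rw [Function.update_apply]
    split_ifs with hx
    · simp [h1, hx]
    · simp only [hx, and_false, or_false]
      exact hI₂ x
  · have h1 : ¬ (1 < a ∧ 1 < b ∧ a * b < c.P) := by
      rintro ⟨h1, h2, h3⟩
      simp [h1, h2, h3] at h
    rw [hI₂ x]
    tauto

theorem sPrimes : SPrimes := by
  intro E c hB σ t hP h0
  have hbig := hB.big
  have hpos := c.P_pos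
  obtain ⟨-, hl2⟩ := lim hB
  unfold pPrimes
  simp only [wp_blk_cons, wp_set, wp_blk_nil, Expr.safe, Expr.eval]
  refine ⟨by omega, ?_⟩
  refine wp_for c.P 3 (fun m σ' => σ'.var 35 = Nat.count Nat.Prime m ∧
    ∀ i < Nat.count Nat.Prime m, σ'.bank 1 i = Nat.nth Nat.Prime i) [35] [1] false
    (by decide) (by decide) (by decide) (by decide) (by simp [hP.P]) (by omega) (by omega)
    (by simp) ?_ fun σ' t' _ hI ht => ⟨fun i hi => hI.2 i
      ((Nat.lt_nth_iff_count_lt Nat.infinite_setOfPred_prime).2 hi), by omega⟩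
  intro m σ' t' hm hF hi ⟨h1, h2⟩
  have hb : σ'.bank 0 = σ.bank 0 := hF.bank 0 (by decide)
  have hc : Nat.count Nat.Prime m ≤ m := Nat.count_le _
  rw [wp_ite]
  simp only [Expr.safe, Expr.eval, BOp.safe, BOp.eval, hi, hb, true_and, and_true]
  refine ⟨by omega, fun h => ?_, fun h => ?_⟩
  · have h3 : m.Prime := by
      refine (h0 m hm ?_).1 ?_ <;> split_ifs at h <;> simp_all
    simp only [wp_blk_cons, wp_set, wp_st, wp_blk_nil]
    simp [h1, hi, Nat.count_succ, h3]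
    refine ⟨by omega, by omega, fun i hi => ?_⟩
    rw [Function.update_apply]
    split_ifs with h4
    · rw [h4, Nat.nth_count h3]
    · exact h2 i (by omega)
  · have h3 : ¬ m.Prime := fun h3 => by
      simp [h3.one_lt, (h0 m hm h3.one_lt).2 h3] at h
    simp [Nat.count_succ, h3, h1]
    exact h2

theorem sPick : SPick := by
  intro E c hB σ t hP r hr h19 h1
  have hbig := hB.big
  obtain ⟨-, hl2⟩ := lim hB
  have hok := hB.nm.pr_ok hr
  have hle : ∀ i, i ≤ Nat.nth Nat.Prime i := fun i =>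
    (Nat.nth_strictMono Nat.infinite_setOfPred_prime).le_apply
  have e1 : Nat.nth Nat.Prime (r % c.R1) < c.P := hok.l1
  have e2 : Nat.nth Nat.Prime (r / c.R1 % c.R1) < c.P := hok.l2
  have e3 : Nat.nth Nat.Prime (r / (c.R1 * c.R1)) < c.P := hok.l3.trans_le hB.nm.DP
  have e4 : c.ρ + c.ρ < E.W := by
    have := hB.nm.sA
    have := hB.lAb
    unfold Cx.ρ
    omega
  have f1 := hle (r % c.R1)
  have f2 := hle (r / c.R1 % c.R1)
  have f3 := hle (r / (c.R1 * c.R1))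
  unfold pPick
  simp only [wp_blk_cons, wp_set, wp_blk_nil]
  simp [h19, hP.R1, hP.ρ, c.and_R1, c.shr_R1, c.shr_RR, h1 _ e1, h1 _ e2, h1 _ e3, Cx.pr]
  omega

end Pool.Agent.P.MP_8f87b2_lc.PL
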