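import Pool.Agent.P.MP_8f87b2_lc.PL.Spec

/-!
# Most random words give good moduli
-/

namespace Pool.Agent.P.MP_8f87b2_lc.PL

open Finset

namespace ProbP

/-- the prime number `r` -/
noncomputable abbrev pq (r : ℕ) : ℤ := (Nat.nth Nat.Prime r : ℕ)

theorem dv_le (R : ℕ) {A : ℕ} {x : ℤ} (h0 : x ≠ 0) (hx : |x| < 2 ^ A) :
    ((range R).filter fun r => pq r ∣ x).card ≤ A := by
  have h1 : x.natAbs ≠ 0 := Int.natAbs_ne_zero.2 h0
  have h2 : ((range R).filter fun r => pq r ∣ x).card ≤ x.natAbs.primeFactors.card := by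
    refine card_le_card_of_injOn (Nat.nth Nat.Prime) (fun r hr => ?_)
      (Nat.nth_injective Nat.infinite_setOfPred_prime).injOn
    exact mem_coe.2 (Nat.mem_primeFactors.2 ⟨Nat.prime_nth_prime r,
      Int.natCast_dvd.1 (mem_filter.1 (mem_coe.1 hr)).2, h1⟩)
  have h3 : 2 ^ x.natAbs.primeFactors.card ≤ x.natAbs :=
    (pow_card_le_prod _ (fun p => p) 2 fun p hp =>
      (Nat.prime_of_mem_primeFactors hp).two_le).trans
      (Nat.le_of_dvd (Nat.pos_of_ne_zero h1) (Nat.prod_primeFactors_dvd _))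
  have h4 : x.natAbs < 2 ^ A := by
    rw [← Int.natCast_natAbs] at hx
    exact_mod_cast hx
  exact h2.trans ((Nat.pow_lt_pow_iff_right one_lt_two).1 (h3.trans_lt h4)).le

theorem count {α β : Type} (P : Finset α) (Q : Finset β) (bad : α → β → Prop) (Bp : α → Prop)
    [∀ x, DecidablePred (bad x)] [DecidablePred Bp]
    (h1 : 20 * (P.filter Bp).card ≤ 3 * P.card)
    (h2 : ∀ x ∈ P, ¬ Bp x → 20 * (Q.filter (bad x)).card ≤ Q.card) :
    5 * ((P ×ˢ Q).filter fun t => bad t.1 t.2).card ≤ P.card * Q.card := by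
  have e : ((P ×ˢ Q).filter fun t => bad t.1 t.2).card = ∑ x ∈ P, (Q.filter (bad x)).card := by
    simp only [card_filter, sum_product]
  have h3 : 20 * ∑ x ∈ P, (Q.filter (bad x)).card ≤
      ∑ x ∈ P, (Q.card + if Bp x then 20 * Q.card else 0) := by
    rw [mul_sum]
    refine sum_le_sum fun x hx => ?_
    split_ifs with h
    · have := card_filter_le Q (bad x)
      omega
    · exact h2 x hx h
  rw [sum_add_distrib, ← sum_filter, sum_const, sum_const, smul_eq_mul, smul_eq_mul] at h3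
  have h4 := Nat.mul_le_mul_right Q.card h1
  rw [e]
  nlinarith

/-- the other values that have the same residues as `a₀` -/
noncomputable def cl (Y : Finset ℤ) (a₀ : ℤ) (x : ℕ × ℕ) : Finset ℤ :=
  Y.filter fun a => a ≠ a₀ ∧ pq x.1 ∣ a - a₀ ∧ pq x.2 ∣ a - a₀

theorem markov (R g : ℕ) {A : ℕ} (Y : Finset ℤ) (a₀ : ℤ) (h : ∀ a ∈ Y, |a - a₀| < 2 ^ A) :
    ((range R ×ˢ range R).filter fun x => g < (cl Y a₀ x).card).card * g ≤ Y.card * (A * A) := by
  have h1 : ∑ x ∈ range R ×ˢ range R, (cl Y a₀ x).card ≤ Y.card * (A * A) := by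
    simp only [cl, card_filter]
    rw [sum_comm, ← smul_eq_mul, ← sum_const]
    refine sum_le_sum fun a ha => ?_
    by_cases e : a = a₀
    · simp [e]
    · have h2 := dv_le R (sub_ne_zero.2 e) (h a ha)
      rw [← card_filter]
      refine (card_le_card (t := ((range R).filter fun r => pq r ∣ a - a₀) ×ˢ
        ((range R).filter fun r => pq r ∣ a - a₀)) fun x hx => ?_).trans ?_
      · simp only [mem_filter, mem_product] at hx ⊢
        tauto
      · rw [card_product]
        exact Nat.mul_le_mul h2 h2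
  refine le_trans ?_ h1
  rw [← smul_eq_mul, ← sum_const]
  exact (sum_le_sum fun x hx => (mem_filter.1 hx).2.le).trans
    (sum_le_sum_of_subset (filter_subset _ _))

theorem cls_dvd {c : Cx} {π : Pr} (h : π.OK c) {a a' : ℤ} (e : c.cls π a = c.cls π a') :
    (π.q1 : ℤ) ∣ a - a' ∧ (π.q2 : ℤ) ∣ a - a' := by
  have h1 := (res_lt h.p1.pos a).trans h.l1
  have h2 := (res_lt h.p1.pos a').trans h.l1
  unfold Cx.cls at e
  have e1 : res π.q1 a = res π.q1 a' := by
    have := congrArg (· % c.P) e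
    simpa [Nat.mod_eq_of_lt h1, Nat.mod_eq_of_lt h2] using this
  have e2 : res π.q2 a = res π.q2 a' :=
    Nat.eq_of_mul_eq_mul_left c.P_pos (by rw [e1] at e; exact Nat.add_left_cancel e)
  constructor
  · exact ((res_modEq h.p1.pos a').symm.trans (e1 ▸ res_modEq h.p1.pos a)).dvd
  · exact ((res_modEq h.p2.pos a').symm.trans (e2 ▸ res_modEq h.p2.pos a)).dvd

theorem diff_lt {c : Cx} (h : Nm c) (d d' : ℕ) : |c.y d - c.y d'| < 2 ^ c.Ab := by
  have h1 := abs_sub (c.y d) (c.y d')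
  have h2 := h.yV d
  have h3 := h.yV d'
  have h4 : ((c.P + 1) * c.V : ℤ) < 2 ^ c.Ab := by exact_mod_cast h.lV
  have h5 : (1 : ℤ) ≤ c.P := by exact_mod_cast c.P_pos
  have h6 : (0 : ℤ) ≤ c.V := by positivity
  nlinarith

end ProbP

open ProbP

theorem sGood : SGood := by
  classical
  intro c h z i hi i' hi' i'' hi'' h0
  have hA : 1 ≤ c.Ab := by have := h.sA; have := h.s1; omega
  have hH : ∀ d d', |c.H z (c.y d) (c.y d') (c.yc i'')| < 2 ^ c.Ab := fun d d' => by
    obtain ⟨a1, a2⟩ := h.hH z _ _ (c.yc i'') (h.yV d) (h.yV d') (h.yV _)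
    rwa [abs_of_nonneg a1]
  set g : ℕ := 20 * (c.Ab * c.Ab) * 2 ^ (54 * c.s) with hg
  set Ya := (range c.n).image c.ya with hYa
  set Yb := (range c.n).image c.yb with hYb
  set H0 := c.H z (c.ya 0) (c.yb 0) (c.yc i'') with hH0
  have hn : c.n ≤ c.R1 * c.R1 * 2 ^ (54 * c.s) := by
    refine h.nb.le.trans (le_of_eq ?_)
    rw [Cx.b, Cx.lb, Cx.R1, Cx.ρ, ← pow_add, ← pow_add]
    congr 1
    ring
  have mk : ∀ (y : ℕ → ℤ) (j : ℕ), (∀ a b, |y a - y b| < 2 ^ c.Ab) →
      20 * ((range c.R1 ×ˢ range c.R1).filter fun x =>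
        g < (cl ((range c.n).image y) (y j) x).card).card ≤ c.R1 * c.R1 := fun y j hy => by
    have h1 := markov c.R1 g ((range c.n).image y) (y j) fun a ha => by
      obtain ⟨b, -, rfl⟩ := mem_image.1 ha
      exact hy _ _
    have h2 : ((range c.n).image y).card ≤ c.R1 * c.R1 * 2 ^ (54 * c.s) :=
      card_image_le.trans ((card_range _).le.trans hn)
    have h3 := h1.trans (Nat.mul_le_mul_right _ h2)
    refine Nat.le_of_mul_le_mul_right (c := c.Ab * c.Ab * 2 ^ (54 * c.s)) ?_ (by positivity)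
    calc _ = _ * g := by rw [hg]; ring
      _ ≤ _ := h3
      _ = _ := by ring
  have hR1 : 40 * c.Ab ≤ c.R1 := by
    have h1 : c.Ab ≤ c.Ab ^ 5 := Nat.le_self_pow (by norm_num) _
    have h2 : 2 ^ c.s ≤ c.R1 := Nat.pow_le_pow_right two_pos (by unfold Cx.ρ; omega)
    have := h.big
    omega
  have hR2 : 20 * ((g + 1) * (g + 1) * c.Ab) ≤ c.R2 := by
    have h1 : 1 ≤ c.Ab * c.Ab * 2 ^ (54 * c.s) := Nat.succ_le_of_lt (by positivity)
    have h2 : g + 1 ≤ 21 * (c.Ab * c.Ab * 2 ^ (54 * c.s)) := by rw [hg, mul_assoc]; omega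
    calc _ ≤ 20 * (21 * (c.Ab * c.Ab * 2 ^ (54 * c.s)) * (21 * (c.Ab * c.Ab * 2 ^ (54 * c.s))) *
          c.Ab) := by gcongr
      _ = 8820 * c.Ab ^ 5 * (2 ^ (54 * c.s) * 2 ^ (54 * c.s)) := by ring
      _ ≤ 2 ^ c.s * (2 ^ (54 * c.s) * 2 ^ (54 * c.s)) := Nat.mul_le_mul_right _ h.big
      _ = c.R2 := by
        rw [Cx.R2, ← pow_add, ← pow_add]
        congr 1
        ring
  have key := count (range c.R1 ×ˢ range c.R1) (range c.R2)
    (fun x r => ¬ c.Good z i i' i'' ⟨Nat.nth Nat.Prime x.1, Nat.nth Nat.Prime x.2,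
      Nat.nth Nat.Prime r⟩)
    (fun x => (pq x.1 ∣ H0 ∨ pq x.2 ∣ H0) ∨ g < (cl Ya (c.ya i) x).card ∨
      g < (cl Yb (c.yb i') x).card) ?_ ?_
  · have h1 : ((range (2 ^ c.k1)).filter fun r => ¬ c.Good z i i' i'' (c.pr r)).card ≤
        (((range c.R1 ×ˢ range c.R1) ×ˢ range c.R2).filter fun t =>
          ¬ c.Good z i i' i'' ⟨Nat.nth Nat.Prime t.1.1, Nat.nth Nat.Prime t.1.2,
            Nat.nth Nat.Prime t.2⟩).card := by
      refine card_le_card_of_injOn (fun r => ((r % c.R1, r / c.R1 % c.R1), r / (c.R1 * c.R1)))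
        (fun r hr => ?_) fun r _ r' _ e => ?_
      · obtain ⟨a1, a2⟩ := mem_filter.1 (mem_coe.1 hr)
        refine mem_coe.2 (mem_filter.2 ⟨?_, a2⟩)
        simp only [mem_product, mem_range] at a1 ⊢
        refine ⟨⟨Nat.mod_lt _ c.R1_pos, Nat.mod_lt _ c.R1_pos⟩, ?_⟩
        rwa [Nat.div_lt_iff_lt_mul (Nat.mul_pos c.R1_pos c.R1_pos), mul_comm, ← c.RW]
      · simp only [Prod.mk.injEq, ← Nat.div_div_eq_div_mul] at e
        rw [← Nat.mod_add_div r c.R1, ← Nat.mod_add_div r' c.R1, ← Nat.mod_add_div (r / c.R1) c.R1,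
          ← Nat.mod_add_div (r' / c.R1) c.R1, e.1.1, e.1.2, e.2]
    have h2 := card_filter_add_card_filter_not (s := range (2 ^ c.k1))
      fun r => c.Good z i i' i'' (c.pr r)
    rw [card_product, card_range, card_range, ← c.RW] at key
    rw [card_range] at h2
    have h3 := (Nat.mul_le_mul_left 5 h1).trans key
    omega
  · have h1 := dv_le c.R1 h0 (hH _ _)
    have h2 : ((range c.R1 ×ˢ range c.R1).filter fun x => pq x.1 ∣ H0).card ≤ c.Ab * c.R1 := by
      rw [filter_product_left (fun r => pq r ∣ H0), card_product, card_range]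
      exact Nat.mul_le_mul_right _ h1
    have h3 : ((range c.R1 ×ˢ range c.R1).filter fun x => pq x.2 ∣ H0).card ≤ c.R1 * c.Ab := by
      rw [filter_product_right (fun r => pq r ∣ H0), card_product, card_range]
      exact Nat.mul_le_mul_left _ h1
    have h4 := mk c.ya i fun a b => diff_lt h _ _
    have h5 := mk c.yb i' fun a b => diff_lt h _ _
    have h6 := Nat.mul_le_mul_right c.R1 hR1
    rw [filter_or, filter_or, filter_or, card_product, card_range]
    have h7 := card_union_le ((range c.R1 ×ˢ range c.R1).filter fun x => pq x.1 ∣ H0)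
      ((range c.R1 ×ˢ range c.R1).filter fun x => pq x.2 ∣ H0)
    have h8 := card_union_le ((range c.R1 ×ˢ range c.R1).filter fun x =>
      g < (cl Ya (c.ya i) x).card) ((range c.R1 ×ˢ range c.R1).filter fun x =>
      g < (cl Yb (c.yb i') x).card)
    refine (Nat.mul_le_mul_left 20 ((card_union_le _ _).trans (Nat.add_le_add h7 h8))).trans ?_
    nlinarith
  · intro x hx hb
    simp only [not_or, not_lt] at hb
    obtain ⟨⟨b1, b2⟩, b3, b4⟩ := hb
    obtain ⟨x1, x2⟩ := mem_product.1 hx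
    rw [card_range]
    refine le_trans (Nat.mul_le_mul_left 20 ?_) hR2
    let S := ((insert (c.ya i) (cl Ya (c.ya i) x)) ×ˢ (insert (c.yb i') (cl Yb (c.yb i') x))).filter
      fun p => c.H z p.1 p.2 (c.yc i'') ≠ 0
    have h1 : S.card ≤ (g + 1) * (g + 1) := by
      refine (card_filter_le _ _).trans ?_
      rw [card_product]
      exact Nat.mul_le_mul ((card_insert_le _ _).trans (by omega))
        ((card_insert_le _ _).trans (by omega))
    refine (card_le_card (t := S.biUnion fun p => (range c.R2).filter fun r =>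
      pq r ∣ c.H z p.1 p.2 (c.yc i'')) fun r hr => ?_).trans
      ((card_biUnion_le_card_mul _ _ c.Ab fun p hp => ?_).trans (Nat.mul_le_mul_right _ h1))
    · obtain ⟨r1, r2⟩ := mem_filter.1 hr
      have ok : Pr.OK ⟨Nat.nth Nat.Prime x.1, Nat.nth Nat.Prime x.2, Nat.nth Nat.Prime r⟩ c :=
        ⟨Nat.prime_nth_prime _, Nat.prime_nth_prime _, Nat.prime_nth_prime _,
          h.pi1 _ (mem_range.1 x1), h.pi1 _ (mem_range.1 x2), h.pi2 _ (mem_range.1 r1)⟩
      by_contra hc
      refine r2 ⟨b1, b2, fun j hj j' hj' e e' hd => ?_⟩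
      by_contra hz
      refine hc (mem_biUnion.2 ⟨(c.ya j, c.yb j'), mem_filter.2 ⟨mem_product.2 ⟨?_, ?_⟩, hz⟩,
        mem_filter.2 ⟨r1, hd⟩⟩)
      · by_cases e1 : c.ya j = c.ya i
        · exact mem_insert.2 (Or.inl e1)
        · exact mem_insert_of_mem (mem_filter.2
            ⟨mem_image_of_mem _ (mem_range.2 hj), e1, cls_dvd ok e⟩)
      · by_cases e1 : c.yb j' = c.yb i'
        · exact mem_insert.2 (Or.inl e1)
        · exact mem_insert_of_mem (mem_filter.2
            ⟨mem_image_of_mem _ (mem_range.2 hj'), e1, cls_dvd ok e'⟩)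
    · obtain ⟨p1, p2⟩ := mem_filter.1 hp
      obtain ⟨p3, p4⟩ := mem_product.1 p1
      obtain ⟨d, e⟩ : ∃ d, p.1 = c.y d := by
        rcases mem_insert.1 p3 with e | e
        · exact ⟨_, e⟩
        · obtain ⟨b, -, e⟩ := mem_image.1 (mem_filter.1 e).1
          exact ⟨_, e.symm⟩
      obtain ⟨d', e'⟩ : ∃ d, p.2 = c.y d := by
        rcases mem_insert.1 p4 with e | e
        · exact ⟨_, e⟩
        · obtain ⟨b, -, e⟩ := mem_image.1 (mem_filter.1 e).1
          exact ⟨_, e.symm⟩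
      exact dv_le _ p2 (by rw [e, e']; exact hH d d')

end Pool.Agent.P.MP_8f87b2_lc.PL
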