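import Pool.Agent.P.MP_8f87b2_lc.PL.Spec

/-!
# The value at an output string is the moment
-/

namespace Pool.Agent.P.MP_8f87b2_lc.PL

open Finset

namespace RootP

theorem cnt_add_mul (l w k : ℕ) : cnt l (w + k * 65536 ^ l) = cnt l w := by
  unfold cnt
  congr 1
  exact filter_congr fun t ht => by rw [dig_add_mul (mem_range.mp ht)]

variable {c : Cx}

theorem put_zero {g w γ p : ℕ} (a : ℤ) (hw : w < c.A) (h : cnt c.l p ≠ cnt c.l w) :
    c.put g w a (γ * c.A + p) = 0 := by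
  refine sum_eq_zero fun ε _ => if_neg fun e => h ?_
  have h1 : p % c.A = w := by
    have := congrArg (· % c.A) e
    simpa [Nat.mod_eq_of_lt hw] using this
  have h2 : p = w + p / c.A * 65536 ^ c.l := by
    rw [← h1]
    exact (Nat.mod_add_div' p c.A).symm
  rw [h2, cnt_add_mul]

theorem addr {A g g' u u' : ℕ} (hu : u < A) (hu' : u' < A) :
    g * A + u = g' * A + u' ↔ g = g' ∧ u = u' := by
  refine ⟨fun e => ?_, fun ⟨h1, h2⟩ => by rw [h1, h2]⟩
  have h1 : u = u' := by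
    have := congrArg (· % A) e
    simpa [Nat.mod_eq_of_lt hu, Nat.mod_eq_of_lt hu'] using this
  subst h1
  exact ⟨Nat.eq_of_mul_eq_mul_right (by omega) (Nat.add_right_cancel e), rfl⟩

theorem put_eq {j j₀ ε w u : ℕ} (a : ℤ) (hε : ε < c.e) (hw : w < c.A) (hu : u < c.A) :
    c.put (j₀ * c.e) w a ((j * c.e + ε) * c.A + u) = if j₀ = j ∧ u = w then a ^ ε else 0 := by
  unfold Cx.put
  rw [sum_eq_single_of_mem ε (mem_range.mpr hε) fun ε' h' hne => if_neg fun e =>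
    hne ((addr hε (mem_range.mp h')).1 ((addr hu hw).1 e).1).2.symm]
  refine if_congr ?_ rfl rfl
  rw [addr hu hw, addr hε hε]
  exact ⟨fun h => ⟨h.1.1.symm, h.2⟩, fun h => ⟨⟨h.1.symm, rfl⟩, h.2⟩⟩

theorem core (h : SEmb) {μ p L L' L₁ L₂ β' : ℕ} (hL : L < 32768 ^ (31 * μ))
    (hL' : L' < 32768 ^ (31 * μ)) (h1 : L₁ < 32768 ^ (31 * μ)) (h2 : L₂ < 32768 ^ (31 * μ))
    (hp : p < 2 ^ μ) (hβ : β' < p) (Dv : ℕ → Prop) [DecidablePred Dv] (c₁ c₂ : Prop)
    [Decidable c₁] [Decidable c₂] (a b : ℤ) :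
    ∑ S ∈ (range (62 * μ)).powersetCard (31 * μ),
      (∑ β ∈ range p, if Dv β then ∑ κ ∈ range (32768 ^ μ),
        (if c₁ ∧ msk (62 * μ) S (eO μ L L') = uX μ L₁ κ β then a else 0) else 0) *
      (∑ κ ∈ range (32768 ^ μ),
        if c₂ ∧ msk (62 * μ) (range (62 * μ) \ S) (eO μ L L') = vY μ L₂ κ β' then b else 0) =
      if (c₁ ∧ L₁ = L) ∧ (c₂ ∧ L₂ = L') ∧ Dv β' then a * b else 0 := by
  by_cases k1 : c₁
  swap
  · simp [k1]
  by_cases k2 : c₂
  swap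
  · simp [k2]
  have hd : ∀ {x : ℕ}, x < 32768 ^ (31 * μ) → x / 32768 ^ (30 * μ) < 32768 ^ μ := fun hx => by
    rw [Nat.div_lt_iff_lt_mul (by positivity), ← pow_add, show μ + 30 * μ = 31 * μ by ring]
    exact hx
  have e1 : ∀ S : Finset ℕ, (∑ β ∈ range p, if Dv β then ∑ κ ∈ range (32768 ^ μ),
        (if c₁ ∧ msk (62 * μ) S (eO μ L L') = uX μ L₁ κ β then a else 0) else 0) *
      (∑ κ ∈ range (32768 ^ μ),
        if c₂ ∧ msk (62 * μ) (range (62 * μ) \ S) (eO μ L L') = vY μ L₂ κ β' then b else 0) =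
      ∑ β ∈ range p, ∑ κ₂ ∈ range (32768 ^ μ), ∑ κ₁ ∈ range (32768 ^ μ),
        (if Dv β then a * b else 0) * if msk (62 * μ) S (eO μ L L') = uX μ L₁ κ₂ β ∧
          msk (62 * μ) (range (62 * μ) \ S) (eO μ L L') = vY μ L₂ κ₁ β' then 1 else 0 := by
    intro S
    rw [sum_mul]
    refine sum_congr rfl fun β _ => ?_
    by_cases hD : Dv β
    · rw [if_pos hD, if_pos hD, sum_mul_sum]
      refine sum_congr rfl fun κ₂ _ => sum_congr rfl fun κ₁ _ => ?_
      by_cases a1 : msk (62 * μ) S (eO μ L L') = uX μ L₁ κ₂ β <;>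
        by_cases a2 : msk (62 * μ) (range (62 * μ) \ S) (eO μ L L') = vY μ L₂ κ₁ β' <;>
        simp [k1, k2, a1, a2]
    · simp [hD]
  have e2 : ∀ β ∈ range p, ∑ S ∈ (range (62 * μ)).powersetCard (31 * μ),
      ∑ κ₂ ∈ range (32768 ^ μ), ∑ κ₁ ∈ range (32768 ^ μ),
        ((if Dv β then a * b else 0) * if msk (62 * μ) S (eO μ L L') = uX μ L₁ κ₂ β ∧
          msk (62 * μ) (range (62 * μ) \ S) (eO μ L L') = vY μ L₂ κ₁ β' then 1 else 0) =
      if β = β' then (if L₁ = L ∧ L₂ = L' ∧ Dv β then a * b else 0) else 0 := by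
    intro β hb
    have e3 : ∀ κ₂ ∈ range (32768 ^ μ), ∑ S ∈ (range (62 * μ)).powersetCard (31 * μ),
        ∑ κ₁ ∈ range (32768 ^ μ),
          ((if Dv β then a * b else 0) * if msk (62 * μ) S (eO μ L L') = uX μ L₁ κ₂ β ∧
            msk (62 * μ) (range (62 * μ) \ S) (eO μ L L') = vY μ L₂ κ₁ β' then 1 else 0) =
        ∑ κ₁ ∈ range (32768 ^ μ), (if Dv β then a * b else 0) *
          if L₁ = L ∧ L₂ = L' ∧ κ₁ = L / 32768 ^ (30 * μ) ∧ κ₂ = L' / 32768 ^ (30 * μ) ∧ β = β'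
            then 1 else 0 := by
      intro κ₂ hκ₂
      rw [sum_comm]
      refine sum_congr rfl fun κ₁ hκ₁ => ?_
      rw [← mul_sum, sum_boole, ((h μ).2.2 L hL L' hL').2.2.2 L₁ h1 L₂ h2 κ₁ (mem_range.mp hκ₁) κ₂
        (mem_range.mp hκ₂) β ((mem_range.mp hb).trans hp) β' (hβ.trans hp)]
      simp
    rw [sum_comm, sum_congr rfl e3,
      sum_eq_single_of_mem _ (mem_range.mpr (hd hL')) fun κ _ hκ => by simp [hκ],
      sum_eq_single_of_mem _ (mem_range.mpr (hd hL)) fun κ _ hκ => by simp [hκ]]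
    by_cases a1 : L₁ = L <;> by_cases a2 : L₂ = L' <;> by_cases a3 : β = β' <;> simp [a1, a2, a3]
  rw [sum_congr rfl fun S _ => e1 S, sum_comm, sum_congr rfl e2, sum_ite_eq',
    if_pos (mem_range.mpr hβ)]
  simp [k1, k2]

theorem TT_zero (h : SEmb) (π : Pr) (z r γ p : ℕ) (hp : cnt c.l p ≠ 31 * c.μ) :
    c.TT π z r (γ * c.A + p) = 0 := by
  unfold Cx.TT
  rw [sum_eq_zero, sum_eq_zero, add_zero]
  · intro i _
    exact sum_eq_zero fun κ _ => put_zero _ (vY_lt _ _ _ _)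
      (hp.trans_eq ((h c.μ).2.1 _ _ _).symm)
  · intro i _
    refine sum_eq_zero fun β _ => ?_
    split_ifs
    · exact sum_eq_zero fun κ _ => put_zero _ (uX_lt _ _ _ _)
        (hp.trans_eq ((h c.μ).1 _ _ _).symm)
    · rfl

theorem TT_X (π : Pr) (z r : ℕ) {j ε u : ℕ} (hj : j < c.G) (hε : ε < c.e) (hu : u < c.A) :
    c.TT π z r ((j * c.e + ε) * c.A + u) = ∑ i ∈ range c.n, ∑ β ∈ range π.p,
      if (π.p : ℤ) ∣ c.H z (res π.p (c.ya i)) β r then ∑ κ ∈ range (32768 ^ c.μ),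
        (if c.cls π (c.ya i) / c.NG = j ∧ u = uX c.μ (c.cls π (c.ya i) % c.NG) κ β
          then c.ya i ^ ε else 0) else 0 := by
  unfold Cx.TT
  rw [sum_eq_zero (f := fun i => c.TY π i _), add_zero]
  · refine sum_congr rfl fun i _ => sum_congr rfl fun β _ => if_congr Iff.rfl ?_ rfl
    exact sum_congr rfl fun κ _ => put_eq _ hε (uX_lt _ _ _ _) hu
  · intro i _
    refine sum_eq_zero fun κ _ => ?_
    rw [Cx.GE, ← add_mul, put_eq _ hε (vY_lt _ _ _ _) hu,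
      if_neg fun e => (hj.trans_le (Nat.le_add_right _ _)).ne' e.1]

theorem TT_Y {π : Pr} (hπ : π.OK c) (z r : ℕ) {j ε u : ℕ} (hε : ε < c.e) (hu : u < c.A) :
    c.TT π z r ((c.GE + (j * c.e + ε)) * c.A + u) = ∑ i ∈ range c.n, ∑ κ ∈ range (32768 ^ c.μ),
      if c.cls π (c.yb i) / c.NG = j ∧
        u = vY c.μ (c.cls π (c.yb i) % c.NG) κ (res π.p (c.yb i)) then c.yb i ^ ε else 0 := by
  unfold Cx.TT
  rw [show c.GE + (j * c.e + ε) = (c.G + j) * c.e + ε by rw [Cx.GE]; ring,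
    sum_eq_zero (f := fun i => c.TX π z r i _), zero_add]
  · refine sum_congr rfl fun i _ => sum_congr rfl fun κ _ => ?_
    rw [Cx.GE, ← add_mul, put_eq _ hε (vY_lt _ _ _ _) hu]
    exact if_congr (and_congr_left' (Nat.add_right_inj)) rfl rfl
  · intro i _
    refine sum_eq_zero fun β _ => ?_
    split_ifs
    · refine sum_eq_zero fun κ _ => ?_
      have := c.div_NG_lt (hπ.cls_lt (c.ya i))
      rw [put_eq _ hε (uX_lt _ _ _ _) hu, if_neg fun e => by omega]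
    · rfl

theorem eq_iff {N a x : ℕ} : a / N = x / N ∧ a % N = x % N ↔ a = x :=
  ⟨fun h => by rw [← Nat.div_add_mod a N, h.1, h.2, Nat.div_add_mod], fun h => by simp [h]⟩

end RootP

open RootP

theorem sRoot (h : SEmb) : SRoot := by
  intro c π hπ z r x hx y _ ε hε ε' hε'
  have hL : ∀ a, a % c.NG < 32768 ^ (31 * c.μ) := fun a => Nat.mod_lt _ c.NG_pos
  obtain ⟨o1, o2, -⟩ := (h c.μ).2.2 _ (hL x) _ (hL y)
  refine (zval_eq (fun u => c.TT π z r ((x / c.NG * c.e + ε) * c.A + u))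
    (fun u => c.TT π z r ((c.GE + (y / c.NG * c.e + ε')) * c.A + u)) c.t0 c.l_two o1 o2
    (fun p hp => TT_zero h π z r _ p hp) fun p hp => TT_zero h π z r _ p hp).trans ?_
  rw [sum_congr rfl fun S _ => by
    rw [TT_X π z r (c.div_NG_lt hx) hε (msk_lt _ _ _), TT_Y hπ z r hε' (msk_lt _ _ _),
      sum_mul_sum], sum_comm]
  refine sum_congr rfl fun i _ => ?_
  rw [sum_comm]
  refine sum_congr rfl fun i' _ => ?_
  refine (core h (hL x) (hL y) (hL _) (hL _) hπ.l3 (res_lt hπ.p3.pos _)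
    (fun β => (π.p : ℤ) ∣ c.H z (res π.p (c.ya i)) β r) _ _ _ _).trans ?_
  exact if_congr (by rw [eq_iff, eq_iff]; rfl) rfl rfl

end Pool.Agent.P.MP_8f87b2_lc.PL
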