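import Pool.Agent.P.MP_8f87b2_lc.PL.Spec

/-!
# The root lists
-/

namespace Pool.Agent.P.MP_8f87b2_lc.PL

open Finset

namespace RootsP

/-- the elements of `R` that come before `(x, y)` -/
def bef (R : Finset (ℕ × ℕ)) (x y : ℕ) : Finset (ℕ × ℕ) :=
  R.filter fun p => p.1 < x ∨ (p.1 = x ∧ p.2 < y)

/-- the elements of `S` are stored from address `b` on -/
def Sto (b q : ℕ) (S : Finset (ℕ × ℕ)) (B0 B1 : ℕ → ℕ) (σ : St) : Prop :=
  σ.var 35 = S.card ∧ (∀ t < S.card, σ.bank 10 (b + t) < q ∧ σ.bank 11 (b + t) < q) ∧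
    (∀ p ∈ S, ∃ t < S.card, σ.bank 10 (b + t) = p.1 ∧ σ.bank 11 (b + t) = p.2) ∧
    ∀ a < b, σ.bank 10 a = B0 a ∧ σ.bank 11 a = B1 a

variable {E : Env} {c : Cx} {π : Pr} {z b q x y u : ℕ} {R S : Finset (ℕ × ℕ)} {B0 B1 : ℕ → ℕ}

theorem Sto.frame {σ σ' : St} {vs bs : List ℕ} {r : Bool} (h : Sto b q S B0 B1 σ)
    (hF : Frame vs bs r σ σ') (hv : 35 ∉ vs) (h0 : 10 ∉ bs) (h1 : 11 ∉ bs) :
    Sto b q S B0 B1 σ' := by
  unfold Sto
  rw [hF.var 35 hv, hF.bank 10 h0, hF.bank 11 h1]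
  exact h

theorem bef_no (h : (x, y) ∉ R) : bef R x (y + 1) = bef R x y := by
  refine filter_congr fun p hp => ?_
  have : ¬ (p.1 = x ∧ p.2 = y) := fun e => h (by rw [← e.1, ← e.2]; exact hp)
  omega

theorem bef_not (R : Finset (ℕ × ℕ)) (x y : ℕ) : (x, y) ∉ bef R x y := by simp [bef]

theorem bef_yes (h : (x, y) ∈ R) : bef R x (y + 1) = insert (x, y) (bef R x y) := by
  ext p
  simp only [bef, mem_filter, mem_insert, Prod.ext_iff]
  constructor
  · rintro ⟨h1, h2⟩
    by_cases e : p.1 = x ∧ p.2 = y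
    · exact Or.inl e
    · exact Or.inr ⟨h1, by omega⟩
  · rintro (⟨h1, h2⟩ | ⟨h1, h2⟩)
    · exact ⟨by rw [← h1, ← h2] at h; exact h, by omega⟩
    · exact ⟨h1, by omega⟩

theorem mem_rt {p : ℕ × ℕ} : p ∈ c.rt z q u ↔
    (p.1 < q ∧ p.2 < q) ∧ (q : ℤ) ∣ c.H z p.1 p.2 u := by
  simp [Cx.rt, roots, Cx.H]

theorem bef_row : bef (c.rt z q u) x q = bef (c.rt z q u) (x + 1) 0 := by
  refine filter_congr fun p hp => ?_
  have := (mem_rt.1 hp).1
  omega

theorem bef_zero (R : Finset (ℕ × ℕ)) : bef R 0 0 = ∅ := by simp [bef]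

theorem bef_all : bef (c.rt z q u) q 0 = c.rt z q u :=
  filter_true_of_mem fun _ hp => Or.inl (mem_rt.1 hp).1.1

theorem card_rt (hq : q ≤ c.P) : (c.rt z q u).card ≤ c.P * c.P := by
  refine (card_filter_le _ _).trans ?_
  rw [card_product, card_range]
  exact Nat.mul_le_mul hq hq

/-- the body of the innermost loop -/
def pCell (T : List Trm) : Stmt := blk [pDiv T, .ite (.v 62) .skip (blk
  [.st 10 (eadd (.v 41) (.v 35)) (.v 64), .st 11 (eadd (.v 41) (.v 35)) (.v 65),
    .set 35 (einc 35)])]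

theorem cell (h : SDiv) (hB : Bnd c E) {σ : St} {t : ℕ} (hT : Tup c E π z σ)
    (h64 : σ.var 64 = x) (h65 : σ.var 65 = y) (h66 : σ.var 66 = u) (h61 : σ.var 61 = q)
    (h41 : σ.var 41 = b) (hx : x < q) (hy : y < q) (hu : u < q) (hq : q ≤ c.P)
    (hb : b + c.P * c.P ≤ E.Lim) (hS : Sto b q (bef (c.rt z q u) x y) B0 B1 σ) :
    WP E (pCell c.T) (fun σ' t' => Sto b q (bef (c.rt z q u) x (y + 1)) B0 B1 σ' ∧
      t' ≤ t + (c.tDiv + 4)) σ t := by
  have hbig := hB.big
  unfold pCell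
  rw [wp_blk_cons]
  refine (h hB hT h64 h65 h66 h61 (by omega) (by omega) (by omega) (by omega) hq).call
    [60, 62, 63] [] false (by decide : (pDiv []).Within [60, 62, 63] [] false) ?_
  rintro σ₁ t₁ hF ⟨h1, h2⟩
  have hS₁ := hS.frame hF (by decide) (by decide) (by decide)
  rw [wp_blk_cons]
  by_cases h0 : σ₁.var 62 = 0
  · have hm : (x, y) ∈ c.rt z q u := mem_rt.2 ⟨⟨hx, hy⟩, h1.1 h0⟩
    have hc : (bef (c.rt z q u) x y).card < c.P * c.P :=
      (card_lt_card ⟨filter_subset _ _, fun hh => bef_not _ x y (hh hm)⟩).trans_le (card_rt hq)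
    have g64 : σ₁.var 64 = x := (hF.var 64 (by decide)).trans h64
    have g65 : σ₁.var 65 = y := (hF.var 65 (by decide)).trans h65
    have g41 : σ₁.var 41 = b := (hF.var 41 (by decide)).trans h41
    obtain ⟨s1, s2, s3, s4⟩ := hS₁
    refine wp_iteF (by simp) h0 ?_
    rw [bef_yes hm]
    unfold Sto
    rw [card_insert_of_notMem (bef_not _ x y)]
    generalize (bef (c.rt z q u) x y) = S at *
    simp only [wp_blk_cons, wp_st, wp_set, wp_blk_nil]
    simp only [Expr.eval, BOp.eval, Expr.safe, BOp.safe, St.setm_var, St.setm_bank, St.setv_var,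
      St.setv_bank, g64, g65, g41, s1, if_true, true_and, Nat.reduceEqDiff, if_false]
    refine ⟨by omega, by omega, by omega, by omega, ⟨by omega, by omega⟩,
      ⟨fun j hj => ?_, fun p hp => ?_, fun a ha => ?_⟩, by omega⟩
    · simp only [Function.update_apply]
      split_ifs with e
      · exact ⟨hx, hy⟩
      · exact s2 j (by omega)
    · rcases mem_insert.1 hp with rfl | hp
      · exact ⟨S.card, by omega, by simp, by simp⟩
      · obtain ⟨j, hj, e⟩ := s3 p hp
        refine ⟨j, by omega, ?_⟩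
        rw [Function.update_of_ne (by omega), Function.update_of_ne (by omega)]
        exact e
    · rw [Function.update_of_ne (by omega), Function.update_of_ne (by omega)]
      exact s4 a ha
  · refine wp_iteT (by simp) h0 ?_
    rw [wp_skip, wp_blk_nil, bef_no fun hm => h0 (h1.2 (mem_rt.1 hm).2)]
    exact ⟨hS₁, by omega⟩

theorem P_lt (hB : Bnd c E) : c.P < E.W ∧ 1 < E.W := by
  have h1 := hB.big
  have h2 := hB.lP
  have h3 := c.P_pos
  have h4 : c.P ≤ 2 * c.P * (c.P * c.P) := by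
    have : 1 ≤ c.P * c.P := Nat.mul_pos h3 h3
    nlinarith
  omega

theorem row (h : SDiv) (hB : Bnd c E) {σ : St} {t : ℕ} (hT : Tup c E π z σ)
    (h64 : σ.var 64 = x) (h66 : σ.var 66 = u) (h61 : σ.var 61 = q)
    (h41 : σ.var 41 = b) (hx : x < q) (hu : u < q) (hq : q ≤ c.P)
    (hb : b + c.P * c.P ≤ E.Lim) (hS : Sto b q (bef (c.rt z q u) x 0) B0 B1 σ) :
    WP E (forL 65 61 (pCell c.T)) (fun σ' t' => Sto b q (bef (c.rt z q u) (x + 1) 0) B0 B1 σ' ∧
      t' ≤ t + (c.P * (c.tDiv + 6) + 2)) σ t := by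
  have hP := P_lt hB
  refine wp_for (i := 65) (body := pCell c.T) q (c.tDiv + 4) (fun y σ' => Sto b q (bef (c.rt z q u) x y) B0 B1 σ')
    [60, 62, 63, 35] [10, 11] false (by decide : (pCell []).Within [60, 62, 63, 35] [10, 11] false)
    (by decide) (by decide) (by decide) h61 (by omega) hP.2
    (hS.frame (frame_setv _ _ _) (by decide) (by decide) (by decide)) ?_ ?_
  · intro y σ' t' hy hF hi hI
    refine (cell h hB (hT.frame hF (by decide) (by decide)) ((hF.var 64 (by decide)).trans h64) hi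
      ((hF.var 66 (by decide)).trans h66) ((hF.var 61 (by decide)).trans h61)
      ((hF.var 41 (by decide)).trans h41) hx hy hu hq hb hI).mono fun σ₂ t₂ h2 => ?_
    exact ⟨h2.1.frame (frame_setv _ _ _) (by decide) (by decide) (by decide), h2.2⟩
  · intro σ' t' _ hI ht
    rw [← bef_row]
    have := Nat.mul_le_mul_right (c.tDiv + 4 + 2) hq
    exact ⟨hI, by simp only [Nat.add_assoc, Nat.reduceAdd] at *; omega⟩

theorem sq (h : SDiv) (hB : Bnd c E) {σ : St} {t : ℕ} (hT : Tup c E π z σ)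
    (h66 : σ.var 66 = u) (h61 : σ.var 61 = q) (h41 : σ.var 41 = b) (h35 : σ.var 35 = 0)
    (hu : u < q) (hq : q ≤ c.P) (hb : b + c.P * c.P ≤ E.Lim) :
    WP E (forL 64 61 (forL 65 61 (pCell c.T))) (fun σ' t' =>
      Sto b q (c.rt z q u) (σ.bank 10) (σ.bank 11) σ' ∧
      t' ≤ t + (c.P * (c.P * (c.tDiv + 6) + 4) + 2)) σ t := by
  have hP := P_lt hB
  refine wp_for (i := 64) (body := forL 65 61 (pCell c.T)) q (c.P * (c.tDiv + 6) + 2)
    (fun x σ' => Sto b q (bef (c.rt z q u) x 0) (σ.bank 10) (σ.bank 11) σ')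
    [65, 60, 62, 63, 35] [10, 11] false
    (by decide : (forL 65 61 (pCell [])).Within [65, 60, 62, 63, 35] [10, 11] false)
    (by decide) (by decide) (by decide) h61 (by omega) hP.2 (by simp [bef_zero, Sto, h35]) ?_ ?_
  · intro x σ' t' hx hF hi hI
    refine (row h hB (hT.frame hF (by decide) (by decide)) hi
      ((hF.var 66 (by decide)).trans h66) ((hF.var 61 (by decide)).trans h61)
      ((hF.var 41 (by decide)).trans h41) hx hu hq hb hI).mono fun σ₂ t₂ h2 => ?_
    exact ⟨h2.1.frame (frame_setv _ _ _) (by decide) (by decide) (by decide), h2.2⟩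
  · intro σ' t' _ hI ht
    rw [bef_all] at hI
    have := Nat.mul_le_mul_right (c.P * (c.tDiv + 6) + 2 + 2) hq
    exact ⟨hI, by simp only [Nat.add_assoc, Nat.reduceAdd] at *; omega⟩

/-- the body of the outer loop -/
def pLst (T : List Trm) : Stmt := blk
  [.set 35 (.c 0), .set 41 (emul (eadd (.v 40) (.v 66)) (.v 77)),
    forL 64 61 (forL 65 61 (pCell T)), .st 12 (eadd (.v 40) (.v 66)) (.v 35)]

end RootsP

open RootsP in
theorem sRoots (h : SDiv) : SRoots := by
  intro E c hB σ t π z hT o q h40 h61 ho hq0 hq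
  have hP := P_lt hB
  have hbig := hB.big
  have hlP := hB.lP
  have hPP : 1 ≤ c.P * c.P := Nat.mul_pos c.P_pos c.P_pos
  change WP E (forL 66 61 (pLst c.T)) _ σ t
  refine wp_for (i := 66) (body := pLst c.T) q (c.P * (c.P * (c.tDiv + 6) + 4) + 5)
    (fun k σ' => (∀ u < k, LstAt c (o + u) q (c.rt z q u) σ') ∧
      (∀ a < o, σ'.bank 12 a = σ.bank 12 a) ∧
      ∀ a < o * (c.P * c.P), σ'.bank 10 a = σ.bank 10 a ∧ σ'.bank 11 a = σ.bank 11 a)
    [35, 41, 64, 65, 60, 62, 63] [10, 11, 12] false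
    (by decide : (pLst []).Within [35, 41, 64, 65, 60, 62, 63] [10, 11, 12] false)
    (by decide) (by decide) (by decide) h61 (by omega) hP.2 (by simp) ?_ ?_
  · intro u σ' t' hu hF hi ⟨i1, i2, i3⟩
    have hT' := hT.frame hF (by decide) (by decide)
    have g40 : σ'.var 40 = o := (hF.var 40 (by decide)).trans h40
    have g61 : σ'.var 61 = q := (hF.var 61 (by decide)).trans h61
    have g77 := hT'.pre.par.PP
    have hb : (o + u) * (c.P * c.P) + c.P * c.P ≤ E.Lim := by
      refine le_trans ?_ hlP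
      rw [← Nat.succ_mul]
      exact Nat.mul_le_mul_right _ (by omega)
    have hb2 : o + u ≤ (o + u) * (c.P * c.P) := Nat.le_mul_of_pos_right _ hPP
    unfold pLst
    rw [wp_blk_cons, wp_set]
    refine ⟨by simp; omega, ?_⟩
    rw [wp_blk_cons, wp_set]
    refine ⟨by simp [g40, g77, hi]; omega, ?_⟩
    rw [wp_blk_cons]
    have hF₁ : Frame [41, 35] [] false σ' ((σ'.setv 35 ((Expr.c 0).eval E σ')).setv 41
        ((emul (eadd (.v 40) (.v 66)) (.v 77)).eval E (σ'.setv 35 ((Expr.c 0).eval E σ')))) :=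
      ((Frame.refl _ _ _ _).of_setv (by simp)).of_setv (by simp)
    refine (sq (b := (o + u) * (c.P * c.P)) h hB (hT'.frame hF₁ (by decide) (by decide))
      ((hF₁.var 66 (by decide)).trans hi) ((hF₁.var 61 (by decide)).trans g61)
      (by simp [g40, g77, hi]) (by simp) hu hq hb).call [64, 65, 60, 62, 63, 35] [10, 11] false
      (by decide : (forL 64 61 (forL 65 61 (pCell []))).Within [64, 65, 60, 62, 63, 35] [10, 11]
        false) ?_
    rintro σ₂ t₂ hF₂ ⟨⟨s1, s2, s3, s4⟩, ht₂⟩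
    have k40 : σ₂.var 40 = o := ((hF₂.var 40 (by decide)).trans (hF₁.var 40 (by decide))).trans g40
    have k66 : σ₂.var 66 = u := ((hF₂.var 66 (by decide)).trans (hF₁.var 66 (by decide))).trans hi
    have k12 : σ₂.bank 12 = σ'.bank 12 := hF₂.bank 12 (by decide)
    simp only [St.setv_bank] at s4
    simp only [wp_blk_cons, wp_st, wp_blk_nil, LstAt]
    simp only [Expr.eval, BOp.eval, Expr.safe, BOp.safe, St.setm_bank, St.setv_bank, k40, k66, s1,
      k12, if_true, true_and, Nat.reduceEqDiff, if_false]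
    refine ⟨by omega, by omega, ⟨fun v hv => ?_, fun a ha => ?_, fun a ha => ?_⟩, by omega⟩
    · rcases Nat.lt_succ_iff_lt_or_eq.1 hv with hv | rfl
      · obtain ⟨j1, j2, j3⟩ := i1 v hv
        have hc := card_rt (z := z) (u := v) hq
        have hl : ∀ j < (c.rt z q v).card, (o + v) * (c.P * c.P) + j < (o + u) * (c.P * c.P) :=
          fun j hj => mul_add_lt (by omega) (by omega)
        refine ⟨by rw [Function.update_of_ne (by omega)]; exact j1, fun j hj => ?_, fun p hp => ?_⟩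
        · rw [(s4 _ (hl j hj)).1, (s4 _ (hl j hj)).2]
          exact j2 j hj
        · obtain ⟨j, hj, e⟩ := j3 p hp
          exact ⟨j, hj, by rw [(s4 _ (hl j hj)).1, (s4 _ (hl j hj)).2]; exact e⟩
      · exact ⟨by simp, s2, s3⟩
    · rw [Function.update_of_ne (by omega)]
      exact i2 a ha
    · have : a < (o + u) * (c.P * c.P) := ha.trans_le (Nat.mul_le_mul_right _ (by omega))
      rw [(s4 a this).1, (s4 a this).2]
      exact i3 a ha
  · intro σ' t' _ ⟨i1, i2, i3⟩ ht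
    have := Nat.mul_le_mul_right (c.P * (c.P * (c.tDiv + 6) + 4) + 5 + 2) hq
    refine ⟨i1, i2, i3, ?_⟩
    unfold Cx.tRoots
    simp only [Nat.add_assoc, Nat.reduceAdd] at *
    omega

end Pool.Agent.P.MP_8f87b2_lc.PL
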