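import Pool.Agent.P.MP_8f87b2_lc.PL.Base

/-!
# A polynomial that is not zero modulo a prime at some point has few roots
-/

namespace Pool.Agent.P.MP_8f87b2_lc.PL

open Finset

namespace SZP

/-- the polynomial `∑ c τ * X ^ e τ` modulo `q` -/
noncomputable def pol (q : ℕ) (T : List Trm) (c : Trm → ℤ) (e : Trm → ℕ) :
    Polynomial (ZMod q) :=
  (T.map fun τ => Polynomial.C ((c τ : ℤ) : ZMod q) * Polynomial.X ^ e τ).sum

theorem pol_natDegree (q : ℕ) (T : List Trm) (c : Trm → ℤ) (e : Trm → ℕ) (E : ℕ)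
    (h : ∀ τ ∈ T, e τ ≤ E) : (pol q T c e).natDegree ≤ E := by
  unfold pol
  induction T with
  | nil => simp
  | cons τ T ih =>
    rw [List.map_cons, List.sum_cons]
    refine (Polynomial.natDegree_add_le _ _).trans (max_le ?_ ?_)
    · exact (Polynomial.natDegree_C_mul_X_pow_le _ _).trans (h τ (by simp))
    · exact ih fun σ hσ => h σ (by simp [hσ])

theorem eval_x (q : ℕ) (w : ℕ → ℤ) (T : List Trm) (x y z : ℤ) :
    (pol q T (fun τ => τ.co w * y ^ τ.j * z ^ τ.k) fun τ => τ.i).eval (x : ZMod q) =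
      ((Hv w T x y z : ℤ) : ZMod q) := by
  unfold pol Hv
  induction T with
  | nil => simp [tsum_nil]
  | cons τ T ih =>
    rw [List.map_cons, List.sum_cons, Polynomial.eval_add, ih, tsum_cons]
    simp only [Polynomial.eval_mul, Polynomial.eval_C, Polynomial.eval_pow, Polynomial.eval_X]
    push_cast
    ring

theorem eval_y (q : ℕ) (w : ℕ → ℤ) (T : List Trm) (x y z : ℤ) :
    (pol q T (fun τ => τ.co w * x ^ τ.i * z ^ τ.k) fun τ => τ.j).eval (y : ZMod q) =
      ((Hv w T x y z : ℤ) : ZMod q) := by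
  unfold pol Hv
  induction T with
  | nil => simp [tsum_nil]
  | cons τ T ih =>
    rw [List.map_cons, List.sum_cons, Polynomial.eval_add, ih, tsum_cons]
    simp only [Polynomial.eval_mul, Polynomial.eval_C, Polynomial.eval_pow, Polynomial.eval_X]
    push_cast
    ring

/-- a function given by a nonzero polynomial of degree at most `E` has at most `E` roots -/
theorem card_le {q E : ℕ} (hq : q.Prime) (p : Polynomial (ZMod q)) (hp : p.natDegree ≤ E)
    (f : ℤ → ℤ) (hf : ∀ x : ℤ, p.eval (x : ZMod q) = ((f x : ℤ) : ZMod q)) (x₀ : ℤ)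
    (h₀ : ¬ (q : ℤ) ∣ f x₀) :
    ((range q).filter fun a : ℕ => (q : ℤ) ∣ f a).card ≤ E := by
  classical
  have : Fact q.Prime := ⟨hq⟩
  have hp0 : p ≠ 0 := by
    intro h
    apply h₀
    rw [← ZMod.intCast_zmod_eq_zero_iff_dvd, ← hf, h, Polynomial.eval_zero]
  refine le_trans ?_ ((Multiset.toFinset_card_le p.roots).trans
    ((Polynomial.card_roots' p).trans hp))
  refine card_le_card_of_injOn (fun a : ℕ => (a : ZMod q)) ?_ ?_
  · intro a ha
    have ha' := (mem_filter.1 (mem_coe.1 ha)).2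
    rw [mem_coe, Multiset.mem_toFinset, Polynomial.mem_roots hp0, Polynomial.IsRoot.def]
    have h := hf (a : ℤ)
    rw [Int.cast_natCast] at h
    rw [h, ZMod.intCast_zmod_eq_zero_iff_dvd]
    exact ha'
  · intro a ha b hb hab
    have ha' := mem_range.1 (mem_filter.1 (mem_coe.1 ha)).1
    have hb' := mem_range.1 (mem_filter.1 (mem_coe.1 hb)).1
    have h := (ZMod.natCast_eq_natCast_iff' a b q).1 hab
    rwa [Nat.mod_eq_of_lt ha', Nat.mod_eq_of_lt hb'] at h

end SZP

theorem sSZ : SSZ := by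
  classical
  intro w T E q hE hq x y z h
  have hq0 : 0 < q := hq.pos
  set z' : ℕ := res q z with hz'
  have h' : ¬ (q : ℤ) ∣ Hv w T x y z' := by
    rwa [(Hv_modEq w T (Int.ModEq.refl x) (Int.ModEq.refl y) (res_modEq hq0 z)).dvd_iff]
  have hA : ((range q).filter fun a : ℕ => (q : ℤ) ∣ Hv w T a y z').card ≤ E :=
    SZP.card_le hq _ (SZP.pol_natDegree q T _ _ E fun τ hτ => (hE τ hτ).1.le)
      (fun t => Hv w T t y z') (fun t => SZP.eval_x q w T t y z') x h'
  have hB : ∀ a : ℕ, ¬ (q : ℤ) ∣ Hv w T a y z' →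
      ((range q).filter fun b : ℕ => (q : ℤ) ∣ Hv w T a b z').card ≤ E := fun a ha =>
    SZP.card_le hq _ (SZP.pol_natDegree q T _ _ E fun τ hτ => (hE τ hτ).2.le)
      (fun t => Hv w T a t z') (fun t => SZP.eval_y q w T a t z') y ha
  have e : (roots w T q z').card =
      ∑ a ∈ range q, ((range q).filter fun b : ℕ => (q : ℤ) ∣ Hv w T a b z').card := by
    unfold roots
    simp only [card_filter, sum_product]
  rw [e]
  calc ∑ a ∈ range q, ((range q).filter fun b : ℕ => (q : ℤ) ∣ Hv w T a b z').card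
      ≤ ∑ a ∈ range q, ((if (q : ℤ) ∣ Hv w T a y z' then 1 else 0) * q + E) := by
        refine sum_le_sum fun a _ => ?_
        split_ifs with ha
        · have := card_filter_le (range q) fun b : ℕ => (q : ℤ) ∣ Hv w T a b z'
          rw [card_range] at this
          omega
        · have := hB a ha
          omega
    _ = ((range q).filter fun a : ℕ => (q : ℤ) ∣ Hv w T a y z').card * q + q * E := by
        rw [sum_add_distrib, ← sum_mul, card_filter, sum_const, card_range, smul_eq_mul]
    _ ≤ 2 * E * q := by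
        have := Nat.mul_le_mul_right q hA
        nlinarith

end Pool.Agent.P.MP_8f87b2_lc.PL
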