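import Pool.Agent.P.MP_8f87b2_lc.PL.Spec

/-!
# Computing the parameters, the preparation, and the specification of the whole program
-/

namespace Pool.Agent.P.MP_8f87b2_lc.PL

open Finset

namespace SetupP

variable {E : Env} {c : Cx}

theorem pConst_spec (K : Kc) (h1 : K.d < E.W) (h2 : K.e < E.W) (h3 : K.v < E.W)
    (h4 : K.a < E.W) (h5 : K.s0 < E.W) {σ : St} {t : ℕ} :
    WP E (pConst K) (fun σ' t' => σ'.var 24 = K.d ∧ σ'.var 13 = K.e ∧ σ'.var 83 = K.v ∧
      σ'.var 84 = K.a ∧ σ'.var 2 = K.s0 ∧ t' ≤ t + 5) σ t := by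
  unfold pConst
  simp only [wp_blk_cons, wp_set, wp_blk_nil, Expr.safe, Expr.eval, St.setv_var,
    Nat.reduceEqDiff, if_true, if_false, true_and, h1, h2, h3, h4, h5]
  omega

/-- the first loop finds the length of the lists -/
theorem pLen_spec (hn1 : 0 < E.n1) (hin : E.inp 0 = (c.d + 3) * c.n)
    (hl : (c.d + 3) * c.n < E.W) (hd : c.d + 3 < E.W) {σ : St} {t : ℕ} (h24 : σ.var 24 = c.d)
    (h1 : σ.var 1 = 0) :
    WP E (.wh (elt (emul (eadd (.v 24) (.c 3)) (.v 1)) (.inp (.c 0))) (.set 1 (einc 1)))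
      (fun σ' t' => σ'.var 1 = c.n ∧ t' ≤ t + 2 * c.n + 1) σ t := by
  refine wp_while (fun σ' t' => ∃ i, i ≤ c.n ∧ σ'.var 1 = i ∧ σ'.var 24 = c.d ∧
      t' ≤ t + 2 * i) (fun σ' => c.n - σ'.var 1) [1] [] false
    (by simp [Stmt.Within, Stmt.wv, Stmt.wb, Stmt.rd]) ⟨0, by simp [h1, h24]⟩ ?_
  rintro σ' t' - ⟨i, i1, v1, v24, ht⟩
  have hm : (c.d + 3) * i ≤ (c.d + 3) * c.n := Nat.mul_le_mul_left _ i1
  have hn : 3 * c.n ≤ (c.d + 3) * c.n := Nat.mul_le_mul_right _ (by omega)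
  have he : (elt (emul (eadd (.v 24) (.c 3)) (.v 1)) (.inp (.c 0))).eval E σ' =
      if (c.d + 3) * i < (c.d + 3) * c.n then 1 else 0 := by
    simp only [Expr.eval, BOp.eval, v1, v24, hin]
  rw [he]
  refine ⟨?_, fun hc => ?_, fun hc => ?_⟩
  · simp only [Expr.safe, Expr.eval, BOp.safe, BOp.eval, v1, v24, true_and, and_true]
    omega
  · have hlt : i < c.n := by
      by_contra h
      obtain rfl : i = c.n := by omega
      simp at hc
    simp only [wp_set, Expr.safe, Expr.eval, BOp.safe, BOp.eval, St.setv_var, Nat.reduceEqDiff,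
      if_true, if_false, true_and, v1, v24]
    exact ⟨by omega, ⟨i + 1, hlt, rfl, by omega⟩, by omega⟩
  · have : i = c.n := by
      by_contra h
      have h' : (c.d + 3) * i < (c.d + 3) * c.n :=
        Nat.mul_lt_mul_of_pos_left (by omega) (by omega)
      simp [h'] at hc
    exact ⟨v1.trans this, by omega⟩

/-- the second loop finds the scale -/
theorem pScale_spec (hS : Sz c) (hl : 58032 * c.s + 58032 < E.W) {σ : St} {t : ℕ}
    (h1 : σ.var 1 = c.n) (h2 : σ.var 2 = c.s0) :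
    WP E (.wh (eshr (.v 1) (emul (.c 58032) (.v 2))) (.set 2 (einc 2)))
      (fun σ' t' => σ'.var 2 = c.s ∧ t' ≤ t + 2 * c.s + 1) σ t := by
  have hs1 := hS.s1
  refine wp_while (fun σ' t' => ∃ i, c.s0 ≤ i ∧ i ≤ c.s ∧ σ'.var 1 = c.n ∧ σ'.var 2 = i ∧
      t' ≤ t + 2 * i) (fun σ' => c.s - σ'.var 2) [2] [] false
    (by simp [Stmt.Within, Stmt.wv, Stmt.wb, Stmt.rd]) ⟨c.s0, by simp [hs1, h1, h2]⟩ ?_
  rintro σ' t' - ⟨i, i1, i2, v1, v2, ht⟩
  have he : (eshr (.v 1) (emul (.c 58032) (.v 2))).eval E σ' = c.n / 2 ^ (58032 * i) := by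
    simp only [Expr.eval, BOp.eval, v1, v2, Nat.shiftRight_eq_div_pow]
  rw [he]
  refine ⟨?_, fun hc => ?_, fun hc => ?_⟩
  · simp only [Expr.safe, Expr.eval, BOp.safe, v2, true_and, and_true]
    omega
  · have hlt : i < c.s := by
      by_contra h
      obtain rfl : i = c.s := by omega
      exact hc (Nat.div_eq_of_lt hS.nN)
    simp only [wp_set, Expr.safe, Expr.eval, BOp.safe, BOp.eval, St.setv_var, Nat.reduceEqDiff,
      if_true, if_false, true_and, v1, v2]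
    exact ⟨by omega, ⟨i + 1, by omega, hlt, rfl, by omega⟩, by omega⟩
  · have : i = c.s := by
      by_contra h
      exact (Nat.div_pos (hS.smin i i1 (by omega)) (by positivity)).ne' hc
    exact ⟨v2.trans this, by omega⟩

theorem pSize_spec (hS : Sz c) (hn1 : 0 < E.n1) (hin : E.inp 0 = (c.d + 3) * c.n)
    (hl : (c.d + 3) * c.n < E.W) (hd : c.d + 3 < E.W) (hs : 58032 * c.s + 58032 < E.W)
    {σ : St} {t : ℕ} (h24 : σ.var 24 = c.d) (h2 : σ.var 2 = c.s0) :
    WP E pSize (fun σ' t' => σ'.var 1 = c.n ∧ σ'.var 2 = c.s ∧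
      t' ≤ t + 2 * c.n + 2 * c.s + 3) σ t := by
  unfold pSize
  rw [wp_blk_cons, wp_set]
  refine ⟨by simp only [Expr.safe]; omega, ?_⟩
  rw [wp_blk_cons]
  refine (pLen_spec hn1 hin hl hd (by simp [h24]) (by simp)).call [1] [] false (by decide) ?_
  rintro σ₁ t₁ F₁ ⟨a1, ht₁⟩
  rw [wp_blk_cons]
  refine (pScale_spec hS hs a1 (by rw [F₁.var 2 (by decide)]; simp [h2])).call [2] [] false
    (by decide) ?_
  rintro σ₂ t₂ F₂ ⟨a2, ht₂⟩
  rw [wp_blk_nil]
  exact ⟨(F₂.var 1 (by decide)).trans a1, a2, by omega⟩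

theorem pDbl_spec {e : ℕ} {σ : St} {t : ℕ} (h9 : σ.var 9 = e) (h10 : σ.var 10 = 1)
    (hW : 2 * 2 ^ e < E.W) :
    WP E (forL 30 9 (.set 10 (edbl 10))) (fun σ' t' => σ'.var 10 = 2 ^ e ∧
      t' ≤ t + 3 * e + 2) σ t := by
  have h1 : e < 2 ^ e := Nat.lt_two_pow_self
  refine wp_for e 1 (fun k σ' => σ'.var 10 = 2 ^ k) [10] [] false (by decide) (by decide)
    (by decide) (by decide) h9 (by omega) (by omega) (by simp [h10])
    (fun k σ' t' hk _ _ hI => ?_) fun σ' t' _ hI ht => ⟨hI, by omega⟩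
  have h4 : 2 ^ k ≤ 2 ^ e := Nat.pow_le_pow_right (by norm_num) hk.le
  simp only [wp_set, Expr.safe, Expr.eval, BOp.safe, BOp.eval, St.setv_var, Nat.reduceEqDiff,
    if_false, if_true, true_and, hI, pow_succ]
  exact ⟨by omega, by omega, le_rfl⟩

theorem setup (hS : Sz c) (hB : Bnd c E) (hin : E.inp 0 = (c.d + 3) * c.n) {σ : St} {t : ℕ} :
    WP E (.seq (pConst c.toKc) pSetup)
      (fun σ' t' => Par c σ' ∧ t' ≤ t + (2 * c.n + 10 * c.Ab)) σ t := by
  have s1 := hB.nm.s1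
  have s0 := hS.s1
  have sA := hB.nm.sA
  have eA : 4 * c.e ≤ c.Ab := le_trans (Nat.le_add_left _ _) hB.nm.eA
  have dA := hB.nm.dA
  have bA := hB.nm.bA
  have vA := hB.nm.vA
  have eAb : c.a * c.s = c.Ab := rfl
  have elb : 58032 * c.s = c.lb := rfl
  have aA : c.a ≤ c.Ab := Nat.le_mul_of_pos_right _ s1
  have vA' : c.v ≤ c.Ab := le_trans (Nat.le_mul_of_pos_right _ (by omega)) vA
  have big := hB.big
  have lAb := hB.lAb
  have lT := hB.lT
  have lZ := hB.lZ
  have lGA := hB.lGA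
  have ln := hB.ln
  have ln3 : (c.d + 3) * c.n ≤ (c.d + 10) * c.n := Nat.mul_le_mul_right _ (by omega)
  have ln4 : 3 * c.n ≤ (c.d + 3) * c.n := Nat.mul_le_mul_right _ (by omega)
  have lGE : 2 * c.GE ≤ 2 * c.GE * c.A := Nat.le_mul_of_pos_right _ c.A_pos
  have lPP : c.P * c.P ≤ E.Lim :=
    le_trans (Nat.le_mul_of_pos_left _ (by have := c.P_pos; omega)) hB.lP
  have w1 : 2 ^ c.Ab >>> (c.Ab - c.lb) = c.b := c.epw_eq (by omega)
  have w2 : 2 ^ c.Ab >>> (c.Ab - c.lb * c.d) = c.NT := by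
    rw [c.epw_eq bA, pow_mul]; rfl
  have w3 : 2 ^ c.Ab >>> (c.Ab - c.v * c.lb) = c.V := c.epw_eq vA
  have w4 : 2 ^ c.Ab >>> (c.Ab - 109120 * c.s) = c.A := by rw [c.epw_eq (by omega), c.A_eq]
  have w5 : 2 ^ c.Ab >>> (c.Ab - 28990 * c.s) = c.P := c.epw_eq (by omega)
  have w6 : 2 ^ c.Ab >>> (c.Ab - 6830 * c.s) = c.G := c.epw_eq (by omega)
  have w7 : 2 ^ c.Ab >>> (c.Ab - 58087 * c.s) = 2 ^ c.k1 := c.epw_eq (by omega)
  have w8 : 2 ^ c.Ab >>> (c.Ab - 49500 * c.s) = c.N1 := by rw [c.epw_eq (by omega), c.N1_eq]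
  have w9 : 2 ^ c.Ab >>> (c.Ab - 51150 * c.s) = c.NG := by rw [c.epw_eq (by omega), c.NG_eq]
  have w10 : 2 ^ c.Ab >>> (c.Ab - 1650 * c.s) = c.K1 := by rw [c.epw_eq (by omega), c.K1_eq]
  have w11 : 2 ^ c.Ab >>> (c.Ab - 3410 * c.s) = 2 ^ c.m := by rw [c.epw_eq (by omega), c.m_eq]
  have w12 : 2 ^ c.Ab >>> (c.Ab - 28989 * c.s) = c.R1 := c.epw_eq (by omega)
  have eG : c.G * c.e = c.GE := rfl
  have eZ : 2 * c.e * c.P = c.Z := rfl
  have e2 : c.GE + c.GE = 2 * c.GE := by omega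
  have bp := c.b_pos
  have N1p := c.N1_pos
  have NGp := c.NG_pos
  have R1p := c.R1_pos
  have mp : 0 < 2 ^ c.m := by positivity
  rw [wp_seq]
  refine (pConst_spec c.toKc (by omega) (by omega) (by omega) (by omega) (by omega)).mono ?_
  rintro σ₀ t₀ ⟨a24, a13, a83, a84, a2, ht₀⟩
  unfold pSetup
  rw [wp_blk_cons]
  refine (pSize_spec hS (by rw [hB.n1]; omega) hin (by omega) (by omega) (by omega) a24
    a2).call [1, 2] [] false (by decide) ?_
  rintro σ₁ t₁ F₁ ⟨a1, b2, ht₁⟩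
  replace a24 := (F₁.var 24 (by decide)).trans a24
  replace a13 := (F₁.var 13 (by decide)).trans a13
  replace a83 := (F₁.var 83 (by decide)).trans a83
  replace a84 := (F₁.var 84 (by decide)).trans a84
  clear a2
  rw [wp_blk_cons, wp_set]
  refine ⟨by simp only [Expr.safe, Expr.eval, BOp.safe, a84, b2, true_and]; omega, ?_⟩
  rw [wp_blk_cons, wp_set]
  refine ⟨by simp only [Expr.safe]; omega, ?_⟩
  simp only [Expr.eval, BOp.eval, a84, b2, eAb]
  rw [wp_blk_cons]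
  refine (pDbl_spec (e := c.Ab) (by simp) (by simp) (by omega)).call [30, 10] [] false
    (by decide) ?_
  rintro σ₂ t₂ F₂ ⟨a10, ht₂⟩
  have a9 : σ₂.var 9 = c.Ab := by rw [F₂.var 9 (by decide)]; simp
  have fr : ∀ x, x ∉ [30, 10, 9] → σ₂.var x = σ₁.var x := fun x hx => by
    simp only [List.mem_cons, List.not_mem_nil, or_false, not_or] at hx
    rw [F₂.var x (by simp [hx.1, hx.2.1])]
    simp [hx.2.1, hx.2.2]
  replace a1 := (fr 1 (by decide)).trans a1
  replace b2 := (fr 2 (by decide)).trans b2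
  replace a24 := (fr 24 (by decide)).trans a24
  replace a13 := (fr 13 (by decide)).trans a13
  replace a83 := (fr 83 (by decide)).trans a83
  clear fr F₂ F₁ a84
  simp only [wp_blk_cons, wp_blk_nil, wp_set, Expr.safe, Expr.eval, BOp.safe, BOp.eval,
    St.setv_var, Nat.reduceEqDiff, if_true, if_false, true_and, and_true, b2, a1, a9, a10, a13,
    a24, a83, elb, w1, w2, w3, w4, w5, w6, w7, w8, w9, w10, w11, w12, eG, eZ, e2]
  clear w1 w2 w3 w4 w5 w6 w7 w8 w9 w10 w11 w12 eAb eG eZ e2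
  refine ⟨by omega, by omega, by omega, by omega, by omega, by omega, by omega, by omega,
    by omega, by omega, by omega, by omega, by omega, by omega, by omega, by omega, by omega,
    by omega, by omega, by omega, by omega, by omega, by omega, by omega, ?_, by omega⟩
  constructor <;>
    simp only [St.setv_var, Nat.reduceEqDiff, if_true, if_false, a1, a9, a13, a24, Cx.t0,
      Cx.m_eq, Cx.l_eq, Cx.ρ]

end SetupP

theorem sSetup : SSetup := by
  intro E c hS hB hin σ t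
  refine (SetupP.setup hS hB hin).call
    [1, 2, 3, 4, 5, 6, 7, 8, 9, 10, 11, 12, 13, 14, 15, 16, 17, 18, 22, 23, 24, 25, 26, 27, 28,
      29, 30, 76, 77, 78, 79, 83, 84] [] false
    (show (Stmt.seq (pConst ⟨0, 0, 0, 0, 0, []⟩) pSetup).Within _ _ _ by decide) ?_
  rintro σ' t' hF ⟨hP, ht⟩
  exact ⟨hP, hF.var 0 (by decide), funext fun k => hF.bank k (by simp), hF.pos rfl, ht⟩

theorem sPrep (h1 : SSieve) (h2 : SPrimes) (h3 : SPick) (h4 : SRes) (h5 : STab) (h6 : SL1)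
    (h7 : SL2) : SPrep := by
  intro E c hB σ t hP hn hz
  have big := hB.big
  have lRW := hB.lRW
  have hk : 0 < 2 ^ c.k1 := by positivity
  unfold pPrep
  simp only [wp_blk_cons, wp_blk_nil]
  refine (h1 hB hP hz).call [33, 34] [0] false (by decide) ?_
  rintro σ₁ t₁ F₁ ⟨a1, ht₁⟩
  have hP₁ := hP.frame F₁ (by decide)
  refine (h2 hB hP₁ a1).call [35, 33] [1] false (by decide) ?_
  rintro σ₂ t₂ F₂ ⟨a2, ht₂⟩
  have hP₂ := hP₁.frame F₂ (by decide)
  refine (pWord_spec (k := c.k1) (by decide) (by decide) (by decide) hP₂.RW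
    (by omega)).call [19, 30, 31] [] true (by decide) ?_
  rintro σ₃ t₃ F₃ ⟨a3, -, ht₃⟩
  have hP₃ := hP₂.frame F₃ (by decide)
  rw [F₂.pos rfl, F₁.pos rfl] at a3
  have hr : bits E.ω σ.pos c.k1 < 2 ^ c.k1 := bits_lt _ _ _
  have hok := hB.nm.pr_ok hr
  refine (h3 hB hP₃ hr a3 (by rw [F₃.bank 1 (by decide)]; exact a2)).call [80, 81, 82] [] false
    (by decide) ?_
  rintro σ₄ t₄ F₄ ⟨b1, b2, b3, ht₄⟩
  have hP₄ := hP₃.frame F₄ (by decide)
  refine (h4 hB hP₄ hok b1 b2 b3).call [40, 61, 33, 60, 62, 63] [7] false (by decide) ?_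
  rintro σ₅ t₅ F₅ ⟨a5, ht₅⟩
  have hP₅ := hP₄.frame F₅ (by decide)
  refine (h5 hB hP₅).call [33, 34, 35, 36, 37, 38] [15, 2, 3] false (by decide) ?_
  rintro σ₆ t₆ F₆ ⟨a6, ht₆⟩
  have hP₆ := hP₅.frame F₆ (by decide)
  refine (h6 hB hP₆ (fun p hp => (a6 p hp).1) fun p hp => (a6 p hp).2.1).call [20, 33] [4] false
    (by decide) ?_
  rintro σ₇ t₇ F₇ ⟨d1, d2, ht₇⟩
  have hP₇ := hP₆.frame F₇ (by decide)
  refine (h7 hB hP₇ (by rw [F₇.bank 3 (by decide)]; exact fun p hp => (a6 p hp).2.2)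
    (by rw [F₇.bank 2 (by decide)]; exact fun p hp => (a6 p hp).2.1)).call [21, 33] [5] false
    (by decide) ?_
  rintro σ₈ t₈ F₈ ⟨e1, e2, ht₈⟩
  have fr : ∀ x ∈ [80, 81, 82], σ₈.var x = σ₄.var x := fun x hx => by
    simp only [List.mem_cons, List.not_mem_nil, or_false] at hx
    rcases hx with rfl | rfl | rfl <;>
      rw [F₈.var _ (by decide), F₇.var _ (by decide), F₆.var _ (by decide), F₅.var _ (by decide)]
  refine ⟨⟨hP₇.frame F₈ (by decide), hok, hn, (F₈.var 20 (by decide)).trans d1, e1,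
    (fr 80 (by decide)).trans b1, (fr 81 (by decide)).trans b2, (fr 82 (by decide)).trans b3,
    ?_, ?_, e2, ?_⟩, ?_, ?_⟩
  · rw [F₈.bank 2 (by decide), F₇.bank 2 (by decide)]
    exact fun p hp => (a6 p hp).2.1
  · rw [F₈.bank 4 (by decide)]
    exact d2
  · rw [F₈.bank 7 (by decide), F₇.bank 7 (by decide), F₆.bank 7 (by decide)]
    exact a5
  · rw [F₈.var 0 (by decide), F₇.var 0 (by decide), F₆.var 0 (by decide), F₅.var 0 (by decide),
      F₄.var 0 (by decide), F₃.var 0 (by decide), F₂.var 0 (by decide), F₁.var 0 (by decide)]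
  · unfold Cx.tPrep
    omega

theorem sMain (h1 : SSetup) (h2 : SPrep) (h3 : SLoop) : SMain := by
  intro E c hS hB hin
  unfold pMain
  rw [wp_blk_cons]
  refine (wp_seq.1 (h1 hS hB hin (σ := St.zero) (t := 0))).mono fun σ₀ t₀ h => ?_
  rw [wp_blk_cons]
  refine h.mono ?_
  rintro σ₁ t₁ ⟨hP₁, v₁, z₁, p₁, a1⟩
  replace v₁ : σ₁.var 0 = 0 := v₁
  replace p₁ : σ₁.pos = 0 := p₁
  simp only [wp_blk_cons, wp_blk_nil]
  by_cases hn : c.n = 0
  · refine wp_iteF trivial (hP₁.n.trans hn) (wp_skip.2 ⟨Or.inl v₁, ?_, ?_⟩)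
    · rintro z - ⟨i, hi, -⟩
      omega
    · unfold Cx.tAll
      omega
  · refine wp_iteT trivial (fun h => hn (hP₁.n.symm.trans h)) ?_
    simp only [wp_blk_cons, wp_blk_nil]
    refine (h2 hB hP₁ (by omega) fun a => by rw [z₁]; rfl).mono ?_
    rintro σ₂ t₂ ⟨hPre, v₂, a2⟩
    rw [p₁] at hPre
    refine (h3 hB hPre).mono ?_
    rintro σ₃ t₃ ⟨b1, b2, a3⟩
    rw [v₂, v₁] at b1
    refine ⟨b1, b2, ?_⟩
    unfold Cx.tAll
    omega

namespace SetupP

variable (h1 : ∀ T, (eH T).wf = true) (h2 : ∀ T, (eAcc T).wf = true) (T : List Trm)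

include h1 in
theorem pH_wf : (pH T).wf = true := h1 T

include h1 in
theorem pDiv_wf : (pDiv T).wf = true := by
  have a1 := pH_wf h1 T
  have a2 : pMod.wf = true := by decide
  simp only [pDiv, blk, Stmt.wf, a1, a2, Bool.and_self]

include h1 in
theorem pPre_wf : (pPre T).wf = true := by
  have a1 := pH_wf h1 T
  simp only [pPre, blk, forL, Stmt.wf, a1]
  decide

include h1 in
theorem pRoots_wf : (pRoots T).wf = true := by
  have a1 := pDiv_wf h1 T
  simp only [pRoots, blk, forL, Stmt.wf, a1]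
  decide

include h1 in
theorem pFillX_wf : (pFillX T).wf = true := by
  have a1 := pDiv_wf h1 T
  have a2 : pPut.wf = true := by decide
  simp only [pFillX, blk, forL, Stmt.wf, a1, a2]
  decide

include h2 in
theorem pOne_wf : (pOne T).wf = true := by
  have a1 := h2 T
  have a2 : pMom.wf = true := by decide
  simp only [pOne, blk, Stmt.wf, a1, a2]
  decide

include h2 in
theorem pQuery_wf : (pQuery T).wf = true := by
  have a1 := pOne_wf h2 T
  simp only [pQuery, pItem, blk, forL, Stmt.wf, a1]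
  decide

include h1 h2 in
theorem pInst_wf : (pInst T).wf = true := by
  have a1 := pFillX_wf h1 T
  have a2 := pQuery_wf h2 T
  have a3 : pZero.wf = true := by decide
  have a4 : pFillY.wf = true := by decide
  have a5 : pEnc.wf = true := by decide
  have a6 : pU.wf = true := by decide
  simp only [pInst, blk, Stmt.wf, a1, a2, a3, a4, a5, a6, Bool.and_self]

include h1 h2 in
theorem pLoop_wf : (pLoop T).wf = true := by
  have a1 := pPre_wf h1 T
  have a2 := pRoots_wf h1 T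
  have a3 := pInst_wf h1 h2 T
  have a4 : pLoad.wf = true := by decide
  simp only [pLoop, pTup, blk, forL, Stmt.wf, a1, a2, a3, a4]
  decide

end SetupP

theorem pMain_wf (h1 : ∀ T, (eH T).wf = true) (h2 : ∀ T, (eAcc T).wf = true) (K : Kc) :
    (pMain K).wf = true := by
  have a1 : (pConst K).wf = true := rfl
  have a2 : pSetup.wf = true := by decide
  have a3 : pPrep.wf = true := by decide
  have a4 := SetupP.pLoop_wf h1 h2 K.T
  simp only [pMain, blk, Stmt.wf, a1, a2, a3, a4]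
  decide

end Pool.Agent.P.MP_8f87b2_lc.PL
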