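import Pool.Agent.P.MP_8f87b2_lc.PL.Spec

/-!
# The precomputed tables, clearing a bank and loading a tuple
-/

namespace Pool.Agent.P.MP_8f87b2_lc.PL

open Finset

theorem sTab : STab := by
  intro E c hB σ t hP
  have hbig := hB.big
  have hlA := hB.lA
  have hAb := hB.lAb
  have hsA := hB.nm.sA
  have hl := c.l_eq
  have hA := c.A_pos
  unfold Cx.tTab
  refine wp_for c.A (c.l * 8 + 8)
    (fun m σ' => ∀ p < m, σ'.bank 15 p = inv c.l p ∧
      σ'.bank 2 p = cnt c.l p ∧ σ'.bank 3 p = odd c.l p) [34, 35, 36, 37, 38] [15, 2, 3] false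
    (by decide) (by decide) (by decide) (by decide) hP.A (by omega) (by omega) (by simp) ?_
    fun σ' t' _ hI ht => ⟨hI, by omega⟩
  intro p σ' t' hp hF hi hI
  have hP' := hP.frame hF (by decide)
  simp only [wp_blk_cons, wp_set, Expr.safe, Expr.eval]
  refine ⟨by omega, by omega, by omega, ?_⟩
  refine wp_for c.l 6
    (fun u σ₂ => σ₂.var 34 = inv u p ∧ σ₂.var 35 = cnt u p ∧ σ₂.var 36 = odd u p)
    [38, 36, 34, 35] [] false (by decide) (by decide) (by decide) (by decide) (by simp [hP'.l])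
    (by omega) (by omega) (by simp [inv, cnt, odd]) ?_ ?_
  · intro u σ₂ t₂ hu hF₂ hiu ⟨h34, h35, h36⟩
    have h33 : σ₂.var 33 = p := by rw [hF₂.var 33 (by decide)]; simp [hi]
    have hd := dig_lt u p
    have h3 := cnt_le u p
    have h4 : odd u p ≤ u := by
      simpa [odd] using card_filter_le (range u) fun t => dig t p ≠ 0 ∧ dig t p ≠ 65535
    have h5 : inv u p ≤ u := by
      simpa [inv] using card_filter_le (range u) fun t => dig t p ≠ 0 ∧ dig t p < 32768
    have e1 : inv (u + 1) p = inv u p + if dig u p ≠ 0 ∧ dig u p < 32768 then 1 else 0 := by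
      simp only [inv, card_filter, sum_range_succ]
    have e2 : cnt (u + 1) p = cnt u p + if dig u p = 0 then 1 else 0 := by
      simp only [cnt, card_filter, sum_range_succ]
    have e3 : odd (u + 1) p = odd u p + if dig u p ≠ 0 ∧ dig u p ≠ 65535 then 1 else 0 := by
      simp only [odd, card_filter, sum_range_succ]
    unfold pTabIn
    simp only [wp_blk_cons, wp_set, wp_ite, wp_skip, wp_blk_nil]
    simp [h33, hiu, h34, h35, h36, dig_shift, e1, e2, e3]
    omega
  · intro σ₂ t₂ hF₂ ⟨h34, h35, h36⟩ ht₂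
    have h33 : σ₂.var 33 = p := by rw [hF₂.var 33 (by decide)]; simp [hi]
    have hb : ∀ b, σ₂.bank b = σ'.bank b := fun b => by rw [hF₂.bank b (by simp)]; simp
    simp only [wp_blk_cons, wp_st, wp_blk_nil]
    simp [h33, hb, h34, h35, h36]
    refine ⟨by omega, fun q hq => ?_, by omega⟩
    simp only [Function.update_apply]
    split_ifs with h
    · simp [h]
    · exact hI q (by omega)

namespace TabsP

theorem filter_spec {E : Env} {c : Cx} (hB : Bnd c E) {b x : ℕ} {e : Expr} (P : ℕ → Bool)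
    (hx : x ≠ 33) (hx4 : x ≠ 4) {σ : St} {t : ℕ} (hP : Par c σ)
    (he : ∀ p < c.A, ∀ σ', Frame [33, x] [b] false σ σ' → σ'.var 33 = p →
      e.safe E σ' ∧ (e.eval E σ' ≠ 0 ↔ P p = true)) :
    WP E (pFilter b x e) (fun σ' t' => σ'.var x = (flt c.A P).length ∧
      (∀ i < (flt c.A P).length, σ'.bank b i = (flt c.A P).getD i 0) ∧
      t' ≤ t + (c.A * 5 + 3)) σ t := by
  have hbig := hB.big
  have hlA := hB.lA
  have hA := c.A_pos
  unfold pFilter
  simp only [wp_blk_cons, wp_set, wp_blk_nil, Expr.safe, Expr.eval]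
  refine ⟨by omega, ?_⟩
  refine wp_for c.A 3
    (fun m σ' => σ'.var x = (flt m P).length ∧
      ∀ i < (flt m P).length, σ'.bank b i = (flt m P).getD i 0) [x] [b] false
    (by simp [Stmt.Within, blk, Stmt.wv, Stmt.wb, Stmt.rd]) (by simp [hx.symm])
    (by simp [hx4.symm]) (by decide) (by simp [hx4.symm, hP.A]) (by omega) (by omega)
    (by simp [flt, hx]) ?_ fun σ' t' _ hI ht => ⟨hI.1, hI.2, by omega⟩
  intro p σ' t' hp hF hi ⟨h1, h2⟩
  have hF' : Frame [33, x] [b] false σ σ' := by
    refine ⟨fun y hy => ?_, fun k hk => by rw [hF.bank k hk]; rfl,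
      fun h => by rw [hF.pos h]; rfl⟩
    rw [hF.var y hy]
    simp only [List.mem_cons, not_or] at hy
    simp [hy.2.1]
  obtain ⟨hs, hev⟩ := he p hp σ' hF' hi
  have hlen := flt_length_le p P
  rw [wp_ite]
  refine ⟨hs, fun h => ?_, fun h => ?_⟩
  · have hPp := hev.mp h
    simp only [wp_blk_cons, wp_set, wp_st, wp_blk_nil]
    simp [h1, hi, hx, flt_succ, hPp]
    refine ⟨by omega, by omega, fun i hi => ?_⟩
    rw [Function.update_apply]
    split_ifs with h3
    · simp [h3]
    · have h4 : i < (flt p P).length := by omega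
      rw [h2 i h4, List.getElem?_append_left h4]; simp
  · have hPp : ¬ P p = true := fun h' => (hev.mpr h') h
    simp [flt_succ, hPp, hx, h1]
    simpa using h2

end TabsP

theorem sL1 : SL1 := by
  intro E c hB σ t hP hK hC
  refine TabsP.filter_spec hB _ (by decide) (by decide) hP fun p hp σ' hF h33 => ?_
  have hbig := hB.big
  have hlA := hB.lA
  have hAb := hB.lAb
  have hsA := hB.nm.sA
  have hl := c.l_eq
  have := cnt_le c.l p
  have h6 : σ'.var 6 = c.t0 := by rw [hF.var 6 (by decide), hP.t0]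
  have hb : σ'.bank 2 = σ.bank 2 := hF.bank 2 (by decide)
  have hb3 : σ'.bank 15 = σ.bank 15 := hF.bank 15 (by decide)
  simp [h33, h6, hb, hb3, hC p hp, hK p hp]
  refine ⟨by omega, ?_⟩
  by_cases h1 : inv c.l p = 0 <;> by_cases h2 : c.t0 ≤ cnt c.l p <;> simp [h1, h2]

theorem sL2 : SL2 := by
  intro E c hB σ t hP hK hC
  refine TabsP.filter_spec hB _ (by decide) (by decide) hP fun p hp σ' hF h33 => ?_
  have hbig := hB.big
  have hlA := hB.lA
  have hAb := hB.lAb
  have hsA := hB.nm.sA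
  have ht : c.t0 = 4 * c.s := rfl
  have h6 : σ'.var 6 = c.t0 := by rw [hF.var 6 (by decide), hP.t0]
  have hb : σ'.bank 2 = σ.bank 2 := hF.bank 2 (by decide)
  have hb3 : σ'.bank 3 = σ.bank 3 := hF.bank 3 (by decide)
  simp [h33, h6, hb, hb3, hC p hp, hK p hp]
  refine ⟨by omega, ?_⟩
  by_cases h1 : odd c.l p = 0 <;> by_cases h2 : cnt c.l p ≤ c.t0 <;> simp [h1, h2]

theorem sZero : SZero := by
  intro E c hB σ t hP
  have hbig := hB.big
  have hGA := hB.lGA
  have hAb := hB.lAb
  have hsA := hB.nm.sA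
  have hs := hB.nm.s1
  refine wp_for (2 * c.GE * c.A) 1 (fun m σ' => ∀ a < m, σ'.bank 13 a = 0) [] [13] false
    (by decide) (by decide) (by decide) (by decide) hP.GA (by omega) (by omega) (by simp) ?_
    fun σ' t' _ hI ht => ⟨hI, by omega⟩
  intro p σ' t' hp hF hi hI
  simp only [wp_st]
  simp [hi]
  refine ⟨by omega, by omega, fun q hq => ?_⟩
  rw [Function.update_apply]
  split_ifs with h
  · rfl
  · exact hI q (by omega)

theorem sLoad : SLoad := by
  intro E c hB σ t hP hn z hz
  have hbig := hB.big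
  have hAb := hB.lAb
  have hsA := hB.nm.sA
  have hs := hB.nm.s1
  have hdA := hB.nm.dA
  have hbA := hB.nm.bA
  have hln := hB.ln
  have hn1 := hB.n1
  refine wp_for c.d 4 (fun m σ' => ∀ u < m, (σ'.bank 6 u : ZMod E.W) = (c.wz z u : ℤ))
    [34] [6] false
    (by decide) (by decide) (by decide) (by decide) hP.d (by omega) (by omega) (by simp) ?_
    fun σ' t' _ hI ht => ⟨hI, by omega⟩
  intro u σ' t' hu hF hi hI
  have hP' := hP.frame hF (by decide)
  have h90 : σ'.var 90 = z := (hF.var 90 (by decide)).trans hz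
  have e1 : z >>> (c.lb * u) &&& (c.b - 1) = z / c.b ^ u % c.b := by
    rw [c.and_b, Nat.shiftRight_eq_div_pow, pow_mul]; rfl
  have h1 : c.lb * u ≤ c.lb * c.d := Nat.mul_le_mul_left _ hu.le
  have h2 : (3 + u) * c.n + c.n ≤ (c.d + 3) * c.n := by nlinarith
  have h3 : (c.d + 3) * c.n ≤ (c.d + 10) * c.n := by nlinarith
  have hix : c.ix z u < c.n := by unfold Cx.ix; split_ifs <;> omega
  have hv : ((E.inp (1 + (3 + u) * c.n + c.ix z u) : ℕ) : ZMod E.W) = (c.wz z u : ℤ) := by
    rw [hB.inp _ (by omega) (by omega), cast_inp (by omega)]; rfl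
  have key : ∀ q < u + 1, ((Function.update (σ'.bank 6) u
      (E.inp (1 + (3 + u) * c.n + c.ix z u)) q : ℕ) : ZMod E.W) = (c.wz z q : ℤ) := by
    intro q hq
    rw [Function.update_apply]
    split_ifs with h
    · rw [h, hv]
    · exact hI q (by omega)
  simp only [wp_blk_cons, wp_set, wp_ite, wp_skip, wp_st, wp_blk_nil]
  simp only [Expr.safe, Expr.eval, BOp.safe, BOp.eval, St.setv_var, St.setv_bank,
    St.setm_bank, hi, h90, hP'.lb, hP'.bm, hP'.n, e1, Nat.reduceEqDiff, if_true, if_false,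
    true_and, and_true]
  refine ⟨by omega, fun h => ?_, fun h => ?_⟩
  · have h4 : z / c.b ^ u % c.b < c.n := by
      by_contra h'; simp [h'] at h
    have e : c.ix z u = z / c.b ^ u % c.b := if_pos h4
    rw [← e]
    exact ⟨by omega, by omega, key, by omega⟩
  · have h4 : ¬ z / c.b ^ u % c.b < c.n := fun h' => by simp [h'] at h
    have e : c.ix z u = 0 := if_neg h4
    rw [e] at key
    exact ⟨by omega, by omega, by omega, key, by omega⟩

end Pool.Agent.P.MP_8f87b2_lc.PL
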