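import Pool.Agent.P.MP_8f87b2_lc.PL.Spec

/-!
# The running time
-/

namespace Pool.Agent.P.MP_8f87b2_lc.PL

open Finset

namespace TimeP

theorem len_flt (A : ℕ) (P : ℕ → Bool) :
    (flt A P).length = ((range A).filter fun p => P p = true).card := by
  have h := sum_flt A P fun _ => 1
  simp only [sum_const, card_range, nsmul_eq_mul, mul_one] at h
  exact_mod_cast h

theorem sumw1 (N M : ℕ) : ∑ d ∈ range (N + 1 + M),
    (if d = 0 then 16 else if N + 1 ≤ d then 1 else 0) = 16 + M := by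
  rw [sum_range_add, sum_range_succ', sum_eq_zero fun d hd => by
    have := mem_range.mp hd
    rw [if_neg (by omega), if_neg (by omega)],
    sum_congr rfl (g := fun _ => 1) fun d _ => by rw [if_neg (by omega), if_pos (by omega)]]
  simp

theorem sumw2 (N : ℕ) : ∑ d ∈ range (N + 1 + 1),
    (if d = 0 then 1 else if d = N + 1 then 2048 else 0) = 2049 := by
  rw [sum_range_succ', sum_range_succ, sum_eq_zero fun d hd => by
    have := mem_range.mp hd
    rw [if_neg (by omega), if_neg (by omega)]]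
  simp

theorem L1_bd (c : Cx) : c.L1.length * 16 ^ c.t0 ≤ 32784 ^ c.l := by
  have h := sum_prod_dig (R := ℕ)
    (fun _ d => if d = 0 then 16 else if 32768 ≤ d then 1 else 0) c.l
  have h2 : ∑ d ∈ range 65536, (if d = 0 then 16 else if 32768 ≤ d then 1 else 0) = 32784 :=
    sumw1 32767 32768
  rw [h2, prod_const, card_range] at h
  rw [← h, Cx.L1, len_flt, card_filter, sum_mul]
  refine sum_le_sum fun p _ => ?_
  split_ifs with hp
  · obtain ⟨h1, h3⟩ := of_decide_eq_true hp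
    simp only [inv, card_eq_zero, filter_eq_empty_iff] at h1
    rw [one_mul, prod_congr rfl (g := fun t => if dig t p = 0 then 16 else 1) fun t ht => by
      have := h1 ht
      split_ifs <;> omega, prod_ite, prod_const, prod_const_one, mul_one]
    exact Nat.pow_le_pow_right (by norm_num) h3
  · simp

theorem L2_bd (c : Cx) : c.L2.length * 2048 ^ (6816 * c.s) ≤ 2049 ^ c.l := by
  have h := sum_prod_dig (R := ℕ)
    (fun _ d => if d = 0 then 1 else if d = 65535 then 2048 else 0) c.l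
  have h2 : ∑ d ∈ range 65536, (if d = 0 then 1 else if d = 65535 then 2048 else 0) = 2049 :=
    sumw2 65534
  rw [h2, prod_const, card_range] at h
  rw [← h, Cx.L2, len_flt, card_filter, sum_mul]
  refine sum_le_sum fun p _ => ?_
  split_ifs with hp
  · obtain ⟨h1, h3⟩ := of_decide_eq_true hp
    simp only [odd, card_eq_zero, filter_eq_empty_iff] at h1
    rw [one_mul, prod_congr rfl (g := fun t => if dig t p = 0 then 1 else 2048) fun t ht => by
      have := h1 ht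
      split_ifs <;> omega, prod_ite, prod_const_one, prod_const, one_mul]
    refine Nat.pow_le_pow_right (by norm_num) ?_
    have h4 := card_filter_add_card_filter_not (s := range c.l) fun t => dig t p = 0
    rw [card_range] at h4
    unfold cnt at h3
    have h5 := c.l_eq
    have h6 : c.t0 = 4 * c.s := rfl
    omega
  · simp

theorem num1 : 32784 ^ 6820 ≤ 2 ^ 102289 * 16 ^ 4 := by decide +kernel

theorem num2 : 2049 ^ 6820 ≤ 2 ^ 49 * 2048 ^ 6816 := by decide +kernel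

theorem pw_le {a b k u v w s : ℕ} (h : a ^ u ≤ 2 ^ k * b ^ v) (hb : 0 < b)
    (hw : w * b ^ (v * s) ≤ a ^ (u * s)) : w ≤ 2 ^ (k * s) := by
  refine Nat.le_of_mul_le_mul_right (hw.trans ?_) (pow_pos hb (v * s))
  rw [pow_mul, pow_mul, pow_mul, ← mul_pow]
  exact Nat.pow_le_pow_left h s

theorem L1_le (c : Cx) : c.L1.length ≤ 2 ^ (102289 * c.s) :=
  pw_le num1 (by norm_num) (c.l_eq ▸ L1_bd c)

theorem L2_le (c : Cx) : c.L2.length ≤ 2 ^ (49 * c.s) :=
  pw_le num2 (by norm_num) (c.l_eq ▸ L2_bd c)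

/-- the time bound in terms of the size parameters -/
theorem poly {c : Cx} {X b B1 B Λ1 Λ2 : ℕ} (hX : c.Ab = X) (X1 : 1 ≤ X) (e1 : 1 ≤ c.e)
    (hee : c.e * c.e ≤ X) (hl : c.l ≤ X) (hd : c.d ≤ X) (hk : c.k1 ≤ X) (hn : c.n ≤ b)
    (b1 : 1 ≤ b) (l1 : c.L1.length ≤ Λ1) (l2 : c.L2.length ≤ Λ2) (m1 : 1 ≤ Λ1) (m2 : 1 ≤ Λ2)
    (hB : c.D * B1 = B) (hGA : c.G * c.A ≤ B1) (hGG : c.G * c.G * Λ1 ≤ B1)
    (hDK : b * (c.D * c.K1) ≤ B1) (hPP : b * (c.P * c.P * Λ2) ≤ B)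
    (hP3 : c.P * (c.P * c.P) ≤ B) : c.tAll ≤ 800 * (X * X * (c.NT * B)) := by
  have D1 : 1 ≤ c.D := c.D_pos
  have K1 : 1 ≤ c.K1 := c.K1_pos
  have G1 : 1 ≤ c.G := c.G_pos
  have A1 : 1 ≤ c.A := c.A_pos
  have P1 : 1 ≤ c.P := c.P_pos
  have N1 : 1 ≤ c.NT := c.NT_pos
  have he : c.e ≤ X := (Nat.le_mul_self _).trans hee
  have hA : c.A ≤ B1 := (Nat.le_mul_of_pos_left _ G1).trans hGA
  have hb : b ≤ B1 := (Nat.le_mul_of_pos_right _ (Nat.mul_pos D1 K1)).trans hDK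
  have B11 : 1 ≤ B1 := A1.trans hA
  have hBB : B1 ≤ B := hB ▸ Nat.le_mul_of_pos_left _ D1
  have B0 : 1 ≤ B := B11.trans hBB
  have v1 : c.tMod ≤ 8 * X := by unfold Cx.tMod; omega
  have v2 : c.tDiv ≤ 9 * X := by unfold Cx.tDiv; omega
  have v3 : c.tW ≤ 10 * X := by unfold Cx.tW; omega
  have v4 : c.tPut + 4 ≤ 22 * X := by unfold Cx.tPut; omega
  have x1 : X ≤ X * Λ2 := Nat.le_mul_of_pos_right _ m2
  have v5 : c.tOne + 8 ≤ 70 * (X * Λ2) := by
    have h1 : c.e * c.e * (c.tSum + 5) ≤ X * (19 * Λ2) :=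
      Nat.mul_le_mul hee (by unfold Cx.tSum; omega)
    unfold Cx.tOne Cx.tMom Cx.tOut
    linarith
  have v6 : c.n * c.tItem ≤ 300 * (X * X * B) := by
    have z1 : 1 ≤ c.Z := Nat.mul_pos (by omega) P1
    have z2 : c.Z ≤ c.Z * c.Z := Nat.le_mul_self _
    have z3 : c.Z * c.Z ≤ 4 * X * (c.P * c.P) :=
      calc c.Z * c.Z = 4 * (c.e * c.e) * (c.P * c.P) := by unfold Cx.Z; ring
        _ ≤ _ := by gcongr
    have z4 : c.Z * c.Z * (c.tOne + 8) ≤ 4 * X * (c.P * c.P) * (70 * (X * Λ2)) :=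
      Nat.mul_le_mul z3 v5
    have z5 : 1 ≤ X * X * (c.P * c.P * Λ2) :=
      Nat.mul_pos (Nat.mul_pos X1 X1) (Nat.mul_pos (Nat.mul_pos P1 P1) m2)
    have z6 : c.tItem ≤ 300 * (X * X * (c.P * c.P * Λ2)) := by
      unfold Cx.tItem
      linarith
    calc c.n * c.tItem ≤ b * (300 * (X * X * (c.P * c.P * Λ2))) := Nat.mul_le_mul hn z6
      _ = 300 * (X * X * (b * (c.P * c.P * Λ2))) := by ring
      _ ≤ _ := by gcongr
  have x2 : B ≤ X * B := Nat.le_mul_of_pos_left _ X1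
  have x3 : X ≤ X * B := Nat.le_mul_of_pos_right _ B0
  have x4 : X * B ≤ X * X * B := Nat.mul_le_mul_right _ (Nat.le_mul_self X)
  have p2 : c.P * c.P ≤ B := (Nat.le_mul_of_pos_left _ P1).trans hP3
  have p1 : c.P ≤ B := (Nat.le_mul_self _).trans p2
  have v7 : c.tRoots ≤ 28 * (X * B) := by
    have h1 : c.P * (c.P * c.P) * (c.tDiv + 6) ≤ B * (15 * X) := Nat.mul_le_mul hP3 (by omega)
    unfold Cx.tRoots
    linarith
  have y2 : B1 ≤ X * B1 := Nat.le_mul_of_pos_left _ X1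
  have y4 : X * B1 ≤ X * X * B1 := Nat.mul_le_mul_right _ (Nat.le_mul_self X)
  have k1 : X ≤ X * c.K1 := Nat.le_mul_of_pos_right _ K1
  have k2 : c.K1 * (c.tPut + 4) ≤ c.K1 * (22 * X) := Nat.mul_le_mul_left _ v4
  have k3 : X * c.K1 ≤ c.D * (X * c.K1) := Nat.le_mul_of_pos_left _ D1
  have k4 : X * (b * (c.D * c.K1)) ≤ X * B1 := Nat.mul_le_mul_left _ hDK
  have v8 : c.tFillX ≤ 49 * (X * B1) := by
    have h1 : c.D * (c.tDiv + c.K1 * (c.tPut + 4) + 5) ≤ c.D * (36 * (X * c.K1)) :=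
      Nat.mul_le_mul_left _ (by linarith)
    have h2 : c.n * (c.D * (c.tDiv + c.K1 * (c.tPut + 4) + 5) + 9) ≤
        b * (45 * (c.D * (X * c.K1))) := Nat.mul_le_mul hn (by linarith)
    unfold Cx.tFillX
    linarith
  have v9 : c.tFillY ≤ 33 * (X * B1) := by
    have h2 : c.n * (c.K1 * (c.tPut + 4) + 9) ≤ b * (31 * (c.D * (X * c.K1))) :=
      Nat.mul_le_mul hn (by linarith)
    unfold Cx.tFillY
    linarith
  have g1 : c.GE ≤ c.G * X := Nat.mul_le_mul_left _ he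
  have g2 : X * (c.G * c.A) ≤ X * B1 := Nat.mul_le_mul_left _ hGA
  have g3 : c.GE * c.A ≤ c.G * X * c.A := Nat.mul_le_mul_right _ g1
  have v10 : c.tEnc ≤ 34 * (X * X * B1) := by
    have h0 : X ≤ X * c.A := Nat.le_mul_of_pos_right _ A1
    have h1 : c.l * (c.A * 5 + 5) ≤ X * (10 * c.A) := Nat.mul_le_mul hl (by omega)
    have h2 : c.GE * (c.l * (c.A * 5 + 5) + 6) ≤ c.G * X * (16 * (X * c.A)) :=
      Nat.mul_le_mul g1 (by linarith)
    have h3 := Nat.mul_le_mul_left X g2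
    unfold Cx.tEnc
    linarith
  have v11 : c.tU ≤ 25 * (X * X * B1) := by
    have h0 : X ≤ X * Λ1 := Nat.le_mul_of_pos_right _ m1
    have h1 : c.L1.length * (c.l * 4 + 8) ≤ Λ1 * (12 * X) := Nat.mul_le_mul l1 (by omega)
    have h2 : c.GE * c.GE ≤ X * (c.G * c.G) :=
      calc c.GE * c.GE = c.e * c.e * (c.G * c.G) := by unfold Cx.GE; ring
        _ ≤ _ := Nat.mul_le_mul_right _ hee
    have h3 : c.GE * c.GE * (c.L1.length * (c.l * 4 + 8) + 11) ≤
        X * (c.G * c.G) * (23 * (X * Λ1)) := Nat.mul_le_mul h2 (by linarith)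
    have h4 : c.GE ≤ c.GE * c.GE := Nat.le_mul_self _
    have h5 := Nat.mul_le_mul_left (X * X) hGG
    unfold Cx.tU
    linarith
  have v12 : c.D * (c.tInst + 2) ≤ 160 * (X * X * B) := by
    have h1 : c.tInst + 2 ≤ 160 * (X * X * B1) := by
      unfold Cx.tInst
      linarith
    calc c.D * (c.tInst + 2) ≤ c.D * (160 * (X * X * B1)) := Nat.mul_le_mul_left _ h1
      _ = _ := by rw [← hB]; ring
  have v13 : c.tTup + 2 ≤ 550 * (X * X * B) := by
    unfold Cx.tTup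
    linarith
  have x5 : X * X * B ≤ c.NT * (X * X * B) := Nat.le_mul_of_pos_left _ N1
  have v14 : c.NT * (c.tTup + 2) ≤ c.NT * (550 * (X * X * B)) := Nat.mul_le_mul_left _ v13
  have v15 : c.tPrep ≤ 190 * (X * B) := by
    have h1 : c.n * (c.tMod + 4) ≤ B * (12 * X) := Nat.mul_le_mul (by omega) (by omega)
    have h2 : c.A * (c.l * 8 + 10) ≤ B * (18 * X) := Nat.mul_le_mul (by omega) (by omega)
    unfold Cx.tPrep Cx.tRes Cx.tTab
    linarith
  unfold Cx.tAll Cx.tLoop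
  rw [hX]
  linarith

theorem p2_le {a b : ℕ} (h : a ≤ b) : 2 ^ a ≤ 2 ^ b := Nat.pow_le_pow_right (by norm_num) h

theorem tAll_le {c : Cx} (s1 : 1 ≤ c.s) (e1 : 1 ≤ c.e) (nb : c.n < c.b)
    (sA : 200000 * c.s ≤ c.Ab) (eA : c.e * c.e + 4 * c.e ≤ c.Ab) (dA : c.d ≤ c.Ab)
    (big : 8820 * c.Ab ^ 5 ≤ 2 ^ c.s) : c.tAll ≤ 2 ^ ((58032 * c.d + 116062) * c.s) := by
  have hD : c.D = 2 ^ (110 * c.s) := rfl
  have hb : c.b = 2 ^ (58032 * c.s) := rfl
  have hG : c.G = 2 ^ (6830 * c.s) := rfl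
  have hP : c.P = 2 ^ (28990 * c.s) := rfl
  have X1 : 1 ≤ c.Ab := by omega
  have key := poly (c := c) (X := c.Ab) (b := c.b) (B1 := 2 ^ (115951 * c.s))
    (B := 2 ^ (116061 * c.s)) rfl X1 e1 (by omega) (by rw [c.l_eq]; omega) dA
    (by unfold Cx.k1; omega) nb.le c.b_pos (L1_le c) (L2_le c) Nat.one_le_two_pow
    Nat.one_le_two_pow (by rw [hD, ← pow_add]; congr 1; omega)
    (by rw [hG, c.A_eq, ← pow_add]; exact p2_le (by omega))
    (by rw [hG, ← pow_add, ← pow_add]; exact p2_le (by omega))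
    (by rw [hb, hD, c.K1_eq, ← pow_add, ← pow_add]; exact p2_le (by omega))
    (by rw [hb, hP, ← pow_add, ← pow_add, ← pow_add]; exact p2_le (by omega))
    (by rw [hP, ← pow_add, ← pow_add]; exact p2_le (by omega))
  refine key.trans ?_
  have h1 : c.Ab * c.Ab ≤ c.Ab ^ 5 := by
    rw [← pow_two]; exact Nat.pow_le_pow_right X1 (by norm_num)
  have h2 : 800 * (c.Ab * c.Ab) ≤ 2 ^ c.s := by omega
  calc 800 * (c.Ab * c.Ab * (c.NT * 2 ^ (116061 * c.s)))
      = 800 * (c.Ab * c.Ab) * (c.NT * 2 ^ (116061 * c.s)) := by rw [mul_assoc 800]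
    _ ≤ 2 ^ c.s * (c.NT * 2 ^ (116061 * c.s)) := Nat.mul_le_mul_right _ h2
    _ = _ := by
      rw [Cx.NT, hb, ← pow_mul, ← pow_add, ← pow_add]
      congr 1
      ring

end TimeP

open TimeP in
theorem sTime (h : SNm) : STime := by
  intro K cc hK
  obtain ⟨β, hβ⟩ : ∃ β, β = 58032 * K.d + 116062 := ⟨_, rfl⟩
  obtain ⟨Λ, hΛ⟩ : ∃ Λ : ℝ, Λ = 2 ^ β := ⟨_, rfl⟩
  have hΛ1 : 1 ≤ Λ := hΛ ▸ one_le_pow₀ (by norm_num)
  refine ⟨Λ ^ K.s0, ?_⟩
  rintro c rfl hS
  have hN : Nm { c with y := fun _ => 0 } :=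
    h (c := { c with y := fun _ => 0 }) hK ⟨hS.s1, hS.nN, hS.smin⟩ fun _ => by
      show |(0 : ℤ)| ≤ _
      rw [abs_zero]; positivity
  have e1 := tAll_le (c := c) hN.s1 hN.e1 hN.nb hN.sA hN.eA hN.dA hN.big
  obtain ⟨γ, hγ⟩ : ∃ γ : ℝ, γ = (((c.d : ℚ) + 2 - 1 / 30000 : ℚ) : ℝ) := ⟨_, rfl⟩
  rw [← hγ]
  have e2 : (c.tAll : ℝ) ≤ Λ ^ c.s := by
    rw [hΛ, ← pow_mul, hβ]; exact_mod_cast e1
  have h0 : (0 : ℝ) ≤ (c.n : ℝ) ^ γ := by positivity
  refine e2.trans ?_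
  rcases Nat.lt_or_ge c.s0 c.s with hs | hs
  · obtain ⟨s, hs'⟩ : ∃ s, c.s = s + 1 := ⟨c.s - 1, by omega⟩
    have e3 : (2 : ℝ) ^ (58032 * s) ≤ c.n := by exact_mod_cast hS.smin s (by omega) (by omega)
    have hγ0 : (β : ℝ) ≤ 58032 * γ := by
      rw [hγ, hβ]; push_cast; linarith
    have hγ1 : 0 ≤ γ := by
      have : (0 : ℝ) ≤ β := Nat.cast_nonneg _
      linarith
    have e4 : Λ ^ s ≤ (c.n : ℝ) ^ γ := by
      refine le_trans ?_ (Real.rpow_le_rpow (by positivity) e3 hγ1)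
      rw [hΛ, ← pow_mul, ← Real.rpow_natCast, ← Real.rpow_natCast, ← Real.rpow_mul (by norm_num)]
      refine Real.rpow_le_rpow_of_exponent_le (by norm_num) ?_
      push_cast
      have : (0 : ℝ) ≤ s := Nat.cast_nonneg _
      nlinarith
    have e5 := hK.hs0
    rw [hs', pow_succ']
    exact mul_le_mul (le_self_pow₀ hΛ1 (by omega)) (by linarith) (by positivity) (by positivity)
  · exact (pow_le_pow_right₀ hΛ1 hs).trans (le_mul_of_one_le_right (by positivity) (by linarith))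

end Pool.Agent.P.MP_8f87b2_lc.PL
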