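import Pool.Agent.P.MP_8f87b2_lc.PL.Spec

/-!
# One residue class, one tuple, and the loop over the tuples
-/

namespace Pool.Agent.P.MP_8f87b2_lc.PL

open Finset

namespace TupP

variable {E : Env} {c : Cx}

/-- the residue classes split the third list -/
theorem sum_ncr (c : Cx) (π : Pr) (hp : 0 < π.p) : ∑ r ∈ range π.p, c.ncr π r = c.n := by
  have h := card_eq_sum_card_fiberwise (s := range c.n) (t := range π.p)
    (f := fun i => res π.p (c.yc i)) fun i _ => by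
      simpa using res_lt hp (c.yc i)
  rw [card_range] at h
  exact h.symm

theorem card_rt (c : Cx) (z q u : ℕ) : (c.rt z q u).card ≤ q * q := by
  unfold Cx.rt roots
  refine (card_filter_le _ _).trans ?_
  rw [card_product, card_range]

/-- a list below the offset is kept by a later call -/
theorem lst_keep {σ σ' : St} {z q u : ℕ} (hu : u < q) (hq : q ≤ c.P)
    (h : LstAt c u q (c.rt z q u) σ) (h12 : ∀ a < c.P, σ'.bank 12 a = σ.bank 12 a)
    (h10 : ∀ a < c.P * (c.P * c.P), σ'.bank 10 a = σ.bank 10 a ∧ σ'.bank 11 a = σ.bank 11 a) :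
    LstAt c u q (c.rt z q u) σ' := by
  have hlt : ∀ t < (c.rt z q u).card, u * (c.P * c.P) + t < c.P * (c.P * c.P) := fun t ht =>
    mul_add_lt (by omega)
      (lt_of_lt_of_le ht ((card_rt c z q u).trans (Nat.mul_le_mul hq hq)))
  obtain ⟨a1, a2, a3⟩ := h
  refine ⟨(h12 u (by omega)).trans a1, fun t ht => ?_, fun p hp => ?_⟩
  · rw [(h10 _ (hlt t ht)).1, (h10 _ (hlt t ht)).2]
    exact a2 t ht
  · obtain ⟨t, ht, b⟩ := a3 p hp
    refine ⟨t, ht, ?_⟩
    rw [(h10 _ (hlt t ht)).1, (h10 _ (hlt t ht)).2]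
    exact b

theorem P_lim (hB : Bnd c E) : c.P ≤ E.Lim := by
  have h := hB.lP
  have hP := c.P_pos
  have h1 : 1 ≤ c.P * c.P := Nat.mul_pos hP hP
  have h2 : 2 * c.P * 1 ≤ 2 * c.P * (c.P * c.P) := Nat.mul_le_mul_left _ h1
  omega

end TupP

set_option maxRecDepth 8000 in
theorem sInst (h1 : SZero) (h2 : SFillX) (h3 : SFillY) (h4 : SEnc) (h5 : SU) (h6 : SQuery) :
    SInst := by
  intro E c hB σ t π z r hI
  unfold pInst
  simp only [wp_blk_cons, wp_blk_nil]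
  refine (h1 hB hI.tup.pre.par).call [33] [13] false (by decide) ?_
  rintro σ₁ t₁ hF₁ ⟨a1, a2⟩
  have hI₁ := hI.frame hF₁ (by decide) (by decide)
  refine (h2 hB hI₁ a1).call
    [33, 37, 44, 45, 46, 47, 48, 49, 50, 51, 60, 61, 62, 63, 64, 65, 66, 70, 71, 72, 73] [13]
    false (by decide : (pFillX []).Within
      [33, 37, 44, 45, 46, 47, 48, 49, 50, 51, 60, 61, 62, 63, 64, 65, 66, 70, 71, 72, 73] [13]
      false) ?_
  rintro σ₂ t₂ hF₂ ⟨b1, b2⟩
  have hI₂ := hI₁.frame hF₂ (by decide) (by decide)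
  refine (h3 hB hI₂.tup.pre (B := fun a => ∑ i ∈ range c.n, c.TX π z r i a) b1).call
    [33, 37, 44, 45, 46, 47, 48, 49, 50, 51, 65, 70, 71, 72, 73] [13] false (by decide) ?_
  rintro σ₃ t₃ hF₃ ⟨d1, d2⟩
  have hI₃ := hI₂.frame hF₃ (by decide) (by decide)
  refine (h4 hB hI₃.tup.pre.par (B := c.TT π z r) d1).call
    [33, 34, 35, 38, 41, 44] [13] false (by decide) ?_
  rintro σ₄ t₄ hF₄ ⟨e1, e2⟩
  have hI₄ := hI₃.frame hF₄ (by decide) (by decide)
  refine (h5 hB (z := z) (r := r) hI₄.tup.pre e1).call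
    [33, 34, 35, 36, 37, 41, 42, 43, 44, 45] [14] false (by decide) ?_
  rintro σ₅ t₅ hF₅ ⟨f1, f2⟩
  have hI₅ := hI₄.frame hF₅ (by decide) (by decide)
  have hT₅ : Tab c E π z r σ₅ := ⟨hI₅, by rw [hF₅.bank 13 (by decide)]; exact e1, f1⟩
  refine (h6 hB hT₅).mono ?_
  rintro σ₆ t₆ ⟨g1, g2, g3⟩
  refine ⟨?_, g2, by unfold Cx.tInst; omega⟩
  rwa [hF₅.var 0 (by decide), hF₄.var 0 (by decide), hF₃.var 0 (by decide),
    hF₂.var 0 (by decide), hF₁.var 0 (by decide)] at g1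

namespace TupP

variable {E : Env} {c : Cx}

set_option maxRecDepth 8000 in
/-- the loop over the residue classes -/
theorem pRes_loop (h4 : SInst) (hB : Bnd c E) {σ : St} {t : ℕ} {π : Pr} {z : ℕ}
    (hT : Tup c E π z σ) (r1 : ∀ u < π.q1, LstAt c u π.q1 (c.rt z π.q1 u) σ)
    (r2 : ∀ u < π.q2, LstAt c (c.P + u) π.q2 (c.rt z π.q2 u) σ) :
    WP E (forL 91 82 (pInst c.T)) (fun σ' t' => c.Out (σ.var 0) (σ'.var 0) ∧
      (∀ i < c.n, c.HitI π z i → σ'.var 0 = 1) ∧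
      t' ≤ t + (c.D * (c.tInst + 2) + 2 + c.n * c.tItem)) σ t := by
  have hbig := hB.big
  have hP := P_lim hB
  have hP0 := c.P_pos
  have hDP := hB.nm.DP
  have hl3 := hT.pre.ok.l3
  have hp0 := hT.pre.ok.p3.pos
  refine wp_forT (body := pInst c.T) π.p (fun j σ' t' => c.Out (σ.var 0) (σ'.var 0) ∧
      (∀ i < c.n, res π.p (c.yc i) < j → c.HitI π z i → σ'.var 0 = 1) ∧
      t' ≤ t + 1 + j * (c.tInst + 2) + (∑ r ∈ range j, c.ncr π r) * c.tItem)
    [0, 33, 34, 35, 36, 37, 38, 39, 41, 42, 43, 44, 45, 46, 47, 48, 49, 50, 51, 52, 53, 54, 55,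
      56, 57, 58, 59, 60, 61, 62, 63, 64, 65, 66, 67, 68, 69, 70, 71, 72, 73, 74]
    [9, 13, 14] false
    (by decide : (pInst []).Within
      [0, 33, 34, 35, 36, 37, 38, 39, 41, 42, 43, 44, 45, 46, 47, 48, 49, 50, 51, 52, 53, 54, 55,
        56, 57, 58, 59, 60, 61, 62, 63, 64, 65, 66, 67, 68, 69, 70, 71, 72, 73, 74]
      [9, 13, 14] false)
    (by decide) (by decide) (by decide) hT.pre.p (by omega) (by omega)
    ⟨Or.inl (by simp), by simp, by simp⟩ ?_ ?_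
  · rintro j σ₁ t₁ hj hF₁ h91 ⟨a1, a2, a3⟩
    have e10 := hF₁.bank 10 (by decide)
    have e11 := hF₁.bank 11 (by decide)
    have e12 := hF₁.bank 12 (by decide)
    have hI₁ : Ins c E π z j σ₁ := by
      refine ⟨hT.frame hF₁ (by decide) (by decide), ?_, ?_, h91, hj⟩
      · unfold LstAt; rw [e10, e11, e12]; exact r1
      · unfold LstAt; rw [e10, e11, e12]; exact r2
    refine (h4 hB hI₁).mono ?_
    rintro σ₂ t₂ ⟨b1, b2, b3⟩
    refine ⟨by simpa using a1.trans b1, fun i hi hr hh => ?_, ?_⟩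
    · simp only [St.setv_var, Nat.reduceEqDiff, if_false]
      by_cases g : res π.p (c.yc i) = j
      · exact b2 i hi g hh
      · exact b1.one (a2 i hi (by omega) hh)
    · rw [sum_range_succ, Nat.succ_mul, Nat.add_mul]; omega
  · rintro σ₁ t₁ - - ⟨a1, a2, a3⟩
    refine ⟨a1, fun i hi hh => a2 i hi (res_lt hp0 _) hh, ?_⟩
    rw [sum_ncr c π hp0] at a3
    have := Nat.mul_le_mul_right (c.tInst + 2) hl3.le
    omega

end TupP

set_option maxRecDepth 8000 in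
theorem sTup (h1 : SLoad) (h2 : SPre) (h3 : SRoots) (h4 : SInst) : STup := by
  intro E c hB σ t π z hP hz h90
  have hbig := hB.big
  have hPl := TupP.P_lim hB
  have hP0 := c.P_pos
  have ok := hP.ok
  unfold pTup
  rw [wp_blk_cons]
  refine (h1 hB hP.par hP.n0 h90).call [33, 34] [6] false (by decide) ?_
  rintro σ₁ t₁ hF₁ ⟨a1, a2⟩
  have hT₁ : Tup c E π z σ₁ := ⟨hP.frame hF₁ (by decide) (by decide), hz, a1⟩
  rw [wp_blk_cons]
  refine (h2 hB hT₁).call [0, 33, 60, 64, 65, 66] [] false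
    (by decide : (pPre []).Within [0, 33, 60, 64, 65, 66] [] false) ?_
  rintro σ₂ t₂ hF₂ ⟨b1, b2, b3⟩
  have hT₂ := hT₁.frame hF₂ (by decide) (by decide)
  rw [hF₁.var 0 (by decide)] at b1
  rw [wp_blk_cons, wp_set]
  refine ⟨by simp only [Expr.safe]; omega, ?_⟩
  rw [wp_blk_cons, wp_set]
  refine ⟨by simp only [Expr.safe], ?_⟩
  simp only [Expr.eval, St.setv_var, Nat.reduceEqDiff, if_false, hT₂.pre.q1]
  set σ₃ := (σ₂.setv 40 0).setv 61 π.q1 with hσ₃
  have hF₃ : Frame [40, 61] [] false σ₂ σ₃ :=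
    (((Frame.refl _ _ _ _).of_setv (by decide)).of_setv (by decide))
  have hT₃ := hT₂.frame hF₃ (by decide) (by decide)
  rw [wp_blk_cons]
  refine (h3 hB hT₃ (o := 0) (q := π.q1) (by simp [hσ₃]) (by simp [hσ₃]) (Nat.zero_le _)
    ok.p1.pos ok.l1.le).call [35, 41, 60, 62, 63, 64, 65, 66] [10, 11, 12] false
    (by decide : (pRoots []).Within [35, 41, 60, 62, 63, 64, 65, 66] [10, 11, 12] false) ?_
  rintro σ₄ t₄ hF₄ ⟨d1, -, -, d4⟩
  have hT₄ := hT₃.frame hF₄ (by decide) (by decide)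
  rw [wp_blk_cons, wp_set]
  refine ⟨by simp only [Expr.safe], ?_⟩
  rw [wp_blk_cons, wp_set]
  refine ⟨by simp only [Expr.safe], ?_⟩
  simp only [Expr.eval, St.setv_var, Nat.reduceEqDiff, if_false, hT₄.pre.q2, hT₄.pre.par.P]
  set σ₅ := (σ₄.setv 40 c.P).setv 61 π.q2 with hσ₅
  have hF₅ : Frame [40, 61] [] false σ₄ σ₅ :=
    (((Frame.refl _ _ _ _).of_setv (by decide)).of_setv (by decide))
  have hT₅ := hT₄.frame hF₅ (by decide) (by decide)
  rw [wp_blk_cons]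
  refine (h3 hB hT₅ (o := c.P) (q := π.q2) (by simp [hσ₅]) (by simp [hσ₅]) le_rfl
    ok.p2.pos ok.l2.le).call [35, 41, 60, 62, 63, 64, 65, 66] [10, 11, 12] false
    (by decide : (pRoots []).Within [35, 41, 60, 62, 63, 64, 65, 66] [10, 11, 12] false) ?_
  rintro σ₆ t₆ hF₆ ⟨e1, e2, e3, e4⟩
  have hT₆ := hT₅.frame hF₆ (by decide) (by decide)
  have r1 : ∀ u < π.q1, LstAt c u π.q1 (c.rt z π.q1 u) σ₆ := fun u hu => by
    have g := d1 u hu
    rw [Nat.zero_add] at g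
    exact TupP.lst_keep (σ := σ₅) hu ok.l1.le g e2 e3
  rw [wp_blk_cons]
  refine (TupP.pRes_loop h4 hB hT₆ r1 e1).mono ?_
  rintro σ₇ t₇ ⟨f1, f2, f3⟩
  rw [hF₆.var 0 (by decide), hF₅.var 0 (by decide), hF₄.var 0 (by decide),
    hF₃.var 0 (by decide)] at f1
  rw [wp_blk_nil]
  refine ⟨b1.trans f1, ?_, by unfold Cx.tTup; omega⟩
  rintro ⟨i, hi, g | g⟩
  · exact f1.one (b2 i hi g)
  · exact f2 i hi g

set_option maxRecDepth 8000 in
theorem sLoop (h : STup) : SLoop := by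
  intro E c hB σ t π hP
  have hbig := hB.big
  have hNT := hB.lNT
  have hNT0 := c.NT_pos
  unfold pLoop
  refine wp_for (body := pTup c.T) c.NT c.tTup
    (fun m σ' => c.Out (σ.var 0) (σ'.var 0) ∧ (∀ z < m, c.Hit π z → σ'.var 0 = 1))
    [0, 33, 34, 35, 36, 37, 38, 39, 40, 41, 42, 43, 44, 45, 46, 47, 48, 49, 50, 51, 52, 53, 54, 55,
      56, 57, 58, 59, 60, 61, 62, 63, 64, 65, 66, 67, 68, 69, 70, 71, 72, 73, 74, 91]
    [6, 9, 10, 11, 12, 13, 14] false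
    (by decide : (pTup []).Within
      [0, 33, 34, 35, 36, 37, 38, 39, 40, 41, 42, 43, 44, 45, 46, 47, 48, 49, 50, 51, 52, 53, 54,
        55, 56, 57, 58, 59, 60, 61, 62, 63, 64, 65, 66, 67, 68, 69, 70, 71, 72, 73, 74, 91]
      [6, 9, 10, 11, 12, 13, 14] false)
    (by decide) (by decide) (by decide) hP.par.NT (by omega) (by omega)
    ⟨Or.inl (by simp), by simp⟩ ?_
    fun σ' t' _ hI ht => ⟨hI.1, hI.2, by unfold Cx.tLoop; omega⟩
  intro z σ₁ t₁ hz hF₁ h90 ⟨a1, a2⟩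
  refine (h hB (hP.frame hF₁ (by decide) (by decide)) hz h90).mono ?_
  rintro σ₂ t₂ ⟨b1, b2, b3⟩
  refine ⟨⟨by simpa using a1.trans b1, fun z' hz' hh => ?_⟩, b3⟩
  simp only [St.setv_var, Nat.reduceEqDiff, if_false]
  by_cases g : z' = z
  · subst g; exact b2 hh
  · exact b1.one (a2 z' (by omega) hh)

end Pool.Agent.P.MP_8f87b2_lc.PL
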