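import Pool.Agent.P.MP_8f87b2_lc.PL.Decide
import Pool.Agent.P.MP_8f87b2_lc.PL.Emb
import Pool.Agent.P.MP_8f87b2_lc.PL.SZ
import Pool.Agent.P.MP_8f87b2_lc.PL.Mod
import Pool.Agent.P.MP_8f87b2_lc.PL.Prime
import Pool.Agent.P.MP_8f87b2_lc.PL.Tabs
import Pool.Agent.P.MP_8f87b2_lc.PL.Exp
import Pool.Agent.P.MP_8f87b2_lc.PL.Roots
import Pool.Agent.P.MP_8f87b2_lc.PL.Str
import Pool.Agent.P.MP_8f87b2_lc.PL.Fill
import Pool.Agent.P.MP_8f87b2_lc.PL.Enc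
import Pool.Agent.P.MP_8f87b2_lc.PL.Sum
import Pool.Agent.P.MP_8f87b2_lc.PL.Root
import Pool.Agent.P.MP_8f87b2_lc.PL.One
import Pool.Agent.P.MP_8f87b2_lc.PL.Tup
import Pool.Agent.P.MP_8f87b2_lc.PL.Setup
import Pool.Agent.P.MP_8f87b2_lc.PL.Num
import Pool.Agent.P.MP_8f87b2_lc.PL.Time
import Pool.Agent.P.MP_8f87b2_lc.PL.Prob

/-!
# Assembly of the algebraic 3SUM algorithm
-/

namespace Pool.Agent.P.MP_8f87b2_lc.PL

theorem sMainAll : SMain :=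
  have hDiv : SDiv := sDiv sMod
  have hPut : SPut := sPut sW
  have hMom : SMom := sMom (sOut sW) sSum (sRoot sEmb) sEmb
  have hQuery : SQuery := sQuery (sItem (sOne hMom sAccE))
  have hInst : SInst := sInst sZero (sFillX hDiv hPut) (sFillY hPut) sEnc sU hQuery
  have hTup : STup := sTup sLoad sPre (sRoots hDiv) hInst
  sMain sSetup (sPrep sSieve sPrimes sPick (sRes sMod) sTab sL1 sL2) (sLoop hTup)

theorem decides (F : MvPolynomial (Fin 3) ℤ) (c : ℕ) : DecidesP F c (2 - 1 / 30000) :=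
  decides_of sMainAll (pMain_wf eH_wf eAcc_wf) sK sNm sBnd (sTime sNm) sGood (sComplete sSZ) F c

end Pool.Agent.P.MP_8f87b2_lc.PL
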