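import Pool.Agent.P.MP_8f87b2_lc.PL.Digits

/-!
# Zeta transform and trimmed Moebius inversion on digit strings
-/

namespace Pool.Agent.P.MP_8f87b2_lc.PL

open Finset

/-- the zeta transform after the passes `0, …, t - 1` -/
def zeta (X : ℕ → ℤ) : ℕ → ℕ → ℤ
  | 0, p => X p
  | t + 1, p => if dig t p = 0 then zeta X t p else zeta X t p + zeta X t (clr t p)

theorem low_ex (l p : ℕ) : ∃ t, l ≤ t ∨ dig t p = 0 := ⟨l, Or.inl le_rfl⟩

/-- the position of the lowest blank, or `l` -/
def low (l p : ℕ) : ℕ := Nat.find (low_ex l p)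

theorem low_le (l p : ℕ) : low l p ≤ l := Nat.find_min' _ (Or.inl le_rfl)

theorem lt_low_iff {l p t : ℕ} : t < low l p ↔ ∀ u ≤ t, u < l ∧ dig u p ≠ 0 := by
  unfold low
  rw [Nat.lt_find_iff]
  simp [not_or]

theorem low_eq {l p t : ℕ} (h1 : ∀ u < t, u < l ∧ dig u p ≠ 0) (h2 : l ≤ t ∨ dig t p = 0) :
    low l p = t := by
  unfold low
  rw [Nat.find_eq_iff]
  exact ⟨h2, fun u hu => by simpa [not_or] using h1 u hu⟩

/-- the Moebius sum over the positions below the lowest blank -/
def Uv (P : ℕ → ℤ) (l p : ℕ) : ℤ :=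
  ∑ T ∈ (range (low l p)).powerset, (-1) ^ T.card * P (msk l T p)

theorem sum_powerset_range (g : Finset ℕ → ℤ) (m : ℕ) :
    ∑ T ∈ (range m).powerset, g T =
      g ∅ + ∑ t ∈ range m, ∑ T ∈ (range t).powerset, g (insert t T) := by
  induction m with
  | zero => simp
  | succ m ih =>
    rw [range_add_one, sum_powerset_insert (by simp), ih, sum_insert (by simp)]
    ring

theorem low_clr {l p t : ℕ} (hp : p < 65536 ^ l) (ht : t < low l p) : low l (clr t p) = t := by
  rw [lt_low_iff] at ht
  have htl := (ht t le_rfl).1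
  refine low_eq (fun u hu => ⟨by omega, ?_⟩) (Or.inr ?_)
  · rw [dig_clr htl hp (by omega), if_neg (by omega)]
    exact (ht u hu.le).2
  · rw [dig_clr htl hp htl, if_pos rfl]

theorem Uv_rec (P : ℕ → ℤ) {l p : ℕ} (hp : p < 65536 ^ l) :
    Uv P l p = P p - ∑ t ∈ range (low l p), Uv P l (clr t p) := by
  unfold Uv
  rw [sum_powerset_range, msk_empty hp, sub_eq_add_neg, ← sum_neg_distrib]
  simp only [card_empty, pow_zero, one_mul]
  congr 1
  refine sum_congr rfl fun t ht => ?_
  have ht' := mem_range.mp ht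
  rw [low_clr hp ht', ← sum_neg_distrib]
  refine sum_congr rfl fun T hT => ?_
  have hnot : t ∉ T := fun h => by simpa using mem_powerset.mp hT h
  rw [card_insert_of_notMem hnot, clr_eq_msk (lt_of_lt_of_le ht' (low_le _ _)) hp, msk_msk,
    union_comm, ← insert_eq]
  ring

section root

variable {l j : ℕ}

theorem zeta_msk (X : ℕ → ℤ) (hj : cnt l j = 0) {t : ℕ} (ht : t ≤ l) (T : Finset ℕ) :
    zeta X t (msk l T j) = ∑ T₁ ∈ (range t \ T).powerset, X (msk l (T ∪ T₁) j) := by
  rw [cnt_eq_zero] at hj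
  induction t generalizing T with
  | zero => simp [zeta]
  | succ t ih =>
    have htl : t < l := ht
    rw [zeta, dig_msk htl]
    by_cases h : t ∈ T
    · have : range (t + 1) \ T = range t \ T := by
        ext u; simp only [mem_sdiff, mem_range]
        constructor
        · rintro ⟨h1, h2⟩
          exact ⟨lt_of_le_of_ne (by omega) (by rintro rfl; exact h2 h), h2⟩
        · rintro ⟨h1, h2⟩; exact ⟨by omega, h2⟩
      rw [if_pos (by simp [h]), ih htl.le, this]
    · have : range (t + 1) \ T = insert t (range t \ T) := by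
        ext u; simp only [mem_sdiff, mem_range, mem_insert]
        constructor
        · rintro ⟨h1, h2⟩
          rcases Nat.lt_succ_iff_lt_or_eq.mp h1 with h3 | h3
          exacts [Or.inr ⟨h3, h2⟩, Or.inl h3]
        · rintro (rfl | ⟨h1, h2⟩)
          exacts [⟨by omega, h⟩, ⟨by omega, h2⟩]
      have h2 : range t \ ({t} ∪ T) = range t \ T := by
        ext u; simp only [mem_sdiff, mem_range, mem_union, mem_singleton]
        constructor
        · rintro ⟨h1, h2⟩; exact ⟨h1, fun h => h2 (Or.inr h)⟩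
        · rintro ⟨h1, h2⟩; exact ⟨h1, by rintro (h | h); exacts [by omega, h2 h]⟩
      rw [if_neg (by simpa [h] using hj t htl), ih htl.le, clr_eq_msk htl (msk_lt _ _ _),
        msk_msk, ih htl.le, this, sum_powerset_insert (by simp), h2]
      congr 1
      refine sum_congr rfl fun T₁ _ => ?_
      congr 2
      ext u; simp only [mem_union, mem_singleton, mem_insert]; tauto

theorem zeta_msk_top (X : ℕ → ℤ) (hj : cnt l j = 0) {T : Finset ℕ} (hT : T ⊆ range l) :
    zeta X l (msk l T j) = ∑ S ∈ (range l).powerset, if T ⊆ S then X (msk l S j) else 0 := by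
  rw [zeta_msk X hj le_rfl, ← sum_filter]
  refine sum_bij' (fun T₁ _ => T ∪ T₁) (fun S _ => S \ T) ?_ ?_ ?_ ?_ ?_
  · intro T₁ h
    simp only [mem_powerset, mem_filter] at h ⊢
    exact ⟨union_subset hT (h.trans sdiff_subset), subset_union_left⟩
  · intro S h
    simp only [mem_powerset, mem_filter] at h ⊢
    exact sdiff_subset_sdiff h.1 subset_rfl
  · intro T₁ h
    simp only [mem_powerset] at h
    rw [union_sdiff_left, sdiff_eq_self_of_disjoint]
    exact disjoint_of_subset_left h sdiff_disjoint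
  · intro S h
    simp only [mem_filter] at h
    exact union_sdiff_of_subset h.2
  · intro T₁ _; rfl

/-- Moebius inversion at a blank-free string: only complementary pairs survive. -/
theorem moebius_root (X Y : ℕ → ℤ) {h : ℕ} (hl : l = 2 * h) (hj : cnt l j = 0)
    (hX : ∀ p, cnt l p ≠ h → X p = 0) (hY : ∀ p, cnt l p ≠ h → Y p = 0) :
    ∑ T ∈ (range l).powerset, (-1) ^ T.card * (zeta X l (msk l T j) * zeta Y l (msk l T j)) =
      ∑ S ∈ (range l).powersetCard h, X (msk l S j) * Y (msk l (range l \ S) j) := by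
  have e1 : ∀ T ∈ (range l).powerset,
      (-1) ^ T.card * (zeta X l (msk l T j) * zeta Y l (msk l T j)) =
      ∑ S ∈ (range l).powerset, ∑ S' ∈ (range l).powerset,
        X (msk l S j) * Y (msk l S' j) * (if T ⊆ S ∩ S' then (-1) ^ T.card else 0) := by
    intro T hT
    rw [zeta_msk_top X hj (mem_powerset.mp hT), zeta_msk_top Y hj (mem_powerset.mp hT),
      sum_mul_sum, mul_sum]
    refine sum_congr rfl fun S _ => ?_
    rw [mul_sum]
    refine sum_congr rfl fun S' _ => ?_
    by_cases h1 : T ⊆ S <;> by_cases h2 : T ⊆ S' <;> simp [h1, h2, subset_inter_iff]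
    ring
  rw [sum_congr rfl e1, sum_comm]
  have e2 : ∀ S ∈ (range l).powerset, ∑ T ∈ (range l).powerset, ∑ S' ∈ (range l).powerset,
        X (msk l S j) * Y (msk l S' j) * (if T ⊆ S ∩ S' then (-1) ^ T.card else 0) =
      if S.card = h then X (msk l S j) * Y (msk l (range l \ S) j) else 0 := by
    intro S hS
    have hS' := mem_powerset.mp hS
    rw [sum_comm]
    have e3 : ∀ S' ∈ (range l).powerset, ∑ T ∈ (range l).powerset,
        X (msk l S j) * Y (msk l S' j) * (if T ⊆ S ∩ S' then (-1) ^ T.card else 0) =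
        X (msk l S j) * Y (msk l S' j) * (if S ∩ S' = ∅ then 1 else 0) := by
      intro S' _
      rw [← mul_sum, ← sum_filter, ← sum_powerset_neg_one_pow_card]
      congr 2
      ext T
      simp only [mem_filter, mem_powerset]
      exact ⟨fun h => h.2, fun h => ⟨h.trans (inter_subset_left.trans hS'), h⟩⟩
    rw [sum_congr rfl e3]
    split_ifs with hc
    · rw [sum_eq_single (range l \ S)]
      · simp
      · intro S' hS2 hne
        have hS2' := mem_powerset.mp hS2
        by_cases h1 : S ∩ S' = ∅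
        · have : S'.card ≠ h := by
            intro h2
            apply hne
            refine eq_of_subset_of_card_le (fun u hu => ?_) ?_
            · refine mem_sdiff.mpr ⟨hS2' hu, fun h3 => ?_⟩
              have : u ∈ S ∩ S' := mem_inter.mpr ⟨h3, hu⟩
              simp [h1] at this
            · rw [card_sdiff_of_subset hS', card_range]; omega
          rw [hY _ (by rwa [cnt_msk hj hS2'])]; simp
        · simp [h1]
      · intro h1; exact absurd (mem_powerset.mpr sdiff_subset) h1
    · rw [hX _ (by rwa [cnt_msk hj hS'])]; simp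
  rw [sum_congr rfl e2, ← sum_filter, powersetCard_eq_filter]

theorem lt_low_msk (hj : cnt l j = 0) {T : Finset ℕ} {t : ℕ} :
    t < low l (msk l T j) ↔ t < l ∧ ∀ u ∈ T, t < u := by
  rw [cnt_eq_zero] at hj
  rw [lt_low_iff]
  constructor
  · intro h
    refine ⟨(h t le_rfl).1, fun u hu => ?_⟩
    by_contra h1
    have h2 := h u (by omega)
    exact h2.2 (by rw [dig_msk h2.1, if_pos hu])
  · rintro ⟨h1, h2⟩ u hu
    refine ⟨by omega, ?_⟩
    rw [dig_msk (by omega), if_neg (fun h => by have := h2 u h; omega)]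
    exact hj u (by omega)

theorem sum_Uv_step (P : ℕ → ℤ) (hj : cnt l j = 0) (s : ℕ) :
    ∑ T ∈ (range l).powersetCard s, Uv P l (msk l T j) =
      ∑ T ∈ (range l).powersetCard s, P (msk l T j) -
        ∑ T ∈ (range l).powersetCard (s + 1), Uv P l (msk l T j) := by
  rw [sum_congr rfl fun T _ => Uv_rec P (msk_lt l T j), sum_sub_distrib]
  congr 1
  rw [sum_sigma']
  have hne : ∀ T ∈ (range l).powersetCard (s + 1), T.Nonempty := fun T hT => by
    rw [← card_pos, (mem_powersetCard.mp hT).2]; omega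
  refine sum_bij' (fun x _ => insert x.2 x.1)
    (fun T hT => ⟨T.erase (T.min' (hne T hT)), T.min' (hne T hT)⟩) ?_ ?_ ?_ ?_ ?_
  · rintro ⟨T, t⟩ h
    simp only [mem_sigma, mem_powersetCard, mem_range, lt_low_msk hj] at h ⊢
    obtain ⟨⟨h1, h2⟩, h3, h4⟩ := h
    refine ⟨insert_subset (mem_range.mpr h3) h1, ?_⟩
    rw [card_insert_of_notMem (fun h => lt_irrefl _ (h4 t h)), h2]
  · intro T hT
    have hm := min'_mem T (hne T hT)
    have hT' := mem_powersetCard.mp hT
    simp only [mem_sigma, mem_powersetCard, mem_range, lt_low_msk hj]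
    refine ⟨⟨(erase_subset _ _).trans hT'.1, ?_⟩, mem_range.mp (hT'.1 hm), fun u hu => ?_⟩
    · rw [card_erase_of_mem hm, hT'.2]; rfl
    · exact lt_of_le_of_ne (min'_le _ _ (mem_of_mem_erase hu)) (ne_of_mem_erase hu).symm
  · rintro ⟨T, t⟩ h
    simp only [mem_sigma, mem_powersetCard, mem_range, lt_low_msk hj] at h
    obtain ⟨⟨h1, h2⟩, h3, h4⟩ := h
    have hmin : ∀ H, (insert t T).min' H = t := fun H => by
      refine le_antisymm (min'_le _ _ (mem_insert_self _ _)) (le_min' _ _ _ fun u hu => ?_)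
      rcases mem_insert.mp hu with rfl | hu
      exacts [le_rfl, (h4 u hu).le]
    simp only [hmin]
    rw [erase_insert (fun h => lt_irrefl _ (h4 t h))]
  · intro T hT
    exact insert_erase (min'_mem _ (hne T hT))
  · rintro ⟨T, t⟩ h
    simp only [mem_sigma, mem_powersetCard, mem_range, lt_low_msk hj] at h
    rw [clr_eq_msk h.2.1 (msk_lt _ _ _), msk_msk, ← insert_eq]

theorem moebius_split (P : ℕ → ℤ) (hjl : j < 65536 ^ l) (hj : cnt l j = 0) (s : ℕ) :
    ∑ T ∈ (range l).powerset, (-1) ^ T.card * P (msk l T j) =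
      ∑ T ∈ (range l).powerset with T.card ≤ s,
        (-1) ^ T.card * (if T.card = s then Uv P l (msk l T j) else P (msk l T j)) := by
  have split : ∀ (s : ℕ) (f : Finset ℕ → ℤ), ∑ T ∈ (range l).powerset with T.card ≤ s, f T =
      ∑ T ∈ (range l).powerset with T.card < s, f T + ∑ T ∈ (range l).powersetCard s, f T := by
    intro s f
    rw [powersetCard_eq_filter, ← sum_union]
    · congr 1
      ext T; simp only [mem_filter, mem_union]
      constructor
      · rintro ⟨h1, h2⟩
        rcases h2.lt_or_eq with h | h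
        exacts [Or.inl ⟨h1, h⟩, Or.inr ⟨h1, h⟩]
      · rintro (⟨h1, h2⟩ | ⟨h1, h2⟩)
        exacts [⟨h1, h2.le⟩, ⟨h1, h2.le⟩]
    · rw [disjoint_filter]; intro T _ h; omega
  have key : ∀ s : ℕ, ∑ T ∈ (range l).powerset, (-1) ^ T.card * P (msk l T j) =
      ∑ T ∈ (range l).powerset with T.card < s, (-1) ^ T.card * P (msk l T j) +
        (-1) ^ s * ∑ T ∈ (range l).powersetCard s, Uv P l (msk l T j) := by
    intro s
    induction s with
    | zero =>
      have hlow : low l j = l := low_eq (fun u hu => ⟨hu, cnt_eq_zero.mp hj u hu⟩) (Or.inl le_rfl)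
      simp [Uv, msk_empty hjl, hlow]
    | succ s ih =>
      have : ∑ T ∈ (range l).powersetCard s, (-1) ^ T.card * P (msk l T j) =
          (-1) ^ s * ∑ T ∈ (range l).powersetCard s, P (msk l T j) := by
        rw [mul_sum]
        exact sum_congr rfl fun T hT => by rw [(mem_powersetCard.mp hT).2]
      rw [ih, sum_Uv_step P hj]
      simp only [Nat.lt_succ_iff]
      rw [split, this]
      ring
  rw [key s, split, mul_sum]
  congr 1
  · exact sum_congr rfl fun T hT => by rw [if_neg (mem_filter.mp hT).2.ne]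
  · exact sum_congr rfl fun T hT => by rw [(mem_powersetCard.mp hT).2, if_pos rfl]

end root

/-- number of digits other than `0` and `65535` -/
def odd (l p : ℕ) : ℕ := ((range l).filter fun t => dig t p ≠ 0 ∧ dig t p ≠ 65535).card

/-- the masks with at most `s` blanks -/
def masks (l s : ℕ) : Finset ℕ := (range (65536 ^ l)).filter fun p => odd l p = 0 ∧ cnt l p ≤ s

theorem cnt_ones (l : ℕ) : cnt l (65536 ^ l - 1) = 0 :=
  cnt_eq_zero.mpr fun t ht => by rw [dig_ones ht]; norm_num

theorem sum_masks {R : Type*} [AddCommMonoid R] (l s : ℕ) (f : ℕ → R) :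
    ∑ μ ∈ masks l s, f μ =
      ∑ T ∈ (range l).powerset with T.card ≤ s, f (msk l T (65536 ^ l - 1)) := by
  symm
  refine sum_bij' (fun T _ => msk l T (65536 ^ l - 1))
    (fun μ _ => (range l).filter fun t => dig t μ = 0) ?_ ?_ ?_ ?_ ?_
  · intro T hT
    simp only [mem_filter, mem_powerset] at hT
    simp only [masks, mem_filter, mem_range]
    refine ⟨msk_lt _ _ _, ?_, by rw [cnt_msk (cnt_ones l) hT.1]; exact hT.2⟩
    simp only [odd, card_eq_zero, filter_eq_empty_iff, mem_range]
    intro t ht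
    rw [dig_msk ht, dig_ones ht]
    split_ifs <;> simp
  · intro μ hμ
    simp only [masks, mem_filter, mem_range] at hμ
    simp only [mem_filter, mem_powerset]
    exact ⟨filter_subset _ _, hμ.2.2⟩
  · intro T hT
    simp only [mem_filter, mem_powerset] at hT
    ext t
    simp only [mem_filter, mem_range]
    constructor
    · rintro ⟨h1, h2⟩
      rw [dig_msk h1, dig_ones h1] at h2
      by_contra h; simp [h] at h2
    · intro h
      have h1 := mem_range.mp (hT.1 h)
      exact ⟨h1, by rw [dig_msk h1, if_pos h]⟩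
  · intro μ hμ
    simp only [masks, mem_filter, mem_range, odd, card_eq_zero, filter_eq_empty_iff] at hμ
    refine dig_ext (msk_lt _ _ _) hμ.1 fun t ht => ?_
    rw [dig_msk ht, dig_ones ht]
    have := hμ.2.1 ht
    by_cases h : dig t μ = 0
    · simp [h, ht]
    · simp only [mem_filter, mem_range, h, and_false, if_false]
      by_contra h2
      exact this ⟨h, fun h3 => h2 h3.symm⟩
  · intro T _; rfl

/-- the value computed at a needed output -/
def zval (P : ℕ → ℤ) (l s j : ℕ) : ℤ :=
  ∑ μ ∈ masks l s, (-1) ^ cnt l μ * (if cnt l μ = s then Uv P l (j &&& μ) else P (j &&& μ))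

theorem zval_eq (X Y : ℕ → ℤ) {l h j : ℕ} (s : ℕ) (hl : l = 2 * h) (hjl : j < 65536 ^ l)
    (hj : cnt l j = 0) (hX : ∀ p, cnt l p ≠ h → X p = 0) (hY : ∀ p, cnt l p ≠ h → Y p = 0) :
    zval (fun p => zeta X l p * zeta Y l p) l s j =
      ∑ S ∈ (range l).powersetCard h, X (msk l S j) * Y (msk l (range l \ S) j) := by
  rw [← moebius_root X Y hl hj hX hY, moebius_split (fun p => zeta X l p * zeta Y l p) hjl hj s,
    zval, sum_masks]
  refine sum_congr rfl fun T hT => ?_
  simp only [mem_filter, mem_powerset] at hT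
  rw [cnt_msk (cnt_ones l) hT.1, and_msk hjl]

end Pool.Agent.P.MP_8f87b2_lc.PL
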