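import Pool.Agent.P.MP_8f87b2_lc.Compile
import Pool.Agent.P.MP_8f87b2_lc.PL.Ctx

/-!
# The specifications of the program fragments
-/

namespace Pool.Agent.P.MP_8f87b2_lc.PL

open Finset

def SMod : Prop := ∀ {E : Env} {c : Cx}, Bnd c E → ∀ {σ : St} {t : ℕ}, Par c σ →
  ∀ {x q : ℕ}, σ.var 60 = x → σ.var 61 = q → x < 2 ^ c.Ab → 0 < q → q ≤ c.P →
  WP E pMod (fun σ' t' => σ'.var 62 = x % q ∧ t' ≤ t + c.tMod) σ t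

def SRes : Prop := ∀ {E : Env} {c : Cx}, Bnd c E → ∀ {σ : St} {t : ℕ}, Par c σ →
  ∀ {π : Pr}, π.OK c → σ.var 80 = π.q1 → σ.var 81 = π.q2 → σ.var 82 = π.p →
  WP E pRes (fun σ' t' => (∀ d < 3 * c.n, σ'.bank 7 d = res π.p (c.y (d + 1)) ∧
    σ'.bank 7 (3 * c.n + d) = res π.q1 (c.y (d + 1)) ∧
    σ'.bank 7 (3 * c.n + 3 * c.n + d) = res π.q2 (c.y (d + 1))) ∧ t' ≤ t + c.tRes) σ t

def SSieve : Prop := ∀ {E : Env} {c : Cx}, Bnd c E → ∀ {σ : St} {t : ℕ}, Par c σ →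
  (∀ a, σ.bank 0 a = 0) →
  WP E pSieve (fun σ' t' => (∀ x < c.P, 1 < x → (σ'.bank 0 x = 0 ↔ x.Prime)) ∧
    t' ≤ t + (c.P * (c.P * 4 + 4) + 2)) σ t

def SPrimes : Prop := ∀ {E : Env} {c : Cx}, Bnd c E → ∀ {σ : St} {t : ℕ}, Par c σ →
  (∀ x < c.P, 1 < x → (σ.bank 0 x = 0 ↔ x.Prime)) →
  WP E pPrimes (fun σ' t' =>
    (∀ i, Nat.nth Nat.Prime i < c.P → σ'.bank 1 i = Nat.nth Nat.Prime i) ∧
    t' ≤ t + (c.P * 5 + 3)) σ t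

def SPick : Prop := ∀ {E : Env} {c : Cx}, Bnd c E → ∀ {σ : St} {t : ℕ}, Par c σ →
  ∀ {r : ℕ}, r < 2 ^ c.k1 → σ.var 19 = r →
  (∀ i, Nat.nth Nat.Prime i < c.P → σ.bank 1 i = Nat.nth Nat.Prime i) →
  WP E pPick (fun σ' t' => σ'.var 80 = (c.pr r).q1 ∧ σ'.var 81 = (c.pr r).q2 ∧
    σ'.var 82 = (c.pr r).p ∧ t' ≤ t + 3) σ t

def STab : Prop := ∀ {E : Env} {c : Cx}, Bnd c E → ∀ {σ : St} {t : ℕ}, Par c σ →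
  WP E pTab (fun σ' t' => (∀ p < c.A, σ'.bank 15 p = inv c.l p ∧ σ'.bank 2 p = cnt c.l p ∧
    σ'.bank 3 p = odd c.l p) ∧ t' ≤ t + c.tTab) σ t

def SL1 : Prop := ∀ {E : Env} {c : Cx}, Bnd c E → ∀ {σ : St} {t : ℕ}, Par c σ →
  (∀ p < c.A, σ.bank 15 p = inv c.l p) → (∀ p < c.A, σ.bank 2 p = cnt c.l p) →
  WP E pL1 (fun σ' t' => σ'.var 20 = c.L1.length ∧
    (∀ i < c.L1.length, σ'.bank 4 i = c.L1.getD i 0) ∧ t' ≤ t + (c.A * 5 + 3)) σ t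

def SL2 : Prop := ∀ {E : Env} {c : Cx}, Bnd c E → ∀ {σ : St} {t : ℕ}, Par c σ →
  (∀ p < c.A, σ.bank 3 p = odd c.l p) → (∀ p < c.A, σ.bank 2 p = cnt c.l p) →
  WP E pL2 (fun σ' t' => σ'.var 21 = c.L2.length ∧
    (∀ i < c.L2.length, σ'.bank 5 i = c.L2.getD i 0) ∧ t' ≤ t + (c.A * 5 + 3)) σ t

def SZero : Prop := ∀ {E : Env} {c : Cx}, Bnd c E → ∀ {σ : St} {t : ℕ}, Par c σ →
  WP E pZero (fun σ' t' => (∀ a < 2 * c.GE * c.A, σ'.bank 13 a = 0) ∧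
    t' ≤ t + (2 * c.GE * c.A * 3 + 2)) σ t

def SLoad : Prop := ∀ {E : Env} {c : Cx}, Bnd c E → ∀ {σ : St} {t : ℕ}, Par c σ → 1 ≤ c.n →
  ∀ {z : ℕ}, σ.var 90 = z →
  WP E pLoad (fun σ' t' => (∀ u < c.d, (σ'.bank 6 u : ZMod E.W) = (c.wz z u : ℤ)) ∧
    t' ≤ t + (c.d * 6 + 2)) σ t

def SH : Prop := ∀ {E : Env} {c : Cx}, Bnd c E → ∀ {σ : St} {t : ℕ} {π : Pr} {z : ℕ},
  Tup c E π z σ → ∀ {x y u : ℤ}, (σ.var 64 : ZMod E.W) = x → (σ.var 65 : ZMod E.W) = y →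
  (σ.var 66 : ZMod E.W) = u → |x| ≤ c.V → |y| ≤ c.V → |u| ≤ c.V →
  WP E (pH c.T) (fun σ' t' => (σ'.var 60 : ℤ) = c.H z x y u ∧ t' ≤ t + 1) σ t

def SDiv : Prop := ∀ {E : Env} {c : Cx}, Bnd c E → ∀ {σ : St} {t : ℕ} {π : Pr} {z : ℕ},
  Tup c E π z σ → ∀ {x y u q : ℕ}, σ.var 64 = x → σ.var 65 = y → σ.var 66 = u → σ.var 61 = q →
  x ≤ c.P → y ≤ c.P → u ≤ c.P → 0 < q → q ≤ c.P →
  WP E (pDiv c.T) (fun σ' t' => (σ'.var 62 = 0 ↔ (q : ℤ) ∣ c.H z x y u) ∧ t' ≤ t + c.tDiv) σ t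

/-- the expression for the accumulated value -/
def SAccE : Prop := ∀ {E : Env} {c : Cx}, Bnd c E → ∀ {σ : St} {π : Pr} {z : ℕ},
  Tup c E π z σ → ∀ {u : ℤ} {M : ℕ → ℕ → ℤ}, (σ.var 66 : ZMod E.W) = u →
  (∀ i < c.e, ∀ j < c.e, (σ.bank 9 (i * c.e + j) : ZMod E.W) = (M i j : ℤ)) →
  (eAcc c.T).safe E σ ∧ (eAcc c.T).eval E σ < E.W ∧ (((eAcc c.T).eval E σ : ℕ) : ZMod E.W) =
    (tsum (c.wz z) c.T (fun τ => u ^ τ.k * M τ.i τ.j) : ℤ)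

def SPre : Prop := ∀ {E : Env} {c : Cx}, Bnd c E → ∀ {σ : St} {t : ℕ} {π : Pr} {z : ℕ},
  Tup c E π z σ →
  WP E (pPre c.T) (fun σ' t' => c.Out (σ.var 0) (σ'.var 0) ∧
    (∀ i < c.n, c.H z (c.ya 0) (c.yb 0) (c.yc i) = 0 → σ'.var 0 = 1) ∧
    t' ≤ t + (c.n * 6 + 4)) σ t

def SRoots : Prop := ∀ {E : Env} {c : Cx}, Bnd c E → ∀ {σ : St} {t : ℕ} {π : Pr} {z : ℕ},
  Tup c E π z σ → ∀ {o q : ℕ}, σ.var 40 = o → σ.var 61 = q → o ≤ c.P → 0 < q → q ≤ c.P →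
  WP E (pRoots c.T) (fun σ' t' => (∀ u < q, LstAt c (o + u) q (c.rt z q u) σ') ∧
    (∀ a < o, σ'.bank 12 a = σ.bank 12 a) ∧
    (∀ a < o * (c.P * c.P), σ'.bank 10 a = σ.bank 10 a ∧ σ'.bank 11 a = σ.bank 11 a) ∧
    t' ≤ t + c.tRoots) σ t

def SW : Prop := ∀ {E : Env} {c : Cx}, Bnd c E → ∀ {σ : St} {t : ℕ}, Par c σ →
  WP E pW (fun σ' t' => σ'.var 73 = wd c.m (σ.var 70) (σ.var 71) (σ.var 72) ∧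
    t' ≤ t + c.tW) σ t

def SPut : Prop := ∀ {E : Env} {c : Cx}, Bnd c E → ∀ {σ : St} {t : ℕ}, Par c σ →
  ∀ {g u : ℕ} {x : ℤ} {B : ℕ → ℤ}, σ.var 45 = g → g + c.e ≤ 2 * c.GE →
  (σ.var 46 : ZMod E.W) = x → wd c.m (σ.var 70) (σ.var 71) (σ.var 72) = u →
  (∀ a < 2 * c.GE * c.A, (σ.bank 13 a : ZMod E.W) = (B a : ℤ)) →
  WP E pPut (fun σ' t' =>
    (∀ a < 2 * c.GE * c.A, (σ'.bank 13 a : ZMod E.W) = (B a + c.put g u x a : ℤ)) ∧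
    t' ≤ t + c.tPut) σ t

def SOut : Prop := ∀ {E : Env} {c : Cx}, Bnd c E → ∀ {σ : St} {t : ℕ}, Par c σ →
  ∀ {x y : ℕ}, σ.var 52 = x → σ.var 53 = y →
  WP E pOut (fun σ' t' => σ'.var 34 = eO c.μ (x % c.NG) (y % c.NG) ∧ t' ≤ t + c.tOut) σ t

def SFillX : Prop := ∀ {E : Env} {c : Cx}, Bnd c E → ∀ {σ : St} {t : ℕ} {π : Pr} {z r : ℕ},
  Ins c E π z r σ → (∀ a < 2 * c.GE * c.A, σ.bank 13 a = 0) →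
  WP E (pFillX c.T) (fun σ' t' => (∀ a < 2 * c.GE * c.A, (σ'.bank 13 a : ZMod E.W) =
    (∑ i ∈ range c.n, c.TX π z r i a : ℤ)) ∧ t' ≤ t + c.tFillX) σ t

def SFillY : Prop := ∀ {E : Env} {c : Cx}, Bnd c E → ∀ {σ : St} {t : ℕ} {π : Pr},
  Pre c π σ → ∀ {B : ℕ → ℤ}, (∀ a < 2 * c.GE * c.A, (σ.bank 13 a : ZMod E.W) = (B a : ℤ)) →
  WP E pFillY (fun σ' t' => (∀ a < 2 * c.GE * c.A, (σ'.bank 13 a : ZMod E.W) =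
    (B a + ∑ i ∈ range c.n, c.TY π i a : ℤ)) ∧ t' ≤ t + c.tFillY) σ t

def SEnc : Prop := ∀ {E : Env} {c : Cx}, Bnd c E → ∀ {σ : St} {t : ℕ}, Par c σ →
  ∀ {B : ℕ → ℤ}, (∀ a < 2 * c.GE * c.A, (σ.bank 13 a : ZMod E.W) = (B a : ℤ)) →
  WP E pEnc (fun σ' t' => (∀ g < 2 * c.GE, ∀ p < c.A, (σ'.bank 13 (g * c.A + p) : ZMod E.W) =
    (zeta (fun u => B (g * c.A + u)) c.l p : ℤ)) ∧ t' ≤ t + c.tEnc) σ t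

def SU : Prop := ∀ {E : Env} {c : Cx}, Bnd c E → ∀ {σ : St} {t : ℕ} {π : Pr} {z r : ℕ},
  Pre c π σ →
  (∀ g < 2 * c.GE, ∀ p < c.A, (σ.bank 13 (g * c.A + p) : ZMod E.W) = (c.Fz π z r g p : ℤ)) →
  WP E pU (fun σ' t' => (∀ m < c.GE * c.GE, ∀ p ∈ c.L1,
    (σ'.bank 14 (m * c.A + p) : ZMod E.W) =
      (Uv (c.Pz π z r (m / c.GE) (m % c.GE)) c.l p : ℤ)) ∧ t' ≤ t + c.tU) σ t

def SSum : Prop := ∀ {E : Env} {c : Cx}, Bnd c E → ∀ {σ : St} {t : ℕ} {π : Pr} {z r : ℕ},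
  Tab c E π z r σ → ∀ {g g' j : ℕ}, g < c.GE → g' < c.GE → j < c.A → inv c.l j = 0 →
  σ.var 38 = g → σ.var 39 = g' → σ.var 34 = j →
  WP E pSum (fun σ' t' => σ'.var 47 < E.W ∧
    (σ'.var 47 : ZMod E.W) = (zval (c.Pz π z r g g') c.l c.t0 j : ℤ) ∧ t' ≤ t + c.tSum) σ t

/-- the value at the output string is the moment -/
def SRoot : Prop := ∀ {c : Cx} {π : Pr}, π.OK c → ∀ z r : ℕ, ∀ x < c.P * c.P, ∀ y < c.P * c.P,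
  ∀ ε < c.e, ∀ ε' < c.e,
  zval (c.Pz π z r (x / c.NG * c.e + ε) (y / c.NG * c.e + ε')) c.l c.t0
    (eO c.μ (x % c.NG) (y % c.NG)) = c.Mom π z r x y ε ε'

def SMom : Prop := ∀ {E : Env} {c : Cx}, Bnd c E → ∀ {σ : St} {t : ℕ} {π : Pr} {z r : ℕ},
  Tab c E π z r σ → ∀ {x y : ℕ}, x < c.P * c.P → y < c.P * c.P → σ.var 52 = x → σ.var 53 = y →
  WP E pMom (fun σ' t' => (∀ i < c.e, ∀ j < c.e, σ'.bank 9 (i * c.e + j) < E.W ∧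
    (σ'.bank 9 (i * c.e + j) : ZMod E.W) = (c.Mom π z r x y i j : ℤ)) ∧ t' ≤ t + c.tMom) σ t

def SOne : Prop := ∀ {E : Env} {c : Cx}, Bnd c E → ∀ {σ : St} {t : ℕ} {π : Pr} {z r : ℕ},
  Tab c E π z r σ → ∀ {x y i : ℕ}, x < c.P * c.P → y < c.P * c.P → i < c.n →
  σ.var 52 = x → σ.var 53 = y → (σ.var 66 : ZMod E.W) = (c.yc i : ℤ) →
  WP E (pOne c.T) (fun σ' t' => c.Out (σ.var 0) (σ'.var 0) ∧
    (c.test π z r x y i → σ'.var 0 = 1) ∧ t' ≤ t + c.tOne) σ t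

def SItem : Prop := ∀ {E : Env} {c : Cx}, Bnd c E → ∀ {σ : St} {t : ℕ} {π : Pr} {z r : ℕ},
  Tab c E π z r σ → ∀ {i : ℕ}, i < c.n → σ.var 33 = i → res π.p (c.yc i) = r →
  WP E (pItem c.T) (fun σ' t' => c.Out (σ.var 0) (σ'.var 0) ∧
    (c.HitI π z i → σ'.var 0 = 1) ∧ t' ≤ t + c.tItem) σ t

def SQuery : Prop := ∀ {E : Env} {c : Cx}, Bnd c E → ∀ {σ : St} {t : ℕ} {π : Pr} {z r : ℕ},
  Tab c E π z r σ →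
  WP E (pQuery c.T) (fun σ' t' => c.Out (σ.var 0) (σ'.var 0) ∧
    (∀ i < c.n, res π.p (c.yc i) = r → c.HitI π z i → σ'.var 0 = 1) ∧
    t' ≤ t + (c.n * 3 + 2) + c.ncr π r * c.tItem) σ t

def SInst : Prop := ∀ {E : Env} {c : Cx}, Bnd c E → ∀ {σ : St} {t : ℕ} {π : Pr} {z r : ℕ},
  Ins c E π z r σ →
  WP E (pInst c.T) (fun σ' t' => c.Out (σ.var 0) (σ'.var 0) ∧
    (∀ i < c.n, res π.p (c.yc i) = r → c.HitI π z i → σ'.var 0 = 1) ∧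
    t' ≤ t + c.tInst + c.ncr π r * c.tItem) σ t

def STup : Prop := ∀ {E : Env} {c : Cx}, Bnd c E → ∀ {σ : St} {t : ℕ} {π : Pr} {z : ℕ},
  Pre c π σ → z < c.NT → σ.var 90 = z →
  WP E (pTup c.T) (fun σ' t' => c.Out (σ.var 0) (σ'.var 0) ∧ (c.Hit π z → σ'.var 0 = 1) ∧
    t' ≤ t + c.tTup) σ t

def SLoop : Prop := ∀ {E : Env} {c : Cx}, Bnd c E → ∀ {σ : St} {t : ℕ} {π : Pr},
  Pre c π σ →
  WP E (pLoop c.T) (fun σ' t' => c.Out (σ.var 0) (σ'.var 0) ∧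
    (∀ z < c.NT, c.Hit π z → σ'.var 0 = 1) ∧ t' ≤ t + c.tLoop) σ t

def SPrep : Prop := ∀ {E : Env} {c : Cx}, Bnd c E → ∀ {σ : St} {t : ℕ}, Par c σ → 1 ≤ c.n →
  (∀ a, σ.bank 0 a = 0) →
  WP E pPrep (fun σ' t' => Pre c (c.pr (bits E.ω σ.pos c.k1)) σ' ∧ σ'.var 0 = σ.var 0 ∧
    t' ≤ t + c.tPrep) σ t

def SSetup : Prop := ∀ {E : Env} {c : Cx}, Sz c → Bnd c E → E.inp 0 = (c.d + 3) * c.n →
  ∀ {σ : St} {t : ℕ},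
  WP E (.seq (pConst c.toKc) pSetup) (fun σ' t' => Par c σ' ∧ σ'.var 0 = σ.var 0 ∧
    σ'.bank = σ.bank ∧ σ'.pos = σ.pos ∧ t' ≤ t + (2 * c.n + 10 * c.Ab)) σ t

def SMain : Prop := ∀ {E : Env} {c : Cx}, Sz c → Bnd c E → E.inp 0 = (c.d + 3) * c.n →
  WP E (pMain c.toKc) (fun σ' t' => c.Out 0 (σ'.var 0) ∧
    (∀ z < c.NT, c.Hit (c.pr (bits E.ω 0 c.k1)) z → σ'.var 0 = 1) ∧ t' ≤ c.tAll) St.zero 0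

/-! ### Numbers -/

def SK : Prop := ∀ (d e cc : ℕ) (T : List Trm), 1 ≤ e →
  (∀ τ ∈ T, τ.i + τ.j + τ.k + τ.es.sum < e ∧ τ.es.length ≤ d) →
  (∀ w x y z, 0 ≤ Hv w T x y z) → ∃ K : Kc, K.d = d ∧ K.T = T ∧ K.OK cc

def SNm : Prop := ∀ {c : Cx} {cc : ℕ}, c.toKc.OK cc → Sz c →
  (∀ d, |c.y d| ≤ (c.n : ℤ) ^ cc) → Nm c

def SBnd : Prop := ∀ {E : Env} {c : Cx} {w : ℕ}, Nm c → E.W = 2 ^ w → 20 * c.Ab ≤ w →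
  E.Lim = 2 ^ (3 * c.Ab) → E.n1 = (c.d + 3) * c.n + 1 →
  (∀ d, 1 ≤ d → d ≤ (c.d + 3) * c.n → E.inp d = (c.y d % E.W).toNat) → Bnd c E

def STime : Prop := ∀ (K : Kc) (cc : ℕ), K.OK cc → ∃ C : ℝ, ∀ c : Cx, c.toKc = K → Sz c →
  (c.tAll : ℝ) ≤ C * ((c.n : ℝ) ^ (((K.d : ℚ) + 2 - 1 / 30000 : ℚ) : ℝ) + 1)

open Classical in
def SGood : Prop := ∀ {c : Cx}, Nm c → ∀ z, ∀ i < c.n, ∀ i' < c.n, ∀ i'' < c.n,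
  c.H z (c.ya 0) (c.yb 0) (c.yc i'') ≠ 0 →
  2 * 2 ^ c.k1 ≤ 3 * ((range (2 ^ c.k1)).filter fun r => c.Good z i i' i'' (c.pr r)).card

def SComplete : Prop := ∀ {c : Cx}, Nm c → ∀ {π : Pr}, π.OK c → ∀ z, ∀ i < c.n, ∀ i' < c.n,
  ∀ i'' < c.n, c.H z (c.ya i) (c.yb i') (c.yc i'') = 0 → c.Good z i i' i'' π → c.HitI π z i''

end Pool.Agent.P.MP_8f87b2_lc.PL
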